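import Pool.Agent.Helper39.HD.Forest

/-!
# Forest data from a decomposition into linear forests
-/

set_option autoImplicit false

namespace Pool.Agent.Helper39.HD

open Equiv

namespace Orient

/-- a fixed-point-free involution has an orientation -/
theorem orient_one {O : Type*} (σ : O → O) (h1 : ∀ o, σ (σ o) = o) (h2 : ∀ o, σ o ≠ o) :
    ∃ f : O → Bool, ∀ o, f (σ o) = !f o := by
  classical
  let _ := linearOrderOfSTO (@WellOrderingRel O)
  refine ⟨fun o => decide (o < σ o), fun o => ?_⟩
  dsimp only
  rw [h1]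
  rcases lt_trichotomy o (σ o) with h | h | h
  · have h' : ¬ σ o < o := not_lt_of_gt h
    simp [h, h']
  · exact absurd h.symm (h2 o)
  · have h' : ¬ o < σ o := not_lt_of_gt h
    simp [h, h']

/-- two fixed-point-free involutions have a common orientation -/
theorem orient_two {E : Type*} (σ τ : Perm E) (s2 : σ * σ = 1) (t2 : τ * τ = 1)
    (s0 : ∀ e, σ e ≠ e) (t0 : ∀ e, τ e ≠ e) :
    ∃ f : E → Bool, (∀ e, f (σ e) = !f e) ∧ ∀ e, f (τ e) = !f e := by
  classical
  have si : σ⁻¹ = σ := inv_eq_of_mul_eq_one_left s2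
  have ti : τ⁻¹ = τ := inv_eq_of_mul_eq_one_left t2
  set ρ : Perm E := σ * τ with hρ
  have hconj : σ * ρ * σ⁻¹ = ρ⁻¹ := by
    rw [hρ, mul_inv_rev, si, ti, ← mul_assoc, s2, one_mul]
  have hσρ : ∀ n : ℤ, σ * ρ ^ n = ρ ^ (-n) * σ := by
    intro n
    have h := conj_zpow (i := n) (a := σ) (b := ρ)
    rw [hconj, inv_zpow, ← zpow_neg] at h
    rw [h, mul_assoc, inv_mul_cancel, mul_one]
  have hτ : τ = σ * ρ := by rw [hρ, ← mul_assoc, s2, one_mul]
  have hne : ∀ e, ¬ ρ.SameCycle e (σ e) := by
    rintro e ⟨n, hn⟩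
    rcases Int.even_or_odd' n with ⟨m, rfl | rfl⟩
    · apply s0 ((ρ ^ m) e)
      have h := congrArg (fun g : Perm E => g e) (hσρ m)
      simp only [Perm.mul_apply] at h
      rw [h, ← hn, ← Perm.mul_apply, ← zpow_add]
      congr 2
      ring
    · apply t0 ((ρ ^ m) e)
      have h := congrArg (fun g : Perm E => g e) (hσρ (m + 1))
      simp only [Perm.mul_apply] at h
      rw [hτ, Perm.mul_apply, ← Perm.mul_apply ρ, ← zpow_one_add, add_comm, h, ← hn,
        ← Perm.mul_apply, ← zpow_add]
      congr 2
      ring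
  have hσc : ∀ x y, ρ.SameCycle x y → ρ.SameCycle (σ x) (σ y) := by
    intro x y h
    have h2 := h.conj (g := σ)
    rw [hconj] at h2
    exact Perm.sameCycle_inv.1 h2
  let O := Quotient (Perm.SameCycle.setoid ρ)
  let σ' : O → O := Quotient.map' σ hσc
  obtain ⟨f, hf⟩ := orient_one σ' (by
    intro o
    induction o using Quotient.inductionOn' with
    | h e =>
      change Quotient.mk'' (σ (σ e)) = _
      rw [← Perm.mul_apply, s2]; rfl) (by
    intro o
    induction o using Quotient.inductionOn' with
    | h e =>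
      intro he
      exact hne e (Quotient.exact' he).symm)
  refine ⟨fun e => f (Quotient.mk'' e), fun e => hf (Quotient.mk'' e), fun e => ?_⟩
  have h1 : (Quotient.mk'' (τ e) : O) = σ' (Quotient.mk'' e) := by
    change (Quotient.mk'' (τ e) : O) = Quotient.mk'' (σ e)
    apply Quotient.sound'
    change ρ.SameCycle (τ e) (σ e)
    rw [hτ, Perm.mul_apply]
    apply hσc
    exact (Perm.sameCycle_apply_left.2 (Perm.SameCycle.refl _ _))
  change f (Quotient.mk'' (τ e)) = _
  rw [h1]
  exact hf _

/-- pairing of the elements of a finite set of even cardinality which pairs elements of the same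
colour -/
theorem exists_pairing {Λ K : Type*} [Finite Λ] (c : Λ → K) (hev : Even (Nat.card Λ))
    (h2 : ∀ l l' l'', c l' = c l → c l'' = c l → l = l' ∨ l = l'' ∨ l' = l'') :
    ∃ τ : Λ → Λ, (∀ l, τ (τ l) = l) ∧ (∀ l, τ l ≠ l) ∧ ∀ l l', l' ≠ l → c l' = c l → τ l = l' := by
  classical
  have := Fintype.ofFinite Λ
  let p : Λ → Λ := fun l => if h : ∃ l', l' ≠ l ∧ c l' = c l then h.choose else l
  have p1 : ∀ l l', l' ≠ l → c l' = c l → p l = l' := by
    intro l l' hl hc
    have h : ∃ l', l' ≠ l ∧ c l' = c l := ⟨l', hl, hc⟩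
    simp only [p]
    rw [dif_pos h]
    rcases h2 l l' h.choose hc h.choose_spec.2 with h3 | h3 | h3
    · exact absurd h3.symm hl
    · exact absurd h3.symm h.choose_spec.1
    · exact h3.symm
  have p2 : ∀ l, p (p l) = l := by
    intro l
    by_cases h : ∃ l', l' ≠ l ∧ c l' = c l
    · obtain ⟨l', hl, hc⟩ := h
      rw [p1 l l' hl hc]
      exact p1 l' l hl.symm hc.symm
    · have h3 : p l = l := by simp only [p]; rw [dif_neg h]
      rw [h3, h3]
  let A := {l : Λ // p l = l}
  have hA : Even (Nat.card A) := by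
    have h3 := Equiv.Perm.card_fixedPoints_modEq (α := Λ) (f := (p : Function.End Λ)) (p := 2)
      (n := 1) (by funext l; exact p2 l)
    have h4 : Fintype.card (Function.fixedPoints p) = Nat.card A := by
      rw [← Nat.card_eq_fintype_card]; rfl
    rw [← Nat.card_eq_fintype_card (α := Λ)] at h3
    rw [Nat.even_iff] at hev ⊢
    rw [← h4]
    have h5 : Nat.card Λ % 2 = Fintype.card (Function.fixedPoints p) % 2 := h3
    omega
  obtain ⟨m, hm⟩ := hA
  have e : A ≃ Fin m ⊕ Fin m := (Finite.equivFinOfCardEq hm).trans finSumFinEquiv.symm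
  let τA : A → A := fun x => e.symm (e x).swap
  have tA1 : ∀ x, τA (τA x) = x := by intro x; simp [τA]
  have tA2 : ∀ x, τA x ≠ x := by
    intro x hx
    have h3 : (e x).swap = e x := by
      have := congrArg e hx
      simpa [τA] using this
    rcases h4 : e x with i | i <;> rw [h4] at h3 <;> simp at h3
  let τ : Λ → Λ := fun l => if h : p l = l then (τA ⟨l, h⟩ : Λ) else p l
  have τ1 : ∀ l (h : p l = l), τ l = τA ⟨l, h⟩ := fun l h => dif_pos h
  have τ2 : ∀ l, p l ≠ l → τ l = p l := fun l h => dif_neg h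
  refine ⟨τ, ?_, ?_, ?_⟩
  · intro l
    by_cases h : p l = l
    · rw [τ1 l h, τ1 _ (τA ⟨l, h⟩).2]
      exact congrArg Subtype.val (tA1 ⟨l, h⟩)
    · rw [τ2 l h, τ2 _ (by rw [p2]; exact fun h' => h h'.symm), p2]
  · intro l
    by_cases h : p l = l
    · rw [τ1 l h]
      intro h'
      exact tA2 ⟨l, h⟩ (Subtype.ext h')
    · rw [τ2 l h]; exact h
  · intro l l' hl hc
    have h3 := p1 l l' hl hc
    rw [τ2 l (by rw [h3]; exact hl), h3]

/-- exactly one colour is missing -/
theorem one_missing {B : Type*} {r : ℕ} (g : B → Fin (r + 1)) (hg : Function.Injective g)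
    (hB : Nat.card B = r) : ∃! k, ∀ b, g b ≠ k := by
  classical
  have : Finite B := Finite.of_injective g hg
  have := Fintype.ofFinite B
  have h1 : (Finset.univ.image g)ᶜ.card = 1 := by
    rw [Finset.card_compl, Finset.card_image_of_injective _ hg, Fintype.card_fin,
      Finset.card_univ, ← Nat.card_eq_fintype_card, hB]
    omega
  obtain ⟨k, hk⟩ := Finset.card_eq_one.1 h1
  refine ⟨k, ?_, ?_⟩
  · intro b hb
    have h2 : k ∈ (Finset.univ.image g)ᶜ := by rw [hk]; simp
    rw [Finset.mem_compl] at h2
    exact h2 (by rw [← hb]; simp)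
  · intro k' hk'
    have h2 : k' ∈ (Finset.univ.image g)ᶜ := by
      rw [Finset.mem_compl]
      intro h3
      obtain ⟨b, -, hb⟩ := Finset.mem_image.1 h3
      exact hk' b hb
    rw [hk] at h2
    simpa using h2

/-- half of the elements have a given orientation -/
theorem half_card {Λ : Type*} [Finite Λ] (τ : Λ → Λ) (h1 : ∀ l, τ (τ l) = l) (f : Λ → Bool)
    (hf : ∀ l, f (τ l) = !f l) {r : ℕ} (hr : Nat.card Λ = 2 * r) (β : Bool) :
    Nat.card {l // f l = β} = r := by
  classical
  have e : ∀ β, {l // f l = β} ≃ {l // f l = !β} := fun β =>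
    { toFun := fun l => ⟨τ l.1, by rw [hf, l.2]⟩
      invFun := fun l => ⟨τ l.1, by rw [hf, l.2, Bool.not_not]⟩
      left_inv := fun l => Subtype.ext (h1 _)
      right_inv := fun l => Subtype.ext (h1 _) }
  have h2 : Nat.card {l // f l = β} = Nat.card {l // f l = !β} := Nat.card_congr (e β)
  have h3 : Nat.card {l // f l = β} + Nat.card {l // ¬ f l = β} = Nat.card Λ := by
    rw [← Nat.card_sum]
    exact Nat.card_congr (Equiv.sumCompl _)
  have h4 : Nat.card {l // ¬ f l = β} = Nat.card {l // f l = !β} := by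
    apply Nat.card_congr
    apply Equiv.subtypeEquivRight
    intro l
    cases f l <;> cases β <;> simp
  omega

/-- well-foundedness along a non-backtracking map in an acyclic graph -/
theorem wf_of_acyclic {T : Type*} [Finite T] (F : SimpleGraph T) (hF : F.IsAcyclic)
    (N : T → Option T) (h1 : ∀ x y, N x = some y → F.Adj x y)
    (h2 : ∀ x y z, N x = some y → N y = some z → z ≠ x) :
    WellFounded (fun y x => N x = some y) := by
  have key : ∀ x y, Relation.TransGen (fun y x => N x = some y) y x →
      ∃ p : F.Walk x y, p.edges.IsChain (· ≠ ·) ∧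
        ∃ z, N x = some z ∧ p.edges.head? = some s(x, z) := by
    intro x y h
    induction h with
    | single h =>
      exact ⟨SimpleGraph.Walk.cons (h1 _ _ h) SimpleGraph.Walk.nil, List.IsChain.singleton _, y, h,
        rfl⟩
    | @tail b c _ h ih =>
      obtain ⟨p, hp, z, hz, hh⟩ := ih
      refine ⟨SimpleGraph.Walk.cons (h1 _ _ h) p, ?_, b, h, rfl⟩
      rw [SimpleGraph.Walk.edges_cons, List.isChain_cons]
      refine ⟨?_, hp⟩
      intro e he
      rw [hh] at he
      obtain rfl : s(b, z) = e := by simpa using he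
      intro h3
      rw [Sym2.eq_iff] at h3
      rcases h3 with ⟨h3, -⟩ | ⟨h3, -⟩
      · exact (h1 _ _ h).ne h3
      · exact h2 _ _ _ h hz h3.symm
  have irr : ∀ x, ¬ Relation.TransGen (fun y x => N x = some y) x x := by
    intro x h
    obtain ⟨p, hp, z, -, hz⟩ := key x x h
    have h3 := (hF.isPath_iff_isChain p).2 hp
    rw [SimpleGraph.Walk.isPath_iff_nil, ← SimpleGraph.Walk.eq_nil_iff_nil] at h3
    rw [h3] at hz
    simp at hz
  have : IsTrans T (Relation.TransGen (fun y x => N x = some y)) := ⟨fun _ _ _ => Relation.TransGen.trans⟩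
  have : Std.Irrefl (Relation.TransGen (fun y x => N x = some y)) := ⟨irr⟩
  have h3 := Finite.wellFounded_of_trans_of_irrefl (Relation.TransGen (fun y x => N x = some y))
  have h4 : Subrelation (fun y x => N x = some y)
      (Relation.TransGen (fun y x => N x = some y)) := fun {a b} h => Relation.TransGen.single h
  exact Subrelation.wf h4 h3

end Orient

open Orient in
theorem forestData_of_linearForests {T : Type*} [AddCommGroup T] [Finite T] (S : Set T)
    (h0 : (0 : T) ∉ S) (hS : ∀ s ∈ S, -s ∉ S)
    (h : LinearForestDecomposable (SimpleGraph.circulantGraph S) (S.ncard + 1)) :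
    Nonempty (ForestData T S (Fin (S.ncard + 1)) (fun s => Equiv.addRight (s : T))) := by
  classical
  obtain ⟨F, hF1, hF2, hF3⟩ := h
  set act : S → Perm T := fun s => Equiv.addRight (s : T) with hact
  have stpt : ∀ (s : S) x, stp act (s, true) x = x + s := fun s x => rfl
  have stpf : ∀ (s : S) x, stp act (s, false) x = x + -(s : T) := fun s x => rfl
  have sinv : ∀ (l : S × Bool) x, stp act (l.1, !l.2) (stp act l x) = x := by
    rintro ⟨s, _ | _⟩ x
    · simp [stpt, stpf]
    · simp [stpt, stpf]
  have hS0 : ∀ s : S, (s : T) ≠ 0 := by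
    rintro ⟨s, hs⟩ rfl
    exact h0 hs
  have sadj : ∀ (l : S × Bool) x, (SimpleGraph.circulantGraph S).Adj x (stp act l x) := by
    rintro ⟨s, _ | _⟩ x
    · rw [stpf, SimpleGraph.circulantGraph_adj]
      exact ⟨by simpa using (hS0 s), Or.inl (by simp)⟩
    · rw [stpt, SimpleGraph.circulantGraph_adj]
      exact ⟨by simpa using (hS0 s), Or.inr (by simp)⟩
  have sinj : ∀ x, Function.Injective fun l : S × Bool => stp act l x := by
    rintro x ⟨s, _ | _⟩ ⟨s', _ | _⟩ h
    · simp only [stpf, add_right_inj, neg_inj] at h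
      rw [Subtype.ext h]
    · simp only [stpf, stpt, add_right_inj] at h
      exact absurd (h ▸ s'.2) (hS _ s.2)
    · simp only [stpf, stpt, add_right_inj] at h
      exact absurd (h ▸ s.2) (hS _ s'.2)
    · simp only [stpt, add_right_inj] at h
      rw [Subtype.ext h]
  choose! c hc1 hc2 using fun x (l : S × Bool) => hF3 x (stp act l x) (sadj l x)
  -- the reversal
  let E := T × (S × Bool)
  let σf : E → E := fun e => (stp act e.2 e.1, (e.2.1, !e.2.2))
  have σσ : ∀ e, σf (σf e) = e := by
    rintro ⟨x, l⟩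
    simp only [σf, sinv, Bool.not_not]
  have cσ : ∀ x (l : S × Bool), c (stp act l x) (l.1, !l.2) = c x l := by
    intro x l
    refine (hc2 _ _ _ ?_).symm
    rw [sinv]
    exact (hc1 x l).symm
  let σ : Perm E := Function.Involutive.toPerm σf σσ
  have σ2 : σ * σ = 1 := Equiv.ext σσ
  have σ0 : ∀ e, σ e ≠ e := by
    rintro ⟨x, s, β⟩ he
    have h2 : (!β) = β := congrArg (fun e : E => e.2.2) he
    cases β <;> simp at h2
  -- the pairing
  have hcard : Nat.card (S × Bool) = 2 * S.ncard := by
    rw [Nat.card_prod, Nat.card_coe_set_eq]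
    simp [mul_comm]
  have hfib : ∀ x (l l' l'' : S × Bool), c x l' = c x l → c x l'' = c x l →
      l = l' ∨ l = l'' ∨ l' = l'' := by
    intro x l l' l'' h1 h2
    by_contra hcon
    push Not at hcon
    obtain ⟨n1, n2, n3⟩ := hcon
    have h3 : ({stp act l x, stp act l' x, stp act l'' x} : Set T).encard = 3 := by
      rw [Set.encard_eq_three]
      exact ⟨_, _, _, fun h => n1 (sinj x h), fun h => n2 (sinj x h), fun h => n3 (sinj x h), rfl⟩
    have h4 : ({stp act l x, stp act l' x, stp act l'' x} : Set T) ⊆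
        (F (c x l)).neighborSet x := by
      intro y hy
      simp only [Set.mem_insert_iff, Set.mem_singleton_iff] at hy
      rw [SimpleGraph.mem_neighborSet]
      rcases hy with rfl | rfl | rfl
      · exact hc1 x l
      · rw [← h1]; exact hc1 x l'
      · rw [← h2]; exact hc1 x l''
    have h5 := (Set.encard_le_encard h4).trans ((hF1 (c x l)).2 x)
    rw [h3] at h5
    exact absurd h5 (by decide)
  choose τ τ1 τ2 τ3 using fun x => exists_pairing (c x) (by rw [hcard]; exact even_two_mul _)
    (hfib x)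
  let τP : Perm E := Function.Involutive.toPerm (fun e : E => (e.1, τ e.1 e.2))
    (fun e => Prod.ext rfl (τ1 e.1 e.2))
  have τ4 : τP * τP = 1 := Equiv.ext fun e => Prod.ext rfl (τ1 e.1 e.2)
  obtain ⟨f, fσ, fτ⟩ := orient_two σ τP σ2 τ4 σ0 (fun e he => τ2 e.1 e.2 (congrArg Prod.snd he))
  have fσ' : ∀ x (l : S × Bool), f (stp act l x, (l.1, !l.2)) = !f (x, l) := fun x l => fσ (x, l)
  have fτ' : ∀ x (l : S × Bool), f (x, τ x l) = !f (x, l) := fun x l => fτ (x, l)
  have huniq : ∀ x (l l' : S × Bool), c x l = c x l' → f (x, l) = f (x, l') → l = l' := by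
    intro x l l' h1 h2
    by_contra hne
    have h3 := τ3 x l' l hne h1
    have h4 := fτ' x l'
    rw [h3, h2] at h4
    cases h5 : f (x, l') <;> rw [h5] at h4 <;> simp at h4
  let sel : Bool → Fin (S.ncard + 1) → T → Option (S × Bool) := fun β k x =>
    if h : ∃ l, c x l = k ∧ f (x, l) = β then some h.choose else none
  have sel_some : ∀ β k x l, sel β k x = some l ↔ c x l = k ∧ f (x, l) = β := by
    intro β k x l
    simp only [sel]
    constructor
    · intro h
      split_ifs at h with h1
      have h2 : h1.choose = l := by simpa using h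
      rw [← h2]
      exact h1.choose_spec
    · intro h
      have h1 : ∃ l, c x l = k ∧ f (x, l) = β := ⟨l, h⟩
      rw [dif_pos h1]
      congr 1
      exact huniq x _ _ (h1.choose_spec.1.trans h.1.symm) (h1.choose_spec.2.trans h.2.symm)
  have sel_none : ∀ β k x, sel β k x = none ↔ ∀ l, c x l = k → f (x, l) ≠ β := by
    intro β k x
    constructor
    · intro h l hl hf
      have := (sel_some β k x l).2 ⟨hl, hf⟩
      rw [h] at this
      simp at this
    · intro h
      cases h1 : sel β k x with
      | none => rfl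
      | some l =>
        obtain ⟨h2, h3⟩ := (sel_some β k x l).1 h1
        exact absurd h3 (h l h2)
  have sel_inv : ∀ β k x (l : S × Bool), sel β k x = some l ↔
      sel (!β) k (stp act l x) = some (l.1, !l.2) := by
    intro β k x l
    rw [sel_some, sel_some, cσ, fσ']
    cases f (x, l) <;> cases β <;> simp
  have missing : ∀ β x, ∃! k, sel β k x = none := by
    intro β x
    have h1 : ∃! k, ∀ b : {l : S × Bool // f (x, l) = β}, c x b.1 ≠ k :=
      one_missing (fun b : {l : S × Bool // f (x, l) = β} => c x b.1)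
        (fun b b' hb => Subtype.ext (huniq x _ _ hb (b.2.trans b'.2.symm)))
        (half_card (τ x) (τ1 x) (fun l => f (x, l)) (fτ' x) hcard β)
    obtain ⟨k, hk, hk'⟩ := h1
    refine ⟨k, ?_, ?_⟩
    · refine (sel_none β k x).2 ?_
      intro l hl hf
      exact hk ⟨l, hf⟩ hl
    · intro k' h2
      apply hk'
      rintro ⟨l, hl⟩ h3
      exact (sel_none β k' x).1 h2 l h3 hl
  have wf : ∀ β k, WellFounded (fun y x => ∃ l, sel β k x = some l ∧ y = stp act l x) := by
    intro β k
    have h1 := wf_of_acyclic (F k) (hF1 k).1 (fun x => (sel β k x).map fun l => stp act l x) (by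
      intro x y hy
      rw [Option.map_eq_some_iff] at hy
      obtain ⟨l, hl, rfl⟩ := hy
      rw [sel_some] at hl
      rw [← hl.1]
      exact hc1 x l) (by
      intro x y z hy hz
      rw [Option.map_eq_some_iff] at hy hz
      obtain ⟨l, hl, rfl⟩ := hy
      obtain ⟨l', hl', rfl⟩ := hz
      intro h2
      have h3 : l' = (l.1, !l.2) := sinj (stp act l x) (by
        change stp act l' (stp act l x) = stp act (l.1, !l.2) (stp act l x)
        rw [h2, sinv])
      rw [sel_inv] at hl
      rw [h3] at hl'
      have h4 := ((sel_some _ _ _ _).1 hl).2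
      have h5 := ((sel_some _ _ _ _).1 hl').2
      rw [h4] at h5
      cases β <;> simp at h5)
    refine h1.mono ?_
    rintro y x ⟨l, hl, rfl⟩
    rw [hl]; rfl
  exact ⟨{
    nx := sel true
    pv := sel false
    inv := fun k x l β => sel_inv true k x (l, β)
    dart := by
      intro x l
      refine ⟨(c x l, f (x, l)), ?_, ?_⟩
      · dsimp only
        cases hf : f (x, l)
        · simp only [Bool.false_eq_true, if_false]
          exact (sel_some _ _ _ _).2 ⟨rfl, hf⟩
        · simp only [if_true]
          exact (sel_some _ _ _ _).2 ⟨rfl, hf⟩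
      · rintro ⟨k, _ | _⟩ hk
        · simp only [Bool.false_eq_true, if_false] at hk
          obtain ⟨h1, h2⟩ := (sel_some _ _ _ _).1 hk
          rw [h1, h2]
        · simp only [if_true] at hk
          obtain ⟨h1, h2⟩ := (sel_some _ _ _ _).1 hk
          rw [h1, h2]
    nx_none := missing true
    pv_none := missing false
    wf_nx := wf true
    wf_pv := wf false }⟩

end Pool.Agent.Helper39.HD
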