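import Pool.Agent.Helper39.HD.Forest

/-!
# Permutations from forest data
-/

namespace Pool.Agent.Helper39.HD

open Equiv

namespace Block

variable {Γ L K : Type*} [AddCommGroup Γ]

/-- the vector of a signed label -/
def step (lab : L → Γ) (l : L × Bool) : Γ := if l.2 then lab l.1 else - lab l.1

/-- the reversed signed label -/
def flp (l : L × Bool) : L × Bool := (l.1, !l.2)

theorem flp_flp (l : L × Bool) : flp (flp l) = l := by simp [flp]

theorem step_flp (lab : L → Γ) (l : L × Bool) : step lab (flp l) = - step lab l := by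
  rcases l with ⟨l, _ | _⟩ <;> simp [step, flp]

theorem stp_apply (lab : L → Γ) (l : L × Bool) (x : Γ) :
    stp (fun l => Equiv.addRight (lab l)) l x = x + step lab l := by
  rcases l with ⟨l, _ | _⟩
  · simp only [stp, step, Bool.false_eq_true, if_false]
    rw [Equiv.Perm.inv_eq_iff_eq]
    simp
  · simp [stp, step]

variable {a b : Γ} {lab : L → Γ} (D : ForestData Γ L K (fun l => Equiv.addRight (lab l)))

/-- the next or previous arc -/
def dd (β : Bool) (k : K) (x : Γ) : Option (L × Bool) := if β then D.nx k x else D.pv k x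

theorem dd_inv (β : Bool) (k : K) (x : Γ) (l : L × Bool) :
    dd D β k x = some l ↔ dd D (!β) k (x + step lab l) = some (flp l) := by
  rcases β with _ | _
  · have := D.inv k (x + step lab l) l.1 (!l.2)
    rw [stp_apply] at this
    have h1 : x + step lab l + step lab (l.1, !l.2) = x := by
      have := step_flp lab l
      rw [flp] at this
      rw [this]; abel
    rw [h1, Bool.not_not] at this
    simp only [dd, Bool.false_eq_true, if_false, Bool.not_false, if_true]
    exact this.symm
  · have := D.inv k x l.1 l.2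
    rw [stp_apply] at this
    simp only [dd, if_true, Bool.not_true, Bool.false_eq_true, if_false]
    exact this

theorem dd_wf (β : Bool) (k : K) :
    WellFounded (fun y x => ∃ l, dd D β k x = some l ∧ y = x + step lab l) := by
  rcases β with _ | _
  · have := D.wf_pv k
    simp only [stp_apply] at this
    simpa only [dd, Bool.false_eq_true, if_false] using this
  · have := D.wf_nx k
    simp only [stp_apply] at this
    simpa only [dd, if_true] using this

theorem dd_none (β : Bool) (x : Γ) : ∃! k, dd D β k x = none := by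
  rcases β with _ | _
  · simpa [dd] using D.pv_none x
  · simpa [dd] using D.nx_none x

/-- the hypotheses on the levels -/
structure Hyp (a b : Γ) (lev : Γ → Bool) : Prop where
  lev_a : ∀ x, lev (x + a) = !lev x
  lev_b : ∀ x, lev (x + b) = lev x
  lev_l : ∀ x l, lev (x + lab l) = lev x
  nx_a : ∀ k x, D.nx k (x + a) = D.nx k x
  pv_a : ∀ k x, D.pv k (x + a) = D.pv k x
  nx_b : ∀ k x, D.nx k (x + b) = D.nx k x
  pv_b : ∀ k x, D.pv k (x + b) = D.pv k x

variable {D} {lev : Γ → Bool} (H : Hyp D a b lev)

include H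

theorem Hyp.lev_step (x : Γ) (l : L × Bool) : lev (x + step lab l) = lev x := by
  rcases l with ⟨l, _ | _⟩
  · have := H.lev_l (x + step lab (l, false)) l
    rw [← this]
    congr 1
    simp [step]
  · simpa [step] using H.lev_l x l

theorem Hyp.lev_neg (x : Γ) : lev (x - a) = !lev x := by
  have := H.lev_a (x - a)
  rw [sub_add_cancel] at this
  rw [this, Bool.not_not]

theorem Hyp.dd_a (β : Bool) (k : K) (x : Γ) : dd D β k (x + a) = dd D β k x := by
  unfold dd
  rw [H.nx_a, H.pv_a]

theorem Hyp.dd_b (β : Bool) (k : K) (x : Γ) : dd D β k (x + b) = dd D β k x := by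
  unfold dd
  rw [H.nx_b, H.pv_b]

theorem Hyp.dd_sub (β : Bool) (k : K) (x : Γ) : dd D β k (x - a) = dd D β k x := by
  have := H.dd_a β k (x - a)
  rw [sub_add_cancel] at this
  exact this.symm

omit H in
/-- the map -/
def uf (D : ForestData Γ L K (fun l => Equiv.addRight (lab l))) (a : Γ) (lev : Γ → Bool) (k : K)
    (x : Γ) : Γ :=
  (dd D (lev x) k x).elim (x + a) fun l => x + step lab l

omit H in
/-- the inverse map -/
def vf (D : ForestData Γ L K (fun l => Equiv.addRight (lab l))) (a : Γ) (lev : Γ → Bool) (k : K)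
    (x : Γ) : Γ :=
  (dd D (!lev x) k x).elim (x - a) fun l => x + step lab l

omit H in
theorem uf_none {k : K} {x : Γ} (h : dd D (lev x) k x = none) : uf D a lev k x = x + a := by
  simp [uf, h]

omit H in
theorem uf_some {k : K} {x : Γ} {l : L × Bool} (h : dd D (lev x) k x = some l) :
    uf D a lev k x = x + step lab l := by
  simp [uf, h]

omit H in
theorem vf_none {k : K} {x : Γ} (h : dd D (!lev x) k x = none) : vf D a lev k x = x - a := by
  simp [vf, h]

omit H in
theorem vf_some {k : K} {x : Γ} {l : L × Bool} (h : dd D (!lev x) k x = some l) :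
    vf D a lev k x = x + step lab l := by
  simp [vf, h]

theorem Hyp.vf_uf (k : K) (x : Γ) : vf D a lev k (uf D a lev k x) = x := by
  rcases h : dd D (lev x) k x with _ | l
  · rw [uf_none h, vf_none]
    · abel
    · rw [H.lev_a, Bool.not_not, H.dd_a, h]
  · rw [uf_some h, vf_some (l := flp l), step_flp]
    · abel
    · rw [H.lev_step]
      exact (dd_inv D _ _ _ _).1 h

theorem Hyp.uf_vf (k : K) (x : Γ) : uf D a lev k (vf D a lev k x) = x := by
  rcases h : dd D (!lev x) k x with _ | l
  · rw [vf_none h, uf_none]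
    · abel
    · rw [H.lev_neg, H.dd_sub, h]
  · rw [vf_some h, uf_some (l := flp l), step_flp]
    · abel
    · rw [H.lev_step]
      have := (dd_inv D _ _ _ _).1 h
      rwa [Bool.not_not] at this

/-- the permutation -/
def Hyp.U (k : K) : Perm Γ where
  toFun := uf D a lev k
  invFun := vf D a lev k
  left_inv := H.vf_uf k
  right_inv := H.uf_vf k

theorem Hyp.U_apply (k : K) (x : Γ) : H.U k x = uf D a lev k x := rfl

theorem Hyp.U_b (k : K) (x : Γ) : H.U k (x + b) = H.U k x + b := by
  rw [H.U_apply, H.U_apply]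
  rcases h : dd D (lev x) k x with _ | l
  · rw [uf_none h, uf_none (by rw [H.lev_b, H.dd_b, h])]
    abel
  · rw [uf_some h, uf_some (l := l) (by rw [H.lev_b, H.dd_b, h])]
    abel

theorem Hyp.U_a (k : K) (x : Γ) : H.U k (x + (a + a)) = H.U k x + (a + a) := by
  have h1 : lev (x + (a + a)) = lev x := by
    rw [← add_assoc, H.lev_a, H.lev_a, Bool.not_not]
  have h2 : ∀ β, dd D β k (x + (a + a)) = dd D β k x := by
    intro β
    rw [← add_assoc, H.dd_a, H.dd_a]
  rw [H.U_apply, H.U_apply]
  rcases h : dd D (lev x) k x with _ | l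
  · rw [uf_none h, uf_none (by rw [h1, h2, h])]
    abel
  · rw [uf_some h, uf_some (l := l) (by rw [h1, h2, h])]
    abel

theorem Hyp.key (k : K) (x : Γ) : ∃ n : ℕ, 1 ≤ n ∧ (H.U k ^ n) x = x + a := by
  have : ∀ β : Bool, ∀ x, lev x = β → ∃ n : ℕ, 1 ≤ n ∧ (H.U k ^ n) x = x + a := by
    intro β x
    induction x using (dd_wf D β k).induction with
    | _ x ih =>
      intro hx
      rcases h : dd D (lev x) k x with _ | l
      · refine ⟨1, le_rfl, ?_⟩
        rw [pow_one, H.U_apply, uf_none h]
      · have hy : lev (x + step lab l) = β := by rw [H.lev_step, hx]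
        obtain ⟨m, hm, hm'⟩ := ih (x + step lab l) ⟨l, by rw [← hx]; exact h, rfl⟩ hy
        refine ⟨m + 2, by omega, ?_⟩
        have e1 : (H.U k ^ (m + 2)) x = H.U k ((H.U k ^ m) (H.U k x)) := by
          rw [show m + 2 = 1 + (m + 1) by ring, pow_add, pow_one, pow_succ]
          rfl
        rw [e1, H.U_apply k x, uf_some h, hm', H.U_apply, uf_some (l := flp l), step_flp]
        · abel
        · rw [H.lev_a, H.lev_step, H.dd_a]
          exact (dd_inv D _ _ _ _).1 h
  exact this _ x rfl

theorem Hyp.two (k : K) (x : Γ) : ∃ n : ℕ, 1 ≤ n ∧ (H.U k ^ n) x = x + (a + a) := by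
  obtain ⟨n, hn, h1⟩ := H.key k x
  obtain ⟨m, hm, h2⟩ := H.key k (x + a)
  refine ⟨m + n, by omega, ?_⟩
  rw [pow_add, Perm.mul_apply, h1, h2, add_assoc]

omit H in
/-- powers commute with a translation -/
theorem pow_comm {V : Perm Γ} {c : Γ} (h : ∀ x, V (x + c) = V x + c) (i : ℤ) (j : ℤ) (x : Γ) :
    (V ^ i) (x + j • c) = (V ^ i) x + j • c := by
  have h1 : Commute V (Equiv.addRight c) := by
    ext x
    simp [h]
  have h2 : Commute (V ^ i) ((Equiv.addRight c) ^ j) := (h1.zpow_left i).zpow_right j
  have h3 : ∀ y, ((Equiv.addRight c) ^ j : Perm Γ) y = y + j • c := by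
    clear h2
    induction j using Int.induction_on with
    | zero => intro y; simp
    | succ n ih =>
      intro y
      rw [zpow_add_one, Perm.mul_apply, Equiv.coe_addRight, ih, add_zsmul, one_zsmul, add_assoc,
        add_comm c]
    | pred n ih =>
      intro y
      have h5 : (Equiv.addRight c : Perm Γ)⁻¹ y = y - c := by
        rw [Perm.inv_eq_iff_eq]
        simp
      rw [zpow_sub_one, Perm.mul_apply, h5, ih, sub_zsmul, one_zsmul]
      abel
  have h4 := congrArg (fun f : Perm Γ => f x) h2.eq
  simp only [Perm.mul_apply, h3] at h4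
  exact h4

omit H in
theorem iter_shift {V : Perm Γ} {c : Γ} (h : ∀ x, V (x + c) = V x + c) {x : Γ} (hx : V x = x + c)
    (n : ℤ) : (V ^ n) x = x + n • c := by
  induction n using Int.induction_on with
  | zero => simp
  | succ n ih =>
    rw [zpow_add_one, Perm.mul_apply, hx]
    have := pow_comm h (n : ℤ) 1 x
    rw [one_zsmul] at this
    rw [this, ih, add_zsmul, one_zsmul]
    abel
  | pred n ih =>
    have h1 : V⁻¹ x = x - c := by
      rw [Perm.inv_eq_iff_eq]
      have := h (x - c)
      rw [sub_add_cancel, hx] at this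
      exact add_right_cancel this
    rw [zpow_sub_one, Perm.mul_apply, h1]
    have := pow_comm h (-(n : ℤ)) (-1) x
    rw [neg_one_zsmul, ← sub_eq_add_neg, ← sub_eq_add_neg] at this
    rw [this, ih, sub_zsmul, one_zsmul]
    abel

theorem Hyp.free (hab : ∀ i j : ℤ, i • a = j • b → i = 0) (hb0 : ∀ j : ℤ, j • b = 0 → j = 0)
    (k : K) (i j : ℤ) (x : Γ) (hx : (H.U k ^ i) (x + j • b) = x) : i = 0 ∧ j = 0 := by
  rw [pow_comm (H.U_b k)] at hx
  have h1 : (H.U k ^ i) x = x + (-j) • b := by
    rw [neg_zsmul, ← sub_eq_add_neg]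
    exact eq_sub_of_add_eq hx
  obtain ⟨n, hn, h2⟩ := H.two k x
  -- iterate
  have h3 : ((H.U k ^ i) ^ (n : ℤ)) x = x + (n : ℤ) • ((-j) • b) :=
    iter_shift (fun y => pow_comm (H.U_b k) i (-j) y) h1 n
  have h4 : ((H.U k ^ (n : ℤ)) ^ i) x = x + i • (a + a) := by
    refine iter_shift (fun y => ?_) (by rw [zpow_natCast]; exact h2) i
    have := pow_comm (H.U_a k) (n : ℤ) 1 y
    rwa [one_zsmul] at this
  have h5 : (H.U k ^ i) ^ (n : ℤ) = (H.U k ^ (n : ℤ)) ^ i := by
    rw [← zpow_mul, ← zpow_mul, mul_comm]
  rw [h5, h4] at h3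
  have h6 := add_left_cancel h3
  have h7 : (2 * i) • a = ((n : ℤ) * (-j)) • b := by
    have e1 : ((n : ℤ) * (-j)) • b = (n : ℤ) • (-j) • b := by rw [mul_comm, mul_zsmul']; 
    have e2 : (2 * i) • a = i • (a + a) := by
      rw [← two_zsmul a, ← mul_zsmul', mul_comm]
    rw [e1, e2, h6]
  have h8 := hab _ _ h7
  have h9 : i = 0 := by omega
  refine ⟨h9, ?_⟩
  rw [h9, zpow_zero, Perm.one_apply] at hx
  exact hb0 j (by simpa using hx)

end Block

open Block in
theorem block_lemma {Γ L K : Type*} [AddCommGroup Γ] (a b : Γ) (lab : L → Γ)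
    (hinj : Function.Injective lab) (hneg : ∀ l l', lab l ≠ - lab l') (hla : ∀ l, lab l ≠ a)
    (hla' : ∀ l, lab l ≠ -a)
    (D : ForestData Γ L K (fun l => Equiv.addRight (lab l)))
    (lev : Γ → Bool) (lev_a : ∀ x, lev (x + a) = !lev x) (lev_b : ∀ x, lev (x + b) = lev x)
    (lev_l : ∀ x l, lev (x + lab l) = lev x)
    (nx_a : ∀ k x, D.nx k (x + a) = D.nx k x) (pv_a : ∀ k x, D.pv k (x + a) = D.pv k x)
    (nx_b : ∀ k x, D.nx k (x + b) = D.nx k x) (pv_b : ∀ k x, D.pv k (x + b) = D.pv k x)
    (hab : ∀ i j : ℤ, i • a = j • b → i = 0) (hb0 : ∀ j : ℤ, j • b = 0 → j = 0) :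
    ∃ U : K → Perm Γ,
      (∀ k x, U k (x + b) = U k x + b) ∧
      (∀ k x, U k (x + (a + a)) = U k x + (a + a)) ∧
      (∀ k (i j : ℤ) x, (U k ^ i) (x + j • b) = x → i = 0 ∧ j = 0) ∧
      (∀ k x, ∃ i : ℤ, i ≠ 0 ∧ x + (a + a) = (U k ^ i) x) ∧
      (∀ k x, U k x = x + a ∨ ∃ l, U k x = x + lab l ∨ x = U k x + lab l) ∧
      (∀ x, ∃! k, U k x = x + a) ∧
      (∀ x l, ∃! p : K × Bool, if p.2 then U p.1 x = x + lab l else U p.1 (x + lab l) = x) := by
  have H : Hyp D a b lev := ⟨lev_a, lev_b, lev_l, nx_a, pv_a, nx_b, pv_b⟩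
  have hstep : ∀ l : L × Bool, step lab l ≠ a := by
    rintro ⟨l, _ | _⟩ h
    · simp only [step, Bool.false_eq_true, if_false] at h
      exact hla' l (by rw [← h, neg_neg])
    · simp only [step, if_true] at h
      exact hla l h
  have hstep' : ∀ (l : L × Bool) (l' : L), step lab l = lab l' ↔ l = (l', true) := by
    rintro ⟨l, _ | _⟩ l'
    · simp only [step, Bool.false_eq_true, if_false, Prod.mk.injEq, and_false, iff_false]
      exact fun h => hneg l' l h.symm
    · simp only [step, if_true, Prod.mk.injEq, and_true]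
      exact hinj.eq_iff
  have hcase : ∀ k x (l : L × Bool), H.U k x = x + step lab l ↔ dd D (lev x) k x = some l := by
    intro k x l
    rw [H.U_apply]
    constructor
    · intro h
      rcases h' : dd D (lev x) k x with _ | l'
      · rw [uf_none h'] at h
        exact absurd (add_left_cancel h).symm (hstep l)
      · rw [uf_some h'] at h
        have h1 := add_left_cancel h
        congr 1
        rcases l with ⟨l, _ | _⟩
        · have h2 : step lab (flp l') = lab l := by
            rw [step_flp, h1]; simp [step]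
          have h3 := (hstep' _ _).1 h2
          rw [← flp_flp l', h3]
          rfl
        · have h2 : step lab l' = lab l := by rw [h1]; simp [step]
          exact (hstep' _ _).1 h2
    · intro h; exact uf_some h
  refine ⟨H.U, H.U_b, H.U_a, H.free hab hb0, ?_, ?_, ?_, ?_⟩
  · intro k x
    obtain ⟨n, hn, h⟩ := H.two k x
    exact ⟨n, by omega, by rw [zpow_natCast, h]⟩
  · intro k x
    rw [H.U_apply]
    rcases h : dd D (lev x) k x with _ | ⟨l, β⟩
    · left; exact uf_none h
    · right
      refine ⟨l, ?_⟩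
      rw [uf_some h]
      rcases β with _ | _
      · right; simp [step]
      · left; simp [step]
  · intro x
    obtain ⟨k, hk, huniq⟩ := dd_none D (lev x) x
    refine ⟨k, ?_, ?_⟩
    · dsimp only at hk ⊢
      rw [H.U_apply]
      exact uf_none hk
    · intro k' hk'
      apply huniq
      rcases h : dd D (lev x) k' x with _ | l
      · rfl
      · rw [H.U_apply, uf_some h] at hk'
        exact absurd (add_left_cancel hk') (hstep l)
  · intro x l
    have hiff : ∀ p : K × Bool, (if p.2 then H.U p.1 x = x + lab l else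
        H.U p.1 (x + lab l) = x) ↔ dd D (p.2 == lev x) p.1 x = some (l, true) := by
      rintro ⟨k, _ | _⟩
      · simp only [Bool.false_eq_true, if_false]
        have h1 : H.U k (x + lab l) = x ↔ H.U k (x + lab l) = x + lab l + step lab (l, false) := by
          simp [step]
        rw [h1, hcase, lev_l]
        have h2 := dd_inv D (lev x) k (x + lab l) (l, false)
        rw [h2]
        have h3 : x + lab l + step lab (l, false) = x := by simp [step]
        have h4 : (false == lev x) = !lev x := by cases lev x <;> rfl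
        rw [h3, h4]
        rfl
      · simp only [if_true]
        have h1 : H.U k x = x + lab l ↔ H.U k x = x + step lab (l, true) := by
          simp [step]
        rw [h1, hcase]
        have h4 : (true == lev x) = lev x := by cases lev x <;> rfl
        rw [h4]
    obtain ⟨p, hp, huniq⟩ := D.dart x (l, true)
    have hp' : dd D p.2 p.1 x = some (l, true) := hp
    have hbb : ∀ β γ : Bool, ((β == γ) == γ) = β := by decide
    refine ⟨(p.1, p.2 == lev x), ?_, ?_⟩
    · refine (hiff (p.1, p.2 == lev x)).2 ?_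
      rw [hbb]
      exact hp'
    · intro p' h'
      have h1 := (hiff p').1 h'
      have h2 := huniq (p'.1, p'.2 == lev x) h1
      rw [← h2]
      refine Prod.ext rfl ?_
      exact (hbb _ _).symm

end Pool.Agent.Helper39.HD
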