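import Pool.Agent.Helper39.HD.Main
import Pool.Agent.Helper39.HD.Block

/-!
# Assembly for Cayley graphs
-/

namespace Pool.Agent.Helper39.HD

open Equiv

/-- the generators of the Cayley graph in terms of the blocks -/
def gen {Γ A : Type*} {L : A → Type*} (b : Γ) (a : A → Γ) (lab : ∀ α, L α → Γ) :
    Option (Σ α, Option (L α)) → Γ
  | none => b
  | some ⟨α, none⟩ => a α
  | some ⟨α, some l⟩ => lab α l

theorem circulant_connected {Γ : Type*} [AddCommGroup Γ] {S : Set Γ} (h0 : (0 : Γ) ∉ S)
    (hgen : AddSubgroup.closure S = ⊤) : (SimpleGraph.circulantGraph S).Connected := by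
  have key : ∀ g ∈ AddSubgroup.closure S, ∀ x : Γ,
      (SimpleGraph.circulantGraph S).Reachable x (x + g) := by
    intro g hg
    induction hg using AddSubgroup.closure_induction with
    | mem s hs =>
      intro x
      apply SimpleGraph.Adj.reachable
      rw [SimpleGraph.circulantGraph_adj]
      refine ⟨?_, Or.inr (by simpa using hs)⟩
      intro h
      have : s = 0 := by simpa using h.symm
      exact h0 (this ▸ hs)
    | zero => intro x; rw [add_zero]
    | add y z _ _ h1 h2 =>
      intro x
      rw [← add_assoc]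
      exact (h1 x).trans (h2 _)
    | neg y _ h1 =>
      intro x
      have := (h1 (x + -y)).symm
      rwa [neg_add_cancel_right] at this
  refine SimpleGraph.Connected.mk ?_
  intro x y
  have := key (y - x) (by rw [hgen]; trivial) x
  rwa [add_sub_cancel] at this

theorem addRight_zpow {Γ : Type*} [AddCommGroup Γ] (b : Γ) (j : ℤ) (x : Γ) :
    (Equiv.addRight b ^ j) x = x + j • b := by
  induction j using Int.induction_on with
  | zero => simp
  | succ n ih =>
    rw [← apply_zpow, ih, add_zsmul, one_zsmul, ← add_assoc]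
    rfl
  | pred n ih =>
    rw [sub_eq_neg_add, zpow_apply_add, ih, zpow_neg_one, Perm.inv_eq_iff_eq]
    change x + -(n : ℤ) • b = x + (-1 + -(n : ℤ)) • b + b
    rw [add_zsmul, neg_one_zsmul]
    abel

theorem cayley_assembly {Γ A : Type} [AddCommGroup Γ] [Countable Γ] [Countable A] [Nonempty A]
    {L : A → Type} {K : A → Type} [∀ α, Countable (K α)] (b : Γ) (a : A → Γ)
    (lab : ∀ α, L α → Γ) (hinj : Function.Injective (gen b a lab))
    (hneg : ∀ i j, gen b a lab i ≠ - gen b a lab j)
    (h0 : ∀ i, gen b a lab i ≠ 0)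
    (hgen : AddSubgroup.closure (Set.range (gen b a lab)) = ⊤)
    (D : ∀ α, ForestData Γ (L α) (K α) (fun l => Equiv.addRight (lab α l)))
    (lev : A → Γ → Bool) (lev_a : ∀ α x, lev α (x + a α) = !lev α x)
    (lev_b : ∀ α x, lev α (x + b) = lev α x)
    (lev_l : ∀ α x l, lev α (x + lab α l) = lev α x)
    (nx_a : ∀ α k x, (D α).nx k (x + a α) = (D α).nx k x)
    (pv_a : ∀ α k x, (D α).pv k (x + a α) = (D α).pv k x)
    (nx_b : ∀ α k x, (D α).nx k (x + b) = (D α).nx k x)
    (pv_b : ∀ α k x, (D α).pv k (x + b) = (D α).pv k x)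
    (hab : ∀ α (i j : ℤ), i • a α = j • b → i = 0) (hb0 : ∀ j : ℤ, j • b = 0 → j = 0) :
    HasHamiltonDecomposition (SimpleGraph.circulantGraph (Set.range (gen b a lab))) := by
  have hblock : ∀ α, ∃ U : K α → Perm Γ,
      (∀ k x, U k (x + b) = U k x + b) ∧
      (∀ k x, U k (x + (a α + a α)) = U k x + (a α + a α)) ∧
      (∀ k (i j : ℤ) x, (U k ^ i) (x + j • b) = x → i = 0 ∧ j = 0) ∧
      (∀ k x, ∃ i : ℤ, i ≠ 0 ∧ x + (a α + a α) = (U k ^ i) x) ∧
      (∀ k x, U k x = x + a α ∨ ∃ l, U k x = x + lab α l ∨ x = U k x + lab α l) ∧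
      (∀ x, ∃! k, U k x = x + a α) ∧
      (∀ x l, ∃! p : K α × Bool, if p.2 then U p.1 x = x + lab α l
        else U p.1 (x + lab α l) = x) := by
    intro α
    refine block_lemma (a α) b (lab α) ?_ ?_ ?_ ?_ (D α) (lev α) (lev_a α) (lev_b α) (lev_l α)
      (nx_a α) (pv_a α) (nx_b α) (pv_b α) (hab α) hb0
    · intro l l' h
      have := hinj (a₁ := some ⟨α, some l⟩) (a₂ := some ⟨α, some l'⟩) h
      simpa using this
    · intro l l'
      exact hneg (some ⟨α, some l⟩) (some ⟨α, some l'⟩)
    · intro l h
      have := hinj (a₁ := some ⟨α, some l⟩) (a₂ := some ⟨α, none⟩) h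
      simp at this
    · intro l
      exact hneg (some ⟨α, some l⟩) (some ⟨α, none⟩)
  choose U hUb hUa hUfree hUt hUcases hUnone hUdart using hblock
  set g := gen b a lab with hg
  -- decoding of edges
  have EI : ∀ {j j' : Option (Σ α, Option (L α))} {x x' : Γ}, s(x, x + g j) = s(x', x' + g j') →
      j = j' ∧ x = x' := by
    intro j j' x x' h
    rw [Sym2.eq_iff] at h
    rcases h with ⟨rfl, h⟩ | ⟨h1, h2⟩
    · exact ⟨hinj (add_left_cancel h), rfl⟩
    · exfalso
      apply hneg j j'
      rw [h1, add_assoc] at h2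
      have : g j' + g j = 0 := by simpa using h2
      exact eq_neg_of_add_eq_zero_right this
  let B : Perm Γ := Equiv.addRight b
  let U' : (Σ α, K α) → Perm Γ := fun c => U c.1 c.2
  -- every labelled edge is the edge of a generator
  have hdec : ∀ (d : Option (Σ α, K α)) (x : Γ), ∃ j y, edge (base B U') (d, x) = s(y, y + g j) ∧
      ((d = none ∧ j = none ∧ x = y) ∨ ∃ α k, d = some ⟨α, k⟩ ∧
        ((j = some ⟨α, none⟩ ∧ x = y ∧ U α k y = y + a α) ∨ ∃ l, j = some ⟨α, some l⟩ ∧
          ((x = y ∧ U α k y = y + lab α l) ∨ (x = y + lab α l ∧ U α k (y + lab α l) = y)))) := by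
    intro d x
    rcases d with _ | ⟨α, k⟩
    · exact ⟨none, x, rfl, Or.inl ⟨rfl, rfl, rfl⟩⟩
    · rcases hUcases α k x with h | ⟨l, h | h⟩
      · refine ⟨some ⟨α, none⟩, x, ?_, Or.inr ⟨α, k, rfl, Or.inl ⟨rfl, rfl, h⟩⟩⟩
        change s(x, U α k x) = s(x, x + a α)
        rw [h]
      · refine ⟨some ⟨α, some l⟩, x, ?_, Or.inr ⟨α, k, rfl, Or.inr ⟨l, rfl, Or.inl ⟨rfl, h⟩⟩⟩⟩
        change s(x, U α k x) = s(x, x + lab α l)
        rw [h]
      · refine ⟨some ⟨α, some l⟩, U α k x, ?_,
          Or.inr ⟨α, k, rfl, Or.inr ⟨l, rfl, Or.inr ⟨h, by rw [← h]⟩⟩⟩⟩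
        change s(x, U α k x) = s(U α k x, U α k x + lab α l)
        rw [← h, Sym2.eq_swap]
  have hedge_inj : Function.Injective (edge (base B U')) := by
    rintro ⟨d, x⟩ ⟨d', x'⟩ h
    obtain ⟨j, y, h1, h2⟩ := hdec d x
    obtain ⟨j', y', h1', h2'⟩ := hdec d' x'
    rw [h1, h1'] at h
    obtain ⟨rfl, rfl⟩ := EI h
    rcases h2 with ⟨rfl, rfl, rfl⟩ | ⟨α, k, rfl, h2⟩
    · rcases h2' with ⟨rfl, -, rfl⟩ | ⟨α', k', rfl, ⟨h3, -⟩ | ⟨l, h3, -⟩⟩
      · rfl
      · simp at h3
      · simp at h3
    · rcases h2' with ⟨rfl, rfl, rfl⟩ | ⟨α', k', rfl, h2'⟩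
      · rcases h2 with ⟨h3, -⟩ | ⟨l, h3, -⟩
        · simp at h3
        · simp at h3
      · rcases h2 with ⟨rfl, rfl, h4⟩ | ⟨l, rfl, h4⟩
        · rcases h2' with ⟨h3, rfl, h4'⟩ | ⟨l', h3, h4'⟩
          · simp only [Option.some.injEq, Sigma.mk.injEq] at h3
            obtain ⟨rfl, -⟩ := h3
            have := (hUnone _ _).unique h4 h4'
            rw [this]
          · exfalso
            simp only [Option.some.injEq, Sigma.mk.injEq] at h3
            obtain ⟨rfl, h5⟩ := h3
            simp at h5
        · rcases h2' with ⟨h3, rfl, h4'⟩ | ⟨l', h3, h4'⟩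
          · exfalso
            simp only [Option.some.injEq, Sigma.mk.injEq] at h3
            obtain ⟨rfl, h5⟩ := h3
            simp at h5
          · simp only [Option.some.injEq, Sigma.mk.injEq] at h3
            obtain ⟨rfl, h5⟩ := h3
            have h5 : l = l' := by simpa using h5
            subst h5
            have hu := hUdart α y l
            rcases h4 with ⟨rfl, h6⟩ | ⟨rfl, h6⟩ <;> rcases h4' with ⟨rfl, h6'⟩ | ⟨rfl, h6'⟩
            · have := hu.unique (y₁ := (k, true)) (y₂ := (k', true)) (by simpa using h6)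
                (by simpa using h6')
              simp only [Prod.mk.injEq, and_true] at this
              rw [this]
            · have := hu.unique (y₁ := (k, true)) (y₂ := (k', false)) (by simpa using h6)
                (by simpa using h6')
              simp at this
            · have := hu.unique (y₁ := (k, false)) (y₂ := (k', true)) (by simpa using h6)
                (by simpa using h6')
              simp at this
            · have := hu.unique (y₁ := (k, false)) (y₂ := (k', false)) (by simpa using h6)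
                (by simpa using h6')
              simp only [Prod.mk.injEq, and_true] at this
              rw [this]
  have hedge_range : Set.range (edge (base B U')) =
      (SimpleGraph.circulantGraph (Set.range g)).edgeSet := by
    apply Set.Subset.antisymm
    · rintro e ⟨⟨d, x⟩, rfl⟩
      obtain ⟨j, y, h1, -⟩ := hdec d x
      rw [h1, SimpleGraph.mem_edgeSet, SimpleGraph.circulantGraph_adj]
      refine ⟨?_, Or.inr ⟨j, by simp⟩⟩
      intro h
      exact h0 j (by simpa using h.symm)
    · intro e he
      induction e using Sym2.ind with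
      | _ x y =>
      rw [SimpleGraph.mem_edgeSet, SimpleGraph.circulantGraph_adj] at he
      have key : ∀ j z, s(z, z + g j) ∈ Set.range (edge (base B U')) := by
        intro j z
        rcases j with _ | ⟨α, _ | l⟩
        · exact ⟨(none, z), rfl⟩
        · obtain ⟨k, hk, -⟩ := hUnone α z
          refine ⟨(some ⟨α, k⟩, z), ?_⟩
          change s(z, U α k z) = s(z, z + a α)
          rw [hk]
        · obtain ⟨⟨k, β⟩, hk, -⟩ := hUdart α z l
          cases β
          · refine ⟨(some ⟨α, k⟩, z + lab α l), ?_⟩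
            change s(z + lab α l, U α k (z + lab α l)) = s(z, z + lab α l)
            have hk : U α k (z + lab α l) = z := by simpa using hk
            rw [hk, Sym2.eq_swap]
          · refine ⟨(some ⟨α, k⟩, z), ?_⟩
            change s(z, U α k z) = s(z, z + lab α l)
            have hk : U α k z = z + lab α l := by simpa using hk
            rw [hk]
      rcases he.2 with ⟨j, hj⟩ | ⟨j, hj⟩
      · have := key j y
        rw [hj, add_sub_cancel, Sym2.eq_swap] at this
        exact this
      · have := key j x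
        rw [hj, add_sub_cancel] at this
        exact this
  have hne : Nonempty (Σ α, K α) := by
    obtain ⟨α⟩ := ‹Nonempty A›
    obtain ⟨k, -⟩ := hUnone α 0
    exact ⟨⟨α, k⟩⟩
  let S : Setup Γ (Σ α, K α) (SimpleGraph.circulantGraph (Set.range g)) :=
    { b := B
      U := U'
      comm := by
        intro c
        ext x
        exact hUb c.1 c.2 x
      free := by
        intro c i j x h
        rw [addRight_zpow] at h
        exact hUfree c.1 c.2 i j x h
      inj := hedge_inj
      range := hedge_range
      t := fun c => Equiv.addRight (a c.1 + a c.1)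
      tU := by
        intro c
        ext x
        exact (hUa c.1 c.2 x).symm
      tb := by
        intro c
        ext x
        change x + b + (a c.1 + a c.1) = x + (a c.1 + a c.1) + b
        abel
      tadj := by
        intro c x y h
        exact SimpleGraph.circulantGraph_adj_translate.2 h
      tpow := fun c x => hUt c.1 c.2 x }
  obtain ⟨f, hf⟩ := theoremD (circulant_connected (by rintro ⟨j, hj⟩; exact h0 j hj) hgen) S
  exact ⟨Option (Σ α, K α), f, hf⟩

end Pool.Agent.Helper39.HD
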