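import Mathlib

/-!
# Basic definitions for the double ray decomposition theorem
-/

namespace Pool.Agent.Helper39.HD

open Equiv

/-- The graph `G` has a Hamilton decomposition: its edge set is partitioned into spanning double
rays `f i`, that is every `f i` is a bijection from `ℤ` to the vertex set such that consecutive
vertices are adjacent, and every edge of `G` is `{f i n, f i (n + 1)}` for exactly one pair
`(i, n)`. -/
def HasHamiltonDecomposition {V : Type*} (G : SimpleGraph V) : Prop :=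
  ∃ (ι : Type) (f : ι → ℤ → V), (∀ i, Function.Bijective (f i)) ∧
    (∀ i n, G.Adj (f i n) (f i (n + 1))) ∧
    ∀ e ∈ G.edgeSet, ∃! p : ι × ℤ, s(f p.1 p.2, f p.1 (p.2 + 1)) = e

variable {V D : Type*}

/-- all orbits of `f` are infinite -/
def Aper (f : Perm V) : Prop := ∀ (x : V) (n : ℤ), (f ^ n) x = x → n = 0

/-- the edge labelled by a colour and a start vertex -/
def edge (ν : D → Perm V) (p : D × V) : Sym2 V := s(p.2, ν p.1 p.2)

/-- `ν'` agrees with `ν` on `B`, forwards and backwards, in every colour -/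
def AgreeOn (B : Set V) (ν ν' : D → Perm V) : Prop :=
  ∀ d, ∀ x ∈ B, ν' d x = ν d x ∧ (ν' d)⁻¹ x = (ν d)⁻¹ x

/-- good states: decompositions of `G` into double rays and which differ from `ν0` only at
finitely many places -/
structure Good (G : SimpleGraph V) (ν0 ν : D → Perm V) : Prop where
  aper : ∀ d, Aper (ν d)
  inj : Function.Injective (edge ν)
  range : Set.range (edge ν) = G.edgeSet
  fin : ∃ W : Set V, W.Finite ∧ AgreeOn Wᶜ ν0 ν

/-- forward tail: from some point on, the forward `f`-orbit of `u` follows the forward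
`f0`-orbit of `y` -/
def FT (f f0 : Perm V) (u y : V) : Prop := ∃ i j : ℤ, ∀ n : ℕ, (f ^ (i + n)) u = (f0 ^ (j + n)) y

/-- backward tail -/
def BT (f f0 : Perm V) (u y : V) : Prop := FT f⁻¹ f0⁻¹ u y

/-- exchange condition for the switch of the colours `d` (at `p`, `q`) and `d'` (at `p'`, `q'`) -/
structure Exch (ν : D → Perm V) (d d' : D) (p q p' q' : V) : Prop where
  h1 : s(p, ν d q) = s(p', ν d' p')
  h2 : s(q, ν d p) = s(q', ν d' q')
  h3 : (s(p', ν d' q') = s(p, ν d p) ∧ s(q', ν d' p') = s(q, ν d q)) ∨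
    (s(p', ν d' q') = s(q, ν d q) ∧ s(q', ν d' p') = s(p, ν d p))

open Classical in
/-- the switched state -/
noncomputable def sw (ν : D → Perm V) (d d' : D) (p q p' q' : V) : D → Perm V :=
  Function.update (Function.update ν d (ν d * swap p q)) d' (ν d' * swap p' q')

/-- the orbits of `y` and `y'` in the standard state can be joined arbitrarily far away, forward
tail of `y` with backward tail of `y'` -/
def AdjFar (ν0 : D → Perm V) (d : D) (y y' : V) : Prop :=
  ∀ W : Set V, W.Finite → ∀ N : ℕ, ∃ i j : ℕ, N ≤ i ∧ N ≤ j ∧ ∃ d', d' ≠ d ∧ ∃ p' q' : V,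
    Exch ν0 d d' ((ν0 d ^ (i : ℤ)) y) ((ν0 d ^ (-(j : ℤ))) y') p' q' ∧
    ¬ (ν0 d').SameCycle p' q' ∧ (∀ k : ℤ, (ν0 d' ^ k) p' ∉ W) ∧ (∀ k : ℤ, (ν0 d' ^ k) q' ∉ W)

/-- `y, y'` can be merged: whenever `u` has forward tail `y` and `v` has backward tail `y'`
(colour `d`) there is a good state in which they are on the same double ray; forward tails outside
`P0` and backward tails outside `P1` are preserved. -/
def Mer (G : SimpleGraph V) (ν0 : D → Perm V) (d : D) (P0 P1 : V → Prop) (y y' : V) : Prop :=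
  ∀ ν, Good G ν0 ν → ∀ B : Set V, B.Finite → ∀ u v, FT (ν d) (ν0 d) u y → BT (ν d) (ν0 d) v y' →
    ∃ ν', Good G ν0 ν' ∧ AgreeOn B ν ν' ∧ (ν' d).SameCycle u v ∧
      ∀ t ∈ B, ∀ z, (¬ P0 z → FT (ν d) (ν0 d) t z → FT (ν' d) (ν0 d) t z) ∧
        (¬ P1 z → BT (ν d) (ν0 d) t z → BT (ν' d) (ν0 d) t z)

end Pool.Agent.Helper39.HD
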