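import Mathlib

/-!
# Group theory: choice of the direction `b`
-/

set_option autoImplicit false

namespace Pool.Agent.Helper39.HD

/-- elements of infinite order -/
def Sinf {Γ : Type*} [AddCommGroup Γ] (S : Set Γ) : Set Γ := {s ∈ S | ¬ IsOfFinAddOrder s}

/-- elements of finite order -/
def Sfin {Γ : Type*} [AddCommGroup Γ] (S : Set Γ) : Set Γ := {s ∈ S | IsOfFinAddOrder s}

/-- parallel elements: they have a common non-zero multiple (with non-zero coefficients) -/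
def Par {Γ : Type*} [AddCommGroup Γ] (x y : Γ) : Prop :=
  ∃ i j : ℤ, i ≠ 0 ∧ j ≠ 0 ∧ i • x = j • y

section
variable {Γ : Type*} [AddCommGroup Γ]

theorem Par.refl (x : Γ) : Par x x := ⟨1, 1, one_ne_zero, one_ne_zero, rfl⟩

theorem Par.symm {x y : Γ} (h : Par x y) : Par y x := by
  obtain ⟨i, j, hi, hj, h⟩ := h
  exact ⟨j, i, hj, hi, h.symm⟩

theorem Par.trans {x y z : Γ} (h : Par x y) (h' : Par y z) : Par x z := by
  obtain ⟨i, j, hi, hj, h⟩ := h
  obtain ⟨k, l, hk, hl, h'⟩ := h'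
  refine ⟨k * i, j * l, mul_ne_zero hk hi, mul_ne_zero hj hl, ?_⟩
  rw [mul_smul, h, smul_smul, mul_comm k j, mul_smul, h', smul_smul]

theorem Par.zsmul (x : Γ) {j : ℤ} (hj : j ≠ 0) : Par (j • x) x :=
  ⟨1, j, one_ne_zero, hj, one_smul _ _⟩

theorem zsmul_ne_zero_of_inf {x : Γ} (hx : ¬ IsOfFinAddOrder x) {j : ℤ} (hj : j ≠ 0) :
    j • x ≠ 0 := fun h => hx (isOfFinAddOrder_iff_zsmul_eq_zero.2 ⟨j, hj, h⟩)

/-- the elements with a nonzero multiple in `ℤ a` -/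
def near (a : Γ) : AddSubgroup Γ where
  carrier := {g | ∃ N m : ℤ, N ≠ 0 ∧ N • g = m • a}
  zero_mem' := ⟨1, 0, one_ne_zero, by simp⟩
  add_mem' := by
    rintro g g' ⟨N, m, hN, h⟩ ⟨N', m', hN', h'⟩
    refine ⟨N * N', m * N' + m' * N, mul_ne_zero hN hN', ?_⟩
    rw [smul_add, add_smul, mul_comm N N', mul_smul, h, mul_comm N' N, mul_smul, h', smul_smul,
      smul_smul, mul_comm N' m, mul_comm N m']
  neg_mem' := by
    rintro g ⟨N, m, hN, h⟩
    exact ⟨N, -m, hN, by rw [smul_neg, h, neg_smul]⟩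

theorem mem_near {a g : Γ} : g ∈ near a ↔ ∃ N m : ℤ, N ≠ 0 ∧ N • g = m • a := Iff.rfl

theorem near_ne_top (hrank : ∃ x y : Γ, ∀ i j : ℤ, i • x = j • y → i = 0 ∧ j = 0) (a : Γ) :
    near a ≠ ⊤ := by
  intro htop
  obtain ⟨x, y, hxy⟩ := hrank
  obtain ⟨N, m, hN, h⟩ := mem_near.1 (htop ▸ AddSubgroup.mem_top x)
  obtain ⟨N', m', hN', h'⟩ := mem_near.1 (htop ▸ AddSubgroup.mem_top y)
  have h1 : (m' * N) • x = (m * N') • y := by
    rw [mul_smul, h, mul_smul, h', smul_smul, smul_smul, mul_comm]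
  have h2 := (hxy _ _ h1).1
  have hm' : m' = 0 := (mul_eq_zero.1 h2).resolve_right hN
  rw [hm', zero_smul] at h'
  have h3 : (0 : ℤ) • x = N' • y := by rw [zero_smul, h']
  exact hN' (hxy _ _ h3).2

theorem exists_not_near (S : Set Γ) (hgen : AddSubgroup.closure S = ⊤)
    (hrank : ∃ x y : Γ, ∀ i j : ℤ, i • x = j • y → i = 0 ∧ j = 0) (a : Γ) :
    ∃ s ∈ Sinf S, ¬ Par s a := by
  by_contra hcon
  push Not at hcon
  refine near_ne_top hrank a (top_le_iff.1 ?_)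
  rw [← hgen, AddSubgroup.closure_le]
  intro s hs
  by_cases hf : IsOfFinAddOrder s
  · obtain ⟨n, hn, h⟩ := isOfFinAddOrder_iff_zsmul_eq_zero.1 hf
    exact ⟨n, 0, hn, by rw [h, zero_smul]⟩
  · obtain ⟨i, j, hi, _, h⟩ := hcon s ⟨hs, hf⟩
    exact ⟨i, j, hi, h⟩

theorem group_theory (S : Set Γ) (hfin : S.Finite)
    (hS : ∀ s ∈ S, -s ∉ S) (hgen : AddSubgroup.closure S = ⊤)
    (hrank : ∃ x y : Γ, ∀ i j : ℤ, i • x = j • y → i = 0 ∧ j = 0) :
    ∃ b ∈ Sinf S, (∀ s ∈ S, s ≠ b → ∀ j : ℤ, s ≠ j • b) ∧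
      {s ∈ Sinf S | s ≠ b ∧ Par s b}.ncard + 1 ≤ {s ∈ Sinf S | ¬ Par s b}.ncard := by
  have hIfin : (Sinf S).Finite := hfin.subset (Set.sep_subset _ _)
  have hIne : (Sinf S).Nonempty := by
    obtain ⟨s, hs, _⟩ := exists_not_near S hgen hrank 0
    exact ⟨s, hs⟩
  have h0 : (0 : Γ) ∉ S := fun h => hS 0 h (by rwa [neg_zero])
  obtain ⟨a0, ha0, hmin⟩ := Set.exists_min_image (Sinf S) (fun a => {s ∈ Sinf S | Par s a}.ncard)
    hIfin hIne
  let K : Set Γ := {s ∈ Sinf S | Par s a0}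
  have hKfin : K.Finite := hIfin.subset (Set.sep_subset _ _)
  have hKne : K.Nonempty := ⟨a0, ha0, Par.refl a0⟩
  obtain ⟨b, hb⟩ := Set.Finite.exists_minimalFor (fun s : Γ => AddSubgroup.zmultiples s) K hKfin hKne
  have hbK : b ∈ K := hb.1
  have hbI : b ∈ Sinf S := hbK.1
  refine ⟨b, hbI, ?_, ?_⟩
  · intro s hs hsb j hj
    have hj0 : j ≠ 0 := by
      rintro rfl
      rw [zero_smul] at hj
      exact h0 (hj ▸ hs)
    have hsI : s ∈ Sinf S := by
      refine ⟨hs, fun hf => ?_⟩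
      obtain ⟨n, hn, h⟩ := isOfFinAddOrder_iff_zsmul_eq_zero.1 hf
      rw [hj, smul_smul] at h
      exact zsmul_ne_zero_of_inf hbI.2 (mul_ne_zero hn hj0) h
    have hsK : s ∈ K := by
      refine ⟨hsI, ?_⟩
      rw [hj]
      exact (Par.zsmul b hj0).trans hbK.2
    have hle : AddSubgroup.zmultiples s ≤ AddSubgroup.zmultiples b := by
      rw [AddSubgroup.zmultiples_le]
      exact AddSubgroup.mem_zmultiples_iff.2 ⟨j, hj.symm⟩
    have hge := hb.2 hsK hle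
    have hbs : b ∈ AddSubgroup.zmultiples s := hge (AddSubgroup.mem_zmultiples b)
    obtain ⟨i, hi⟩ := AddSubgroup.mem_zmultiples_iff.1 hbs
    have h1 : (i * j - 1) • b = 0 := by
      rw [sub_smul, mul_smul, ← hj, hi, one_smul, sub_self]
    have h2 : i * j - 1 = 0 := by
      by_contra hne
      exact zsmul_ne_zero_of_inf hbI.2 hne h1
    have h3 : j = 1 ∨ j = -1 := Int.isUnit_iff.1 (IsUnit.of_mul_eq_one i (by rw [mul_comm]; omega))
    rcases h3 with rfl | rfl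
    · rw [one_smul] at hj
      exact hsb hj
    · rw [neg_smul, one_smul] at hj
      exact hS b hbI.1 (hj ▸ hs)
  · obtain ⟨s1, hs1, hs1'⟩ := exists_not_near S hgen hrank b
    have e1 : {s ∈ Sinf S | s ≠ b ∧ Par s b} = K \ {b} := by
      ext s
      constructor
      · rintro ⟨h1, h2, h3⟩
        exact ⟨⟨h1, h3.trans hbK.2⟩, h2⟩
      · rintro ⟨⟨h1, h2⟩, h3⟩
        exact ⟨h1, h3, h2.trans hbK.2.symm⟩
    rw [e1, Set.ncard_sdiff_singleton_add_one hbK hKfin]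
    refine (hmin s1 hs1).trans ?_
    refine Set.ncard_le_ncard ?_ (hIfin.subset (Set.sep_subset _ _))
    rintro s ⟨h1, h2⟩
    exact ⟨h1, fun h3 => hs1' (h2.symm.trans h3)⟩

end

end Pool.Agent.Helper39.HD
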