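import Pool.Agent.Helper39.HD.Forest

/-!
# Forest data for at most two generators
-/

set_option autoImplicit false

namespace Pool.Agent.Helper39.HD

open Equiv

namespace Two

section Absorb

set_option linter.unusedSectionVars false

variable {T L : Type*} [AddCommGroup T] (t : L → T) (X : L → Set T)

open Classical in
/-- next arcs -/
noncomputable def aNx : Option L → T → Option (L × Bool)
  | some l, x => if x ∈ X l then none else some (l, true)
  | none, x => if h : ∃ l, x ∈ X l then some (h.choose, true) else none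

open Classical in
/-- previous arcs -/
noncomputable def aPv : Option L → T → Option (L × Bool)
  | some l, x => if x - t l ∈ X l then none else some (l, false)
  | none, x => if h : ∃ l, x - t l ∈ X l then some (h.choose, false) else none

lemma aNx_some_iff (l l' : L) (β : Bool) (x : T) :
    aNx X (some l) x = some (l', β) ↔ x ∉ X l ∧ l' = l ∧ β = true := by
  unfold aNx
  by_cases h : x ∈ X l
  · simp [h]
  · simp only [h, if_false, Option.some.injEq, Prod.mk.injEq, not_false_iff, true_and]
    constructor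
    · rintro ⟨h1, h2⟩; exact ⟨h1.symm, h2.symm⟩
    · rintro ⟨h1, h2⟩; exact ⟨h1.symm, h2.symm⟩

lemma aNx_some_none (l : L) (x : T) : aNx X (some l) x = none ↔ x ∈ X l := by
  unfold aNx
  by_cases h : x ∈ X l <;> simp [h]

lemma aPv_some_iff (l l' : L) (β : Bool) (x : T) :
    aPv t X (some l) x = some (l', β) ↔ x - t l ∉ X l ∧ l' = l ∧ β = false := by
  unfold aPv
  by_cases h : x - t l ∈ X l
  · simp [h]
  · simp only [h, if_false, Option.some.injEq, Prod.mk.injEq, not_false_iff, true_and]
    constructor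
    · rintro ⟨h1, h2⟩; exact ⟨h1.symm, h2.symm⟩
    · rintro ⟨h1, h2⟩; exact ⟨h1.symm, h2.symm⟩

lemma aPv_some_none (l : L) (x : T) : aPv t X (some l) x = none ↔ x - t l ∈ X l := by
  unfold aPv
  by_cases h : x - t l ∈ X l <;> simp [h]

lemma aNx_none_iff (h2 : ∀ l l' x, x ∈ X l → x ∈ X l' → l = l') (l' : L) (β : Bool) (x : T) :
    aNx X none x = some (l', β) ↔ x ∈ X l' ∧ β = true := by
  unfold aNx
  by_cases h : ∃ l, x ∈ X l
  · simp only [h, dif_pos, Option.some.injEq, Prod.mk.injEq]
    have h3 := h.choose_spec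
    constructor
    · rintro ⟨h4, h5⟩
      exact ⟨h4 ▸ h3, h5.symm⟩
    · rintro ⟨h4, h5⟩
      exact ⟨h2 _ _ x h3 h4, h5.symm⟩
  · simp only [h, dif_neg, not_false_iff]
    constructor
    · intro h'; simp at h'
    · rintro ⟨h4, _⟩; exact absurd ⟨l', h4⟩ h

lemma aNx_none_none (x : T) : aNx X none x = none ↔ ∀ l, x ∉ X l := by
  unfold aNx
  by_cases h : ∃ l, x ∈ X l
  · simp only [h, dif_pos]
    constructor
    · intro h'; simp at h'
    · intro h'; obtain ⟨l, hl⟩ := h; exact absurd hl (h' l)
  · simp only [h, dif_neg, not_false_iff, true_iff]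
    exact fun l hl => h ⟨l, hl⟩

lemma aPv_none_iff (h2 : ∀ l l' x, x - t l ∈ X l → x - t l' ∈ X l' → l = l') (l' : L) (β : Bool) (x : T) :
    aPv t X none x = some (l', β) ↔ x - t l' ∈ X l' ∧ β = false := by
  unfold aPv
  by_cases h : ∃ l, x - t l ∈ X l
  · simp only [h, dif_pos, Option.some.injEq, Prod.mk.injEq]
    have h3 := h.choose_spec
    constructor
    · rintro ⟨h4, h5⟩
      exact ⟨h4 ▸ h3, h5.symm⟩
    · rintro ⟨h4, h5⟩
      exact ⟨h2 _ _ x h3 h4, h5.symm⟩
  · simp only [h, dif_neg, not_false_iff]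
    constructor
    · intro h'; simp at h'
    · rintro ⟨h4, _⟩; exact absurd ⟨l', h4⟩ h

lemma aPv_none_none (x : T) : aPv t X none x = none ↔ ∀ l, x - t l ∉ X l := by
  unfold aPv
  by_cases h : ∃ l, x - t l ∈ X l
  · simp only [h, dif_pos]
    constructor
    · intro h'; simp at h'
    · intro h'; obtain ⟨l, hl⟩ := h; exact absurd hl (h' l)
  · simp only [h, dif_neg, not_false_iff, true_iff]
    exact fun l hl => h ⟨l, hl⟩

lemma stp_true (act : L → Perm T) (l : L) (x : T) : stp act (l, true) x = act l x := rfl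

lemma stp_false (act : L → Perm T) (l : L) (x : T) : stp act (l, false) x = (act l)⁻¹ x := rfl

lemma stp_add_true (l : L) (x : T) : stp (fun l => Equiv.addRight (t l)) (l, true) x = x + t l := rfl

lemma stp_add_false (l : L) (x : T) : stp (fun l => Equiv.addRight (t l)) (l, false) x = x - t l := by
  rw [stp_false, Perm.inv_eq_iff_eq]
  exact (sub_add_cancel x (t l)).symm

/-- absorption: a general construction of forest data -/
theorem absorb [Finite T]
    (h1 : ∀ l x, ∃ n : ℕ, x + n • t l ∈ X l)
    (h2 : ∀ l l' x, x ∈ X l → x ∈ X l' → l = l')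
    (h3 : ∀ l l' x, x - t l ∈ X l → x - t l' ∈ X l' → l = l')
    (rk : T → ℕ) (h4 : ∀ l x, x ∈ X l → rk (x + t l) < rk x) :
    Nonempty (ForestData T L (Option L) (fun l => Equiv.addRight (t l))) := by
  classical
  have := Fintype.ofFinite T
  -- backwards reachability
  have h1' : ∀ l x, ∃ n : ℕ, x - (n + 1) • t l ∈ X l := by
    intro l x
    obtain ⟨n, hn⟩ := h1 l x
    have hpos : 0 < addOrderOf (t l) := addOrderOf_pos (t l)
    obtain ⟨m, hm⟩ : ∃ m, m + 1 + n = (n + 1) * addOrderOf (t l) := by
      refine ⟨(n + 1) * addOrderOf (t l) - (n + 1), ?_⟩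
      have : n + 1 ≤ (n + 1) * addOrderOf (t l) := Nat.le_mul_of_pos_right _ hpos
      omega
    refine ⟨m, ?_⟩
    have e : x - (m + 1) • t l = x + n • t l := by
      have e2 : (m + 1) • t l + n • t l = 0 := by
        rw [← add_nsmul, hm, mul_nsmul', addOrderOf_nsmul_eq_zero, nsmul_zero]
      rw [sub_eq_iff_eq_add, add_assoc, add_comm (n • t l), e2, add_zero]
    rw [e]
    exact hn
  obtain ⟨M, hM⟩ : ∃ M, ∀ x, rk x ≤ M :=
    ⟨Finset.univ.sup rk, fun x => Finset.le_sup (f := rk) (Finset.mem_univ x)⟩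
  refine ⟨⟨aNx X, aPv t X, ?_, ?_, ?_, ?_, ?_, ?_⟩⟩
  · intro k x l β
    cases k with
    | some l0 =>
      rw [aNx_some_iff, aPv_some_iff]
      cases β with
      | true =>
        rw [stp_add_true]
        constructor
        · rintro ⟨a, b, c⟩
          subst b
          exact ⟨by rwa [add_sub_cancel_right], rfl, rfl⟩
        · rintro ⟨a, b, c⟩
          subst b
          rw [add_sub_cancel_right] at a
          exact ⟨a, rfl, rfl⟩
      | false => simp
    | none =>
      rw [aNx_none_iff X h2, aPv_none_iff t X h3]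
      cases β with
      | true => rw [stp_add_true, add_sub_cancel_right]; simp
      | false => simp
  · rintro x ⟨l, β⟩
    cases β with
    | true =>
      by_cases hx : x ∈ X l
      · refine ⟨(none, true), ?_, ?_⟩
        · show aNx X none x = some (l, true)
          rw [aNx_none_iff X h2]
          exact ⟨hx, rfl⟩
        · rintro ⟨k, c⟩ hk
          cases c with
          | true =>
            replace hk : aNx X k x = some (l, true) := hk
            cases k with
            | none => rfl
            | some l' =>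
              rw [aNx_some_iff] at hk
              obtain ⟨a, b, _⟩ := hk
              subst b
              exact absurd hx a
          | false =>
            replace hk : aPv t X k x = some (l, true) := hk
            cases k with
            | none => rw [aPv_none_iff t X h3] at hk; simp at hk
            | some l' => rw [aPv_some_iff] at hk; simp at hk
      · refine ⟨(some l, true), ?_, ?_⟩
        · show aNx X (some l) x = some (l, true)
          rw [aNx_some_iff]
          exact ⟨hx, rfl, rfl⟩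
        · rintro ⟨k, c⟩ hk
          cases c with
          | true =>
            replace hk : aNx X k x = some (l, true) := hk
            cases k with
            | none =>
              rw [aNx_none_iff X h2] at hk
              exact absurd hk.1 hx
            | some l' =>
              rw [aNx_some_iff] at hk
              obtain ⟨a, b, _⟩ := hk
              rw [b]
          | false =>
            replace hk : aPv t X k x = some (l, true) := hk
            cases k with
            | none => rw [aPv_none_iff t X h3] at hk; simp at hk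
            | some l' => rw [aPv_some_iff] at hk; simp at hk
    | false =>
      by_cases hx : x - t l ∈ X l
      · refine ⟨(none, false), ?_, ?_⟩
        · show aPv t X none x = some (l, false)
          rw [aPv_none_iff t X h3]
          exact ⟨hx, rfl⟩
        · rintro ⟨k, c⟩ hk
          cases c with
          | false =>
            replace hk : aPv t X k x = some (l, false) := hk
            cases k with
            | none => rfl
            | some l' =>
              rw [aPv_some_iff] at hk
              obtain ⟨a, b, _⟩ := hk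
              subst b
              exact absurd hx a
          | true =>
            replace hk : aNx X k x = some (l, false) := hk
            cases k with
            | none => rw [aNx_none_iff X h2] at hk; simp at hk
            | some l' => rw [aNx_some_iff] at hk; simp at hk
      · refine ⟨(some l, false), ?_, ?_⟩
        · show aPv t X (some l) x = some (l, false)
          rw [aPv_some_iff]
          exact ⟨hx, rfl, rfl⟩
        · rintro ⟨k, c⟩ hk
          cases c with
          | false =>
            replace hk : aPv t X k x = some (l, false) := hk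
            cases k with
            | none =>
              rw [aPv_none_iff t X h3] at hk
              exact absurd hk.1 hx
            | some l' =>
              rw [aPv_some_iff] at hk
              obtain ⟨a, b, _⟩ := hk
              rw [b]
          | true =>
            replace hk : aNx X k x = some (l, false) := hk
            cases k with
            | none => rw [aNx_none_iff X h2] at hk; simp at hk
            | some l' => rw [aNx_some_iff] at hk; simp at hk
  · intro x
    by_cases hx : ∃ l, x ∈ X l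
    · obtain ⟨l, hl⟩ := hx
      refine ⟨some l, (aNx_some_none X l x).2 hl, ?_⟩
      intro k hk
      cases k with
      | none => rw [aNx_none_none] at hk; exact absurd hl (hk l)
      | some l' => rw [aNx_some_none] at hk; rw [h2 l' l x hk hl]
    · refine ⟨none, (aNx_none_none X x).2 fun l hl => hx ⟨l, hl⟩, ?_⟩
      intro k hk
      cases k with
      | none => rfl
      | some l' => rw [aNx_some_none] at hk; exact absurd ⟨l', hk⟩ hx
  · intro x
    by_cases hx : ∃ l, x - t l ∈ X l
    · obtain ⟨l, hl⟩ := hx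
      refine ⟨some l, (aPv_some_none t X l x).2 hl, ?_⟩
      intro k hk
      cases k with
      | none => rw [aPv_none_none] at hk; exact absurd hl (hk l)
      | some l' => rw [aPv_some_none] at hk; rw [h3 l' l x hk hl]
    · refine ⟨none, (aPv_none_none t X x).2 fun l hl => hx ⟨l, hl⟩, ?_⟩
      intro k hk
      cases k with
      | none => rfl
      | some l' => rw [aPv_some_none] at hk; exact absurd ⟨l', hk⟩ hx
  · intro k
    cases k with
    | some l =>
      refine Subrelation.wf (r := InvImage (· < ·) fun x => Nat.find (h1 l x)) ?_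
        (InvImage.wf _ wellFounded_lt)
      rintro y x ⟨⟨l', β⟩, hl, hy⟩
      rw [aNx_some_iff] at hl
      obtain ⟨a, b, c⟩ := hl
      subst b; subst c
      rw [stp_add_true] at hy
      show Nat.find (h1 l' y) < Nat.find (h1 l' x)
      have h5 := Nat.find_spec (h1 l' x)
      cases hn : Nat.find (h1 l' x) with
      | zero =>
        rw [hn] at h5
        simp only [zero_nsmul, add_zero] at h5
        exact absurd h5 a
      | succ n =>
        rw [hn] at h5
        refine lt_of_le_of_lt (Nat.find_min' _ ?_) (Nat.lt_succ_self n)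
        rw [hy, add_assoc, ← succ_nsmul']
        exact h5
    | none =>
      refine Subrelation.wf (r := InvImage (· < ·) rk) ?_ (InvImage.wf _ wellFounded_lt)
      rintro y x ⟨⟨l', β⟩, hl, hy⟩
      rw [aNx_none_iff X h2] at hl
      obtain ⟨a, c⟩ := hl
      subst c
      rw [stp_add_true] at hy
      rw [hy]
      exact h4 l' x a
  · intro k
    cases k with
    | some l =>
      refine Subrelation.wf (r := InvImage (· < ·) fun x => Nat.find (h1' l x)) ?_
        (InvImage.wf _ wellFounded_lt)
      rintro y x ⟨⟨l', β⟩, hl, hy⟩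
      rw [aPv_some_iff] at hl
      obtain ⟨a, b, c⟩ := hl
      subst b; subst c
      rw [stp_add_false] at hy
      show Nat.find (h1' l' y) < Nat.find (h1' l' x)
      have h5 := Nat.find_spec (h1' l' x)
      cases hn : Nat.find (h1' l' x) with
      | zero =>
        rw [hn] at h5
        simp only [zero_add, one_nsmul] at h5
        exact absurd h5 a
      | succ n =>
        rw [hn] at h5
        refine lt_of_le_of_lt (Nat.find_min' _ ?_) (Nat.lt_succ_self n)
        rw [hy, sub_sub, ← succ_nsmul']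
        exact h5
    | none =>
      refine Subrelation.wf (r := InvImage (· < ·) fun x => M - rk x) ?_ (InvImage.wf _ wellFounded_lt)
      rintro y x ⟨⟨l', β⟩, hl, hy⟩
      rw [aPv_none_iff t X h3] at hl
      obtain ⟨a, c⟩ := hl
      subst c
      rw [stp_add_false] at hy
      have h5 := h4 l' (x - t l') a
      rw [sub_add_cancel] at h5
      rw [← hy] at h5
      have h6 := hM y
      show M - rk y < M - rk x
      omega

end Absorb

/-- reindexing the forests -/
theorem reindexK {X L K K' : Type*} {act : L → Perm X} (D : ForestData X L K act) (e : K ≃ K') :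
    Nonempty (ForestData X L K' act) := by
  refine ⟨⟨fun k => D.nx (e.symm k), fun k => D.pv (e.symm k), fun k => D.inv _, ?_, ?_, ?_,
    fun k => D.wf_nx _, fun k => D.wf_pv _⟩⟩
  · intro x l
    obtain ⟨p, hp, hu⟩ := D.dart x l
    refine ⟨(e p.1, p.2), ?_, ?_⟩
    · show (if p.2 then D.nx (e.symm (e p.1)) x else D.pv (e.symm (e p.1)) x) = some l
      rw [e.symm_apply_apply]
      exact hp
    · rintro ⟨k, c⟩ hk
      have := hu (e.symm k, c) hk
      rw [← this]
      simp
  · intro x
    obtain ⟨k, hk, hu⟩ := D.nx_none x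
    refine ⟨e k, ?_, ?_⟩
    · show D.nx (e.symm (e k)) x = none
      rw [e.symm_apply_apply]
      exact hk
    · intro k' hk'
      have := hu (e.symm k') hk'
      rw [← this]
      simp
  · intro x
    obtain ⟨k, hk, hu⟩ := D.pv_none x
    refine ⟨e k, ?_, ?_⟩
    · show D.pv (e.symm (e k)) x = none
      rw [e.symm_apply_apply]
      exact hk
    · intro k' hk'
      have := hu (e.symm k') hk'
      rw [← this]
      simp

/-- positions along the cosets of a cyclic subgroup -/
lemma exists_pos {T : Type*} [AddCommGroup T] (t : T) :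
    ∃ p : T → ZMod (addOrderOf t), ∀ x, p (x + t) = p x + 1 := by
  classical
  let r : T → T := fun x => ((QuotientAddGroup.mk x : T ⧸ AddSubgroup.zmultiples t)).out
  have hr : ∀ x, ∃ k : ℤ, k • t = x - r x := by
    intro x
    have h1 : (QuotientAddGroup.mk (r x) : T ⧸ AddSubgroup.zmultiples t) = QuotientAddGroup.mk x :=
      Quotient.out_eq' _
    rw [QuotientAddGroup.eq] at h1
    rw [AddSubgroup.mem_zmultiples_iff] at h1
    obtain ⟨k, hk⟩ := h1
    exact ⟨k, by rw [hk]; abel⟩
  choose k hk using hr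
  have hrt : ∀ x, r (x + t) = r x := by
    intro x
    have : (QuotientAddGroup.mk (x + t) : T ⧸ AddSubgroup.zmultiples t) = QuotientAddGroup.mk x := by
      rw [QuotientAddGroup.eq, AddSubgroup.mem_zmultiples_iff]
      exact ⟨-1, by rw [neg_one_zsmul]; abel⟩
    show (QuotientAddGroup.mk (x + t) : T ⧸ AddSubgroup.zmultiples t).out = _
    rw [this]
  refine ⟨fun x => (k x : ZMod (addOrderOf t)), fun x => ?_⟩
  have h1 : (k (x + t) - (k x + 1)) • t = 0 := by
    rw [sub_zsmul, add_zsmul, one_zsmul, hk, hk, hrt]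
    abel
  rw [← addOrderOf_dvd_iff_zsmul_eq_zero] at h1
  have h2 := (ZMod.intCast_zmod_eq_zero_iff_dvd _ _).2 h1
  push_cast at h2
  exact sub_eq_zero.1 h2

lemma exists_pos' {T : Type*} [AddCommGroup T] [Finite T] (t : T) :
    ∃ (n : ℕ) (_ : NeZero n) (p : T → ZMod n), (∀ x, p (x + t) = p x + 1) ∧
      ∀ k : ℕ, (k : ZMod n) = 0 ↔ k • t = 0 := by
  obtain ⟨p, hp⟩ := exists_pos t
  refine ⟨addOrderOf t, ⟨(addOrderOf_pos t).ne'⟩, p, hp, fun k => ?_⟩
  rw [ZMod.natCast_eq_zero_iff, addOrderOf_dvd_iff_nsmul_eq_zero]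

lemma pos_nsmul {T : Type*} [AddCommGroup T] {n : ℕ} {t : T} {p : T → ZMod n} {c : ZMod n}
    (hp : ∀ x, p (x + t) = p x + c) (x : T) (m : ℕ) : p (x + m • t) = p x + m * c := by
  induction m with
  | zero => simp
  | succ m ih =>
    rw [succ_nsmul, ← add_assoc, hp, ih]
    push_cast
    ring

/-- every position is reached -/
lemma pos_reach {T : Type*} [AddCommGroup T] {n : ℕ} [NeZero n] {t : T} {p : T → ZMod n}
    (hp : ∀ x, p (x + t) = p x + 1) (x : T) (c : ZMod n) : ∃ m : ℕ, p (x + m • t) = c := by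
  refine ⟨(c - p x).val, ?_⟩
  rw [pos_nsmul hp, ZMod.natCast_zmod_val]
  ring

/-- transversals of the cosets of a cyclic subgroup which avoid a set -/
lemma exists_transversal {T : Type*} [AddCommGroup T] [Finite T] (t : T) (B : Set T)
    (hB : ∀ x, ∃ n : ℕ, x + n • t ∉ B) :
    ∃ X : Set T, (∀ x, ∃ n : ℕ, x + n • t ∈ X) ∧ (∀ x ∈ X, x + t ∈ X → t = 0) ∧ ∀ x ∈ X, x ∉ B := by
  classical
  let Q := T ⧸ AddSubgroup.zmultiples t
  have hq : ∀ q : Q, ∃ x : T, (QuotientAddGroup.mk x : Q) = q ∧ x ∉ B := by
    intro q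
    obtain ⟨x, rfl⟩ := QuotientAddGroup.mk_surjective q
    obtain ⟨n, hn⟩ := hB x
    refine ⟨x + n • t, ?_, hn⟩
    rw [QuotientAddGroup.eq, AddSubgroup.mem_zmultiples_iff]
    exact ⟨-n, by rw [neg_zsmul, natCast_zsmul]; abel⟩
  choose f hf1 hf2 using hq
  refine ⟨Set.range f, ?_, ?_, ?_⟩
  · intro x
    have h1 := hf1 (QuotientAddGroup.mk x)
    rw [eq_comm, QuotientAddGroup.eq, AddSubgroup.mem_zmultiples_iff] at h1
    obtain ⟨k, hk⟩ := h1
    have hpos : (0 : ℤ) < addOrderOf t := by exact_mod_cast addOrderOf_pos t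
    obtain ⟨m, hm⟩ : ∃ m : ℕ, (m : ℤ) • t = k • t := by
      refine ⟨(k % (addOrderOf t : ℤ)).toNat, ?_⟩
      rw [Int.toNat_of_nonneg (Int.emod_nonneg _ hpos.ne')]
      exact mod_addOrderOf_zsmul t k
    refine ⟨m, QuotientAddGroup.mk x, ?_⟩
    have h2 : m • t = k • t := by rw [← hm, natCast_zsmul]
    rw [h2, hk]
    abel
  · rintro x ⟨q, rfl⟩ ⟨q', hq'⟩
    have h1 : q' = q := by
      rw [← hf1 q', hq', ← hf1 q, hf1 q]
      rw [show (q : Q) = QuotientAddGroup.mk (f q) from (hf1 q).symm]
      rw [QuotientAddGroup.eq, AddSubgroup.mem_zmultiples_iff]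
      refine ⟨-1, ?_⟩
      rw [neg_one_zsmul, ← hf1 q]
      simp [hf1 q]
    subst h1
    have h2 : f q' + 0 = f q' + t := by rw [add_zero]; exact hq'
    exact (add_left_cancel h2).symm
  · rintro x ⟨q, rfl⟩
    exact hf2 q

/-- from the absorption data of a set of generators -/
theorem of_absorb {T : Type*} [AddCommGroup T] [Finite T] (S : Set T) (X : T → Set T)
    (h1 : ∀ l ∈ S, ∀ x, ∃ n : ℕ, x + n • l ∈ X l)
    (h2 : ∀ l ∈ S, ∀ l' ∈ S, ∀ x, x ∈ X l → x ∈ X l' → l = l')
    (h3 : ∀ l ∈ S, ∀ l' ∈ S, ∀ x, x - l ∈ X l → x - l' ∈ X l' → l = l')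
    (rk : T → ℕ) (h4 : ∀ l ∈ S, ∀ x, x ∈ X l → rk (x + l) < rk x) :
    Nonempty (ForestData T S (Fin (S.ncard + 1)) (fun s => Equiv.addRight (s : T))) := by
  obtain ⟨D⟩ := absorb (fun s : S => (s : T)) (fun s : S => X s) (fun l x => h1 l l.2 x)
    (fun l l' x a b => Subtype.ext (h2 l l.2 l' l'.2 x a b))
    (fun l l' x a b => Subtype.ext (h3 l l.2 l' l'.2 x a b)) rk (fun l x a => h4 l l.2 x a)
  have hfin : S.Finite := S.toFinite
  haveI : Finite S := hfin
  haveI := Fintype.ofFinite S
  have hcard : Nat.card (Option S) = S.ncard + 1 := by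
    rw [Finite.card_option, Set.ncard_def, Nat.card_coe_set_eq]
    rfl
  exact reindexK D ((Finite.equivFin (Option S)).trans (finCongr hcard))

/-- two generators -/
theorem of_two {T : Type*} [AddCommGroup T] [Finite T] {t1 t2 : T} (h12 : t1 ≠ t2) (X1 X2 : Set T)
    (a1 : ∀ x, ∃ n : ℕ, x + n • t1 ∈ X1) (a2 : ∀ x, ∃ n : ℕ, x + n • t2 ∈ X2)
    (b : ∀ x, x ∈ X1 → x ∉ X2) (c : ∀ x, x - t1 ∈ X1 → x - t2 ∉ X2)
    (rk : T → ℕ) (d1 : ∀ x ∈ X1, rk (x + t1) < rk x) (d2 : ∀ x ∈ X2, rk (x + t2) < rk x) :
    Nonempty (ForestData T ({t1, t2} : Set T) (Fin (({t1, t2} : Set T).ncard + 1))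
      (fun s => Equiv.addRight (s : T))) := by
  classical
  refine of_absorb _ (fun l => if l = t1 then X1 else X2) ?_ ?_ ?_ rk ?_
  · rintro l (rfl | rfl) x
    · simpa using a1 x
    · rw [if_neg h12.symm]; exact a2 x
  · rintro l (rfl | rfl) l' (rfl | rfl) x hx hx'
    · rfl
    · rw [if_pos rfl] at hx
      rw [if_neg h12.symm] at hx'
      exact absurd hx' (b x hx)
    · rw [if_pos rfl] at hx'
      rw [if_neg h12.symm] at hx
      exact absurd hx (b x hx')
    · rfl
  · rintro l (rfl | rfl) l' (rfl | rfl) x hx hx'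
    · rfl
    · rw [if_pos rfl] at hx
      rw [if_neg h12.symm] at hx'
      exact absurd hx' (c x hx)
    · rw [if_pos rfl] at hx'
      rw [if_neg h12.symm] at hx
      exact absurd hx (c x hx')
    · rfl
  · rintro l (rfl | rfl) x hx
    · rw [if_pos rfl] at hx; exact d1 x hx
    · rw [if_neg h12.symm] at hx; exact d2 x hx

/-- case (i): `t1` is a multiple of `t2` -/
theorem case_one {T : Type*} [AddCommGroup T] [Finite T] {t1 t2 : T} (h12 : t1 ≠ t2) (h10 : t1 ≠ 0)
    (h20 : t2 ≠ 0) (h11 : t1 + t1 ≠ 0) (hs : t1 + t2 ≠ 0) (a : ℕ) (ha : t1 = a • t2) :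
    Nonempty (ForestData T ({t1, t2} : Set T) (Fin (({t1, t2} : Set T).ncard + 1))
      (fun s => Equiv.addRight (s : T))) := by
  classical
  obtain ⟨n, _, p, hp, cast0⟩ := exists_pos' t2
  have ha0 : (a : ZMod n) ≠ 0 := by
    intro h
    rw [cast0] at h
    exact h10 (by rw [ha, h])
  have ha2 : (a : ZMod n) + a ≠ 0 := by
    intro h
    have h' : ((a + a : ℕ) : ZMod n) = 0 := by push_cast; exact h
    rw [cast0] at h'
    exact h11 (by rw [ha, ← add_nsmul, h'])
  have ha1 : (a : ZMod n) + 1 ≠ 0 := by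
    intro h
    have h' : ((a + 1 : ℕ) : ZMod n) = 0 := by push_cast; exact h
    rw [cast0] at h'
    exact hs (by rw [← h', ha, add_nsmul, one_nsmul])
  have h01 : (1 : ZMod n) ≠ 0 := by
    intro h
    have h' : ((1 : ℕ) : ZMod n) = 0 := by push_cast; exact h
    rw [cast0, one_nsmul] at h'
    exact h20 h'
  have hp1 : ∀ x, p (x + t1) = p x + a := by
    intro x
    rw [ha, pos_nsmul hp, mul_one]
  obtain ⟨X1, hX1, hX1', hX1B⟩ := exists_transversal t1 {x | p x = 0 ∨ p x = 1 - a} (by
    intro x
    by_contra hcon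
    push Not at hcon
    have e0 := hcon 0
    have e1 := hcon 1
    have e2 := hcon 2
    simp only [Set.mem_ofPred_eq, pos_nsmul hp1] at e0 e1 e2
    push_cast at e0 e1 e2
    rw [zero_mul, add_zero] at e0
    rw [one_mul] at e1
    have e3 : p x + 2 * a = p x + a + a := by ring
    rw [e3] at e2
    rcases e0 with e0 | e0 <;> rcases e1 with e1 | e1
    · rw [e0, zero_add] at e1; exact ha0 e1
    · rcases e2 with e2 | e2
      · rw [e0, zero_add] at e2; exact ha2 e2
      · rw [e1] at e2
        exact ha0 (by linear_combination e2)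
    · rcases e2 with e2 | e2
      · rw [e1, zero_add] at e2; exact ha0 e2
      · rw [e0] at e2
        exact ha2 (by linear_combination e2)
    · rw [e0] at e1
      exact ha0 (by linear_combination e1))
  refine of_two h12 X1 {x | p x = 0} hX1 ?_ ?_ ?_
    (fun x => if p x = 0 then 2 else if x ∈ X1 then (if p x + a = 0 then 3 else 1) else 0) ?_ ?_
  · intro x
    exact pos_reach hp x 0
  · intro x hx h
    exact hX1B x hx (Or.inl h)
  · intro x hx h
    have h1 : p (x - t2) = 0 := h
    have h2 := hp (x - t2)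
    rw [sub_add_cancel, h1, zero_add] at h2
    have h3 := hp1 (x - t1)
    rw [sub_add_cancel, h2] at h3
    exact hX1B _ hx (Or.inr (by linear_combination -h3))
  · intro x hx
    have h1 : p x ≠ 0 := fun h => hX1B x hx (Or.inl h)
    have h2 : x + t1 ∉ X1 := fun h => h10 (hX1' x hx h)
    simp only [hp1, if_neg h1, if_pos hx, if_neg h2]
    split_ifs <;> omega
  · intro x hx
    have h1 : p x = 0 := hx
    have h2 : p (x + t2) = 1 := by rw [hp, h1, zero_add]
    have h3 : (1 : ZMod n) + a ≠ 0 := by rw [add_comm]; exact ha1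
    simp only [h2, h1, if_neg h01, if_true, if_neg h3]
    split_ifs <;> omega

/-- the common part of the cases (ii) and (iii) -/
lemma ord_mk {T : Type*} [AddCommGroup T] [Finite T] {t1 t2 : T} (h : t1 ∉ AddSubgroup.zmultiples t2) :
    ∃ m : ℕ, 2 ≤ m ∧ (m • t1 ∈ AddSubgroup.zmultiples t2) ∧
      ∃ p1 : T → ZMod m, (∀ x, p1 (x + t1) = p1 x + 1) ∧ ∀ x, p1 (x + t2) = p1 x := by
  classical
  let Q := T ⧸ AddSubgroup.zmultiples t2
  let τ : Q := QuotientAddGroup.mk t1
  obtain ⟨p, hp⟩ := exists_pos τ
  refine ⟨addOrderOf τ, ?_, ?_, fun x => p (QuotientAddGroup.mk x), ?_, ?_⟩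
  · have h1 : 0 < addOrderOf τ := addOrderOf_pos τ
    have h2 : addOrderOf τ ≠ 1 := by
      rw [Ne, AddMonoid.addOrderOf_eq_one_iff]
      intro h3
      exact h ((QuotientAddGroup.eq_zero_iff t1).1 h3)
    omega
  · rw [← QuotientAddGroup.eq_zero_iff]
    exact addOrderOf_nsmul_eq_zero τ
  · intro x
    exact hp (QuotientAddGroup.mk x)
  · intro x
    have : (QuotientAddGroup.mk (x + t2) : Q) = QuotientAddGroup.mk x := by
      rw [QuotientAddGroup.eq, AddSubgroup.mem_zmultiples_iff]
      exact ⟨-1, by rw [neg_one_zsmul]; abel⟩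
    show p (QuotientAddGroup.mk (x + t2)) = _
    rw [this]

theorem case_two {T : Type*} [AddCommGroup T] [Finite T] {t1 t2 : T} (h12 : t1 ≠ t2)
    (h20 : t2 ≠ 0) {m : ℕ} (hm : 2 ≤ m) (hmt : m • t1 ∈ AddSubgroup.zmultiples t2)
    (hm0 : m • t1 ≠ 0) (p1 : T → ZMod m) (hp11 : ∀ x, p1 (x + t1) = p1 x + 1)
    (hp12 : ∀ x, p1 (x + t2) = p1 x) :
    Nonempty (ForestData T ({t1, t2} : Set T) (Fin (({t1, t2} : Set T).ncard + 1))
      (fun s => Equiv.addRight (s : T))) := by
  classical
  obtain ⟨n, _, p, hp, cast0⟩ := exists_pos' t2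
  have : NeZero m := ⟨by omega⟩
  have : Fact (1 < m) := ⟨by omega⟩
  have h01 : (1 : ZMod n) ≠ 0 := by
    intro h
    have h' : ((1 : ℕ) : ZMod n) = 0 := by push_cast; exact h
    rw [cast0, one_nsmul] at h'
    exact h20 h'
  have h10m : (1 : ZMod m) ≠ 0 := one_ne_zero
  have hsub11 : ∀ x, p1 (x - t1) = p1 x - 1 := by
    intro x
    have := hp11 (x - t1)
    rw [sub_add_cancel] at this
    rw [this]; ring
  have hsub12 : ∀ x, p1 (x - t2) = p1 x := by
    intro x
    have := hp12 (x - t2)
    rw [sub_add_cancel] at this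
    exact this.symm
  have hsub : ∀ x, p (x - t2) = p x - 1 := by
    intro x
    have := hp (x - t2)
    rw [sub_add_cancel] at this
    rw [this]; ring
  have hp12n : ∀ x (k : ℕ), p1 (x + k • t2) = p1 x := by
    intro x k
    have h : ∀ y, p1 (y + t2) = p1 y + 0 := fun y => by rw [hp12, add_zero]
    rw [pos_nsmul h]
    ring
  -- the return map
  obtain ⟨c, hc, hc0⟩ : ∃ c : ZMod n, (∀ x, p (x + m • t1) = p x + c) ∧ c ≠ 0 := by
    rw [AddSubgroup.mem_zmultiples_iff] at hmt
    obtain ⟨k, hk⟩ := hmt
    have hpos : (0 : ℤ) < addOrderOf t2 := by exact_mod_cast addOrderOf_pos t2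
    obtain ⟨j, hj⟩ : ∃ j : ℕ, j • t2 = m • t1 := by
      refine ⟨(k % (addOrderOf t2 : ℤ)).toNat, ?_⟩
      rw [← hk, ← natCast_zsmul, Int.toNat_of_nonneg (Int.emod_nonneg _ hpos.ne')]
      exact mod_addOrderOf_zsmul t2 k
    refine ⟨j, fun x => ?_, fun h => ?_⟩
    · rw [← hj, pos_nsmul hp, mul_one]
    · rw [cast0, hj] at h
      exact hm0 h
  let Y : Set T := {x | p1 x = 0 ∧ p x = -1}
  let X1 : Set T := {x | p1 x = 0 ∧ x ∉ Y}
  let X2 : Set T := {x | (p1 x = 0 ∧ x ∈ Y) ∨ (p1 x = 1 ∧ x - t1 + t2 ∈ Y) ∨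
    (p1 x ≠ 0 ∧ p1 x ≠ 1 ∧ p x = 0)}
  refine of_two h12 X1 X2 ?_ ?_ ?_ ?_
    (fun x => if p1 x = 0 then (if x ∈ Y then 3 else 2) else (if x ∈ X2 then 1 else 0)) ?_ ?_
  · intro x
    obtain ⟨k, hk⟩ := pos_reach hp11 x 0
    by_cases hY : x + k • t1 ∈ Y
    · refine ⟨k + m, ?_, ?_⟩
      · rw [pos_nsmul hp11] at hk ⊢
        push_cast
        rw [ZMod.natCast_self, add_zero]
        exact hk
      · intro h
        have h1 := h.2
        rw [add_nsmul, ← add_assoc, hc, hY.2] at h1
        exact hc0 (by linear_combination h1)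
    · exact ⟨k, hk, hY⟩
  · intro x
    by_cases h0 : p1 x = 0
    · obtain ⟨k, hk⟩ := pos_reach hp x (-1)
      exact ⟨k, Or.inl ⟨by rw [hp12n, h0], by rw [hp12n, h0], hk⟩⟩
    · by_cases h1 : p1 x = 1
      · obtain ⟨k, hk⟩ := pos_reach hp (x - t1 + t2) (-1)
        refine ⟨k, Or.inr (Or.inl ⟨by rw [hp12n, h1], ?_, ?_⟩)⟩
        · rw [hp12, hsub11, hp12n, h1, sub_self]
        · rw [← hk]
          congr 1
          abel
      · obtain ⟨k, hk⟩ := pos_reach hp x 0
        exact ⟨k, Or.inr (Or.inr ⟨by rw [hp12n]; exact h0, by rw [hp12n]; exact h1, hk⟩)⟩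
  · rintro x ⟨h0, hY⟩ (⟨_, h⟩ | ⟨h, _⟩ | ⟨h, _⟩)
    · exact hY h
    · rw [h0] at h; exact h10m h.symm
    · exact h h0
  · rintro x ⟨h0, hY⟩ hx2
    have h1 : p1 x = 1 := by
      rw [hsub11] at h0
      linear_combination h0
    rcases hx2 with ⟨h, _⟩ | ⟨h, h'⟩ | ⟨_, h, _⟩
    · rw [hsub12, h1] at h; exact h10m h
    · apply hY
      have e : x - t2 - t1 + t2 = x - t1 := by abel
      rwa [e] at h'
    · rw [hsub12] at h; exact h h1
  · rintro x ⟨h0, hY⟩
    have h1 : p1 (x + t1) = 1 := by rw [hp11, h0, zero_add]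
    simp only [h1, if_neg h10m, h0, if_true, if_neg hY]
    split_ifs <;> omega
  · rintro x hx
    have e1 : p1 (x + t2) = p1 x := hp12 x
    rcases hx with ⟨h, h'⟩ | ⟨h, h'⟩ | ⟨h, h'⟩
    · have h2 : x + t2 ∉ Y := by
        intro h3
        have h4 := h3.2
        rw [hp, h'.2] at h4
        exact h01 (by linear_combination h4)
      simp only [e1, h, if_true, if_neg h2, if_pos h']
      omega
    · have h2 : x + t2 ∉ X2 := by
        rintro (⟨h3, _⟩ | ⟨_, h3⟩ | ⟨_, h3, _⟩)
        · rw [e1, h] at h3; exact h10m h3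
        · have h4 := h3.2
          have e : x + t2 - t1 + t2 = (x - t1 + t2) + t2 := by abel
          rw [e, hp, h'.2] at h4
          exact h01 (by linear_combination h4)
        · rw [e1] at h3; exact h3 h
      have h3 : x ∈ X2 := Or.inr (Or.inl ⟨h, h'⟩)
      simp only [e1, h, if_neg h10m, if_neg h2, if_pos h3]
      omega
    · have h2 : x + t2 ∉ X2 := by
        rintro (⟨h3, _⟩ | ⟨h3, _⟩ | ⟨_, _, h3⟩)
        · rw [e1] at h3; exact h h3
        · rw [e1] at h3; exact h'.1 h3
        · rw [hp, h'.2, zero_add] at h3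
          exact h01 h3
      have h3 : x ∈ X2 := Or.inr (Or.inr ⟨h, h'⟩)
      simp only [e1, if_neg h, if_neg h2, if_pos h3]
      omega

theorem case_three {T : Type*} [AddCommGroup T] [Finite T] {t1 t2 : T} (h12 : t1 ≠ t2)
    (h10 : t1 ≠ 0) (h11 : t1 + t1 ≠ 0) (h20 : t2 ≠ 0) {m : ℕ} (hm : 2 ≤ m)
    (hm0 : m • t1 = 0) (p1 : T → ZMod m) (hp11 : ∀ x, p1 (x + t1) = p1 x + 1)
    (hp12 : ∀ x, p1 (x + t2) = p1 x) :
    Nonempty (ForestData T ({t1, t2} : Set T) (Fin (({t1, t2} : Set T).ncard + 1))
      (fun s => Equiv.addRight (s : T))) := by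
  classical
  have hm3 : 3 ≤ m := by
    by_contra hlt
    have : m = 2 := by omega
    subst this
    rw [two_nsmul] at hm0
    exact h11 hm0
  obtain ⟨n, _, p, hp, cast0⟩ := exists_pos' t2
  have : NeZero m := ⟨by omega⟩
  have : Fact (1 < m) := ⟨by omega⟩
  have h01 : (1 : ZMod n) ≠ 0 := by
    intro h
    have h' : ((1 : ℕ) : ZMod n) = 0 := by push_cast; exact h
    rw [cast0, one_nsmul] at h'
    exact h20 h'
  have h10m : (1 : ZMod m) ≠ 0 := one_ne_zero
  have h20m : (2 : ZMod m) ≠ 0 := by
    intro h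
    have h' : ((2 : ℕ) : ZMod m) = 0 := by push_cast; exact h
    rw [ZMod.natCast_eq_zero_iff] at h'
    have := Nat.le_of_dvd (by norm_num) h'
    omega
  have h21m : (2 : ZMod m) ≠ 1 := by
    intro h
    exact h10m (by linear_combination h)
  have hsub11 : ∀ x, p1 (x - t1) = p1 x - 1 := by
    intro x
    have := hp11 (x - t1)
    rw [sub_add_cancel] at this
    rw [this]; ring
  have hsub12 : ∀ x, p1 (x - t2) = p1 x := by
    intro x
    have := hp12 (x - t2)
    rw [sub_add_cancel] at this
    exact this.symm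
  have hp12n : ∀ x (k : ℕ), p1 (x + k • t2) = p1 x := by
    intro x k
    have h : ∀ y, p1 (y + t2) = p1 y + 0 := fun y => by rw [hp12, add_zero]
    rw [pos_nsmul h]
    ring
  let Y : Set T := {x | p1 x = 0 ∧ p x = -1}
  have hYs : ∀ x, x ∈ Y → x + t2 ∉ Y := by
    intro x h h'
    have h4 := h'.2
    rw [hp, h.2] at h4
    exact h01 (by linear_combination h4)
  let X1 : Set T := {x | (p1 x = 0 ∧ x ∉ Y) ∨ x - t1 ∈ Y}
  let X2 : Set T := {x | x ∈ Y ∨ x - t1 + t2 ∈ Y ∨ x - t1 - t1 ∈ Y ∨
    (p1 x ≠ 0 ∧ p1 x ≠ 1 ∧ p1 x ≠ 2 ∧ p x = 0)}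
  have q1 : ∀ x, x - t1 + t2 ∈ Y → p1 x = 1 := by
    intro x h
    have := h.1
    rw [hp12, hsub11] at this
    linear_combination this
  have q1' : ∀ x, x - t1 ∈ Y → p1 x = 1 := by
    intro x h
    have := h.1
    rw [hsub11] at this
    linear_combination this
  have q2 : ∀ x, x - t1 - t1 ∈ Y → p1 x = 2 := by
    intro x h
    have := h.1
    rw [hsub11, hsub11] at this
    linear_combination this
  refine of_two h12 X1 X2 ?_ ?_ ?_ ?_
    (fun x => if p1 x = 0 then (if x ∈ Y then 5 else 4) else if x - t1 + t2 ∈ Y then 3 else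
      if x - t1 ∈ Y then 2 else if x ∈ X2 then 1 else 0) ?_ ?_
  · intro x
    obtain ⟨k, hk⟩ := pos_reach hp11 x 0
    by_cases hY : x + k • t1 ∈ Y
    · refine ⟨k + 1, Or.inr ?_⟩
      have e : x + (k + 1) • t1 - t1 = x + k • t1 := by rw [succ_nsmul]; abel
      rw [e]
      exact hY
    · exact ⟨k, Or.inl ⟨hk, hY⟩⟩
  · intro x
    by_cases h0 : p1 x = 0
    · obtain ⟨k, hk⟩ := pos_reach hp x (-1)
      exact ⟨k, Or.inl ⟨by rw [hp12n, h0], hk⟩⟩
    · by_cases h1 : p1 x = 1
      · obtain ⟨k, hk⟩ := pos_reach hp (x - t1 + t2) (-1)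
        refine ⟨k, Or.inr (Or.inl ⟨?_, ?_⟩)⟩
        · rw [hp12, hsub11, hp12n, h1, sub_self]
        · rw [← hk]
          congr 1
          abel
      · by_cases h2 : p1 x = 2
        · obtain ⟨k, hk⟩ := pos_reach hp (x - t1 - t1) (-1)
          refine ⟨k, Or.inr (Or.inr (Or.inl ⟨?_, ?_⟩))⟩
          · rw [hsub11, hsub11, hp12n, h2]
            ring
          · rw [← hk]
            congr 1
            abel
        · obtain ⟨k, hk⟩ := pos_reach hp x 0
          exact ⟨k, Or.inr (Or.inr (Or.inr ⟨by rw [hp12n]; exact h0, by rw [hp12n]; exact h1,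
            by rw [hp12n]; exact h2, hk⟩))⟩
  · rintro x (⟨h0, hY⟩ | hY) hx2
    · rcases hx2 with h | h | h | h
      · exact hY h
      · have := q1 x h; rw [h0] at this; exact h10m this.symm
      · have := q2 x h; rw [h0] at this; exact h20m this.symm
      · exact h.1 h0
    · have h1 := q1' x hY
      rcases hx2 with h | h | h | h
      · have := h.1; rw [h1] at this; exact h10m this
      · exact hYs _ hY h
      · have := q2 x h; rw [h1] at this; exact h21m this.symm
      · exact h.2.1 h1
  · rintro x hx1 hx2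
    have e1 : x - t2 - t1 + t2 = x - t1 := by abel
    have e2 : x - t2 - t1 - t1 + t2 = x - t1 - t1 := by abel
    rcases hx1 with ⟨h0, hY⟩ | hY
    · have h1 : p1 x = 1 := by
        rw [hsub11] at h0
        linear_combination h0
      rcases hx2 with h | h | h | h
      · have := h.1; rw [hsub12, h1] at this; exact h10m this
      · rw [e1] at h; exact hY h
      · have := q2 _ h; rw [hsub12, h1] at this; exact h21m this.symm
      · have := h.2.1; rw [hsub12] at this; exact this h1
    · have h1 : p1 x = 2 := q2 x hY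
      rcases hx2 with h | h | h | h
      · have := h.1; rw [hsub12, h1] at this; exact h20m this
      · have := q1 _ h; rw [hsub12, h1] at this; exact h21m this
      · have := hYs _ h
        rw [e2] at this
        exact this hY
      · have := h.2.2.1; rw [hsub12] at this; exact this h1
  · rintro x (⟨h0, hY⟩ | hY)
    · have h1 : p1 (x + t1) = 1 := by rw [hp11, h0, zero_add]
      simp only [h1, if_neg h10m, h0, if_true, if_neg hY]
      split_ifs <;> omega
    · have h1 := q1' x hY
      have h2 : p1 (x + t1) = 2 := by rw [hp11, h1]; ring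
      have h3 : x - t1 + t2 ∉ Y := hYs _ hY
      have h4 : x + t1 - t1 + t2 ∉ Y := by
        intro h
        have := q1 _ h
        rw [h2] at this
        exact h21m this
      have h5 : x + t1 - t1 ∉ Y := by
        intro h
        have := q1' _ h
        rw [h2] at this
        exact h21m this
      simp only [h2, if_neg h20m, if_neg h4, if_neg h5, h1, if_neg h10m, if_neg h3, if_pos hY]
      split_ifs <;> omega
  · rintro x hx
    have e1 : p1 (x + t2) = p1 x := hp12 x
    rcases hx with h | h | h | h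
    · have h2 : x + t2 ∉ Y := hYs x h
      have h3 : p1 x = 0 := h.1
      simp only [e1, h3, if_true, if_neg h2, if_pos h]
      omega
    · have h1 := q1 x h
      have h2 : x + t2 - t1 + t2 ∉ Y := by
        have e : x + t2 - t1 + t2 = (x - t1 + t2) + t2 := by abel
        rw [e]
        exact hYs _ h
      simp only [e1, h1, if_neg h10m, if_neg h2, if_pos h]
      split_ifs <;> omega
    · have h1 := q2 x h
      have h2 : x + t2 - t1 + t2 ∉ Y := by
        intro h'
        have := q1 _ h'
        rw [e1, h1] at this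
        exact h21m this
      have h3 : x + t2 - t1 ∉ Y := by
        intro h'
        have := q1' _ h'
        rw [e1, h1] at this
        exact h21m this
      have h4 : x - t1 + t2 ∉ Y := by
        intro h'
        have := q1 _ h'
        rw [h1] at this
        exact h21m this
      have h5 : x - t1 ∉ Y := by
        intro h'
        have := q1' _ h'
        rw [h1] at this
        exact h21m this
      have h6 : x + t2 ∉ X2 := by
        rintro (h' | h' | h' | h')
        · have := h'.1; rw [e1, h1] at this; exact h20m this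
        · exact h2 h'
        · have e : x + t2 - t1 - t1 = (x - t1 - t1) + t2 := by abel
          rw [e] at h'
          exact hYs _ h h'
        · have := h'.2.2.1; rw [e1] at this; exact this h1
      have h7 : x ∈ X2 := Or.inr (Or.inr (Or.inl h))
      simp only [e1, h1, if_neg h20m, if_neg h2, if_neg h3, if_neg h4, if_neg h5, if_neg h6, if_pos h7]
      omega
    · obtain ⟨k0, k1, k2, k3⟩ := h
      have h2 : x + t2 - t1 + t2 ∉ Y := by
        intro h'
        have := q1 _ h'
        rw [e1] at this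
        exact k1 this
      have h3 : x + t2 - t1 ∉ Y := by
        intro h'
        have := q1' _ h'
        rw [e1] at this
        exact k1 this
      have h4 : x - t1 + t2 ∉ Y := fun h' => k1 (q1 _ h')
      have h5 : x - t1 ∉ Y := fun h' => k1 (q1' _ h')
      have h6 : x + t2 ∉ X2 := by
        rintro (h' | h' | h' | h')
        · have := h'.1; rw [e1] at this; exact k0 this
        · exact h2 h'
        · have := q2 _ h'; rw [e1] at this; exact k2 this
        · have := h'.2.2.2
          rw [hp, k3, zero_add] at this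
          exact h01 this
      have h7 : x ∈ X2 := Or.inr (Or.inr (Or.inr ⟨k0, k1, k2, k3⟩))
      simp only [e1, if_neg k0, if_neg h2, if_neg h3, if_neg h4, if_neg h5, if_neg h6, if_pos h7]
      omega

/-- one generator -/
theorem of_one {T : Type*} [AddCommGroup T] [Finite T] {t : T} (h : t ≠ 0) :
    ∃ X : Set T, (∀ x, ∃ n : ℕ, x + n • t ∈ X) ∧ ∃ rk : T → ℕ, ∀ x ∈ X, rk (x + t) < rk x := by
  classical
  obtain ⟨X, h1, h2, _⟩ := exists_transversal t ∅ (fun x => ⟨0, by simp⟩)
  refine ⟨X, h1, fun x => if x ∈ X then 1 else 0, fun x hx => ?_⟩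
  have h3 : x + t ∉ X := fun h' => h (h2 x hx h')
  simp only [if_neg h3, if_pos hx]
  omega

end Two

/-- a single cyclic factor -/
theorem forestData_single (k : ℕ) (hk : 2 ≤ k) :
    Nonempty (ForestData (ZMod k) Unit Bool (fun _ => Equiv.addRight 1)) := by
  haveI : NeZero k := ⟨by omega⟩
  haveI : Fact (1 < k) := ⟨by omega⟩
  obtain ⟨X, h1, rk, h2⟩ := Two.of_one (T := ZMod k) (t := 1) one_ne_zero
  obtain ⟨D⟩ := Two.absorb (T := ZMod k) (L := Unit) (fun _ => 1) (fun _ => X) (fun _ => h1)
    (fun _ _ _ _ _ => rfl) (fun _ _ _ _ _ => rfl) rk (fun _ => h2)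
  have e : Option Unit ≃ Bool := (Finite.equivFin (Option Unit)).trans
    ((finCongr (by simp)).trans finTwoEquiv)
  exact Two.reindexK D e

/-- at most two generators -/
theorem forestData_of_ncard_le_two {T : Type*} [AddCommGroup T] [Finite T] (S : Set T)
    (h0 : (0 : T) ∉ S) (hS : ∀ s ∈ S, -s ∉ S) (h : S.ncard ≤ 2) :
    Nonempty (ForestData T S (Fin (S.ncard + 1)) (fun s => Equiv.addRight (s : T))) := by
  have hc : S.ncard = 0 ∨ S.ncard = 1 ∨ S.ncard = 2 := by omega
  rcases hc with hc | hc | hc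
  · have hE : S = ∅ := by
      rwa [Set.ncard_eq_zero S.toFinite] at hc
    exact Two.of_absorb S (fun _ => Set.univ) (by simp [hE]) (by simp [hE]) (by simp [hE]) (fun _ => 0)
      (by simp [hE])
  · obtain ⟨t, rfl⟩ := Set.ncard_eq_one.1 hc
    have ht : t ≠ 0 := fun h => h0 (by rw [h]; rfl)
    obtain ⟨X, h1, rk, h2⟩ := Two.of_one ht
    refine Two.of_absorb {t} (fun _ => X) ?_ ?_ ?_ rk ?_
    · rintro l rfl; exact h1
    · rintro l rfl l' rfl _ _ _; rfl
    · rintro l rfl l' rfl _ _ _; rfl
    · rintro l rfl x hx; exact h2 x hx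
  · obtain ⟨t1, t2, h12, rfl⟩ := Set.ncard_eq_two.1 hc
    have m1 : t1 ∈ ({t1, t2} : Set T) := by simp
    have m2 : t2 ∈ ({t1, t2} : Set T) := by simp
    have h10 : t1 ≠ 0 := fun h => h0 (h ▸ m1)
    have h20 : t2 ≠ 0 := fun h => h0 (h ▸ m2)
    have h11 : t1 + t1 ≠ 0 := fun h => hS t1 m1 (by rw [← eq_neg_of_add_eq_zero_left h]; exact m1)
    have hs : t1 + t2 ≠ 0 := fun h => hS t2 m2 (by rw [← eq_neg_of_add_eq_zero_left h]; exact m1)
    by_cases hz : t1 ∈ AddSubgroup.zmultiples t2
    · rw [AddSubgroup.mem_zmultiples_iff] at hz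
      obtain ⟨k, hk⟩ := hz
      have hpos : (0 : ℤ) < addOrderOf t2 := by exact_mod_cast addOrderOf_pos t2
      refine Two.case_one h12 h10 h20 h11 hs (k % (addOrderOf t2 : ℤ)).toNat ?_
      rw [← natCast_zsmul, Int.toNat_of_nonneg (Int.emod_nonneg _ hpos.ne'), mod_addOrderOf_zsmul]
      exact hk.symm
    · obtain ⟨m, hm, hmt, p1, hp11, hp12⟩ := Two.ord_mk hz
      by_cases hm0 : m • t1 = 0
      · exact Two.case_three h12 h10 h11 h20 hm hm0 p1 hp11 hp12
      · exact Two.case_two h12 h20 hm hmt hm0 p1 hp11 hp12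

end Pool.Agent.Helper39.HD
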