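import Pool.Agent.Helper39.HD.Assembly
import Pool.Agent.Helper39.HD.Group
import Pool.Agent.Helper39.HD.Orient
import Pool.Agent.Helper39.HD.Two

/-!
# Blocks
-/

namespace Pool.Agent.Helper39.HD

open Equiv

/-- coordinate along `a` modulo `N` -/
theorem exists_cocycle {Γ : Type*} [AddCommGroup Γ] (N : AddSubgroup Γ) (a : Γ) (k : ℕ)
    (h : ∀ n : ℤ, n • a ∈ N → (k : ℤ) ∣ n) :
    ∃ p : Γ → ZMod k, (∀ x, p (x + a) = p x + 1) ∧ ∀ x, ∀ g ∈ N, p (x + g) = p x := by
  classical
  let H : AddSubgroup Γ := N ⊔ AddSubgroup.zmultiples a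
  let r : Γ → Γ := fun x => (QuotientAddGroup.mk x : Γ ⧸ H).out
  have hr : ∀ x, ∃ n : ℤ, x - r x - n • a ∈ N := by
    intro x
    have h1 : (QuotientAddGroup.mk (r x) : Γ ⧸ H) = QuotientAddGroup.mk x := Quotient.out_eq' _
    rw [QuotientAddGroup.eq, AddSubgroup.mem_sup] at h1
    obtain ⟨y, hy, z, hz, hyz⟩ := h1
    obtain ⟨n, rfl⟩ := AddSubgroup.mem_zmultiples_iff.1 hz
    refine ⟨n, ?_⟩
    have : x - r x - n • a = y := by
      have h2 : x - r x - n • a = (-r x + x) - n • a := by abel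
      rw [h2, ← hyz]
      abel
    rwa [this]
  choose n hn using hr
  have hrH : ∀ x, ∀ g ∈ H, r (x + g) = r x := by
    intro x g hg
    have : (QuotientAddGroup.mk (x + g) : Γ ⧸ H) = QuotientAddGroup.mk x := by
      rw [eq_comm, QuotientAddGroup.eq]
      simpa using hg
    change (QuotientAddGroup.mk (x + g) : Γ ⧸ H).out = _
    rw [this]
  refine ⟨fun x => (n x : ZMod k), fun x => ?_, fun x g hg => ?_⟩
  · have h1 := hn (x + a)
    rw [hrH x a (AddSubgroup.mem_sup_right (AddSubgroup.mem_zmultiples a))] at h1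
    have h2 : ((n x + 1) - n (x + a)) • a ∈ N := by
      have := N.sub_mem h1 (hn x)
      convert this using 1
      rw [sub_zsmul, add_zsmul, one_zsmul]
      abel
    have h3 := (ZMod.intCast_zmod_eq_zero_iff_dvd _ _).2 (h _ h2)
    push_cast at h3
    exact (sub_eq_zero.1 h3).symm
  · have h1 := hn (x + g)
    rw [hrH x g (AddSubgroup.mem_sup_left hg)] at h1
    have h2 : (n x - n (x + g)) • a ∈ N := by
      have := N.sub_mem (N.sub_mem h1 (hn x)) hg
      convert this using 1
      rw [sub_zsmul]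
      abel
    have h3 := (ZMod.intCast_zmod_eq_zero_iff_dvd _ _).2 (h _ h2)
    push_cast at h3
    exact (sub_eq_zero.1 h3).symm

/-- projection to `T` along `H` -/
theorem exists_proj {Γ : Type*} [AddCommGroup Γ] (H T : AddSubgroup Γ)
    (hdisj : ∀ x ∈ H, x ∈ T → x = 0) :
    ∃ π : Γ → T, (∀ x, ∀ h ∈ H, π (x + h) = π x) ∧ ∀ x, ∀ t : T, π (x + t) = π x + t := by
  classical
  let K : AddSubgroup Γ := H ⊔ T
  let r : Γ → Γ := fun x => (QuotientAddGroup.mk x : Γ ⧸ K).out
  have hr : ∀ x, ∃ t : T, x - r x - t ∈ H := by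
    intro x
    have h1 : (QuotientAddGroup.mk (r x) : Γ ⧸ K) = QuotientAddGroup.mk x := Quotient.out_eq' _
    rw [QuotientAddGroup.eq, AddSubgroup.mem_sup] at h1
    obtain ⟨y, hy, z, hz, hyz⟩ := h1
    refine ⟨⟨z, hz⟩, ?_⟩
    have : x - r x - z = y := by
      have h2 : x - r x - z = (-r x + x) - z := by abel
      rw [h2, ← hyz]
      abel
    rwa [this]
  choose t ht using hr
  have hrK : ∀ x, ∀ g ∈ K, r (x + g) = r x := by
    intro x g hg
    have : (QuotientAddGroup.mk (x + g) : Γ ⧸ K) = QuotientAddGroup.mk x := by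
      rw [eq_comm, QuotientAddGroup.eq]
      simpa using hg
    change (QuotientAddGroup.mk (x + g) : Γ ⧸ K).out = _
    rw [this]
  refine ⟨t, fun x h hh => ?_, fun x s => ?_⟩
  · have h1 := ht (x + h)
    rw [hrK x h (AddSubgroup.mem_sup_left hh)] at h1
    have h2 : (((t (x + h) - t x : T)) : Γ) ∈ H := by
      have := H.add_mem (H.sub_mem (ht x) h1) hh
      convert this using 1
      push_cast
      abel
    have := hdisj _ h2 (SetLike.coe_mem _)
    have h3 : t (x + h) - t x = 0 := by exact_mod_cast this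
    exact sub_eq_zero.1 h3
  · have h1 := ht (x + s)
    rw [hrK x s (AddSubgroup.mem_sup_right s.2)] at h1
    have h2 : (((t (x + s) - (t x + s) : T)) : Γ) ∈ H := by
      have := H.sub_mem (ht x) h1
      convert this using 1
      push_cast
      abel
    have := hdisj _ h2 (SetLike.coe_mem _)
    have h3 : t (x + s) - (t x + s) = 0 := by exact_mod_cast this
    exact sub_eq_zero.1 h3

/-- pulling back forest data, with a change of labels -/
def ForestData.pullback {X Y L L' K : Type*} {act : L → Perm X} {act' : L' → Perm Y} (π : Y → X)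
    (e : L' ≃ L) (hπ : ∀ l y, π (act' l y) = act (e l) (π y)) (D : ForestData X L K act) :
    ForestData Y L' K act' :=
  have hstp : ∀ (l : L' × Bool) (y : Y), π (stp act' l y) = stp act (e l.1, l.2) (π y) := by
    rintro ⟨l, β⟩ y
    cases β
    · simp only [stp, Bool.false_eq_true, if_false]
      rw [eq_comm, Perm.inv_eq_iff_eq, ← hπ]
      congr 1
      exact ((act' l).apply_symm_apply y).symm
    · exact hπ l y
  have hopt : ∀ (o : Option (L × Bool)) (l : L') (β : Bool),
      o.map (fun l => (e.symm l.1, l.2)) = some (l, β) ↔ o = some (e l, β) := by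
    intro o l β
    rw [Option.map_eq_some_iff]
    constructor
    · rintro ⟨⟨l', β'⟩, rfl, h⟩
      simp only [Prod.mk.injEq] at h
      rw [← h.1, ← h.2]
      simp
    · rintro rfl
      exact ⟨_, rfl, by simp⟩
  { nx := fun k y => (D.nx k (π y)).map (fun l => (e.symm l.1, l.2))
    pv := fun k y => (D.pv k (π y)).map (fun l => (e.symm l.1, l.2))
    inv := by
      intro k x l β
      rw [hopt, hopt, hstp]
      exact D.inv k (π x) (e l) β
    dart := by
      rintro x ⟨l, β⟩
      obtain ⟨p, hp, hu⟩ := D.dart (π x) (e l, β)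
      refine ⟨p, ?_, ?_⟩
      · rcases p with ⟨k, _ | _⟩
        · simp only [Bool.false_eq_true, if_false] at hp ⊢
          rw [hopt]; exact hp
        · simp only [if_true] at hp ⊢
          rw [hopt]; exact hp
      · intro q hq
        apply hu
        rcases q with ⟨k, _ | _⟩
        · simp only [Bool.false_eq_true, if_false] at hq ⊢
          rwa [hopt] at hq
        · simp only [if_true] at hq ⊢
          rwa [hopt] at hq
    nx_none := by
      intro x
      obtain ⟨k, hk, hu⟩ := D.nx_none (π x)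
      refine ⟨k, by simp [hk], fun k' hk' => hu k' (by simpa using hk')⟩
    pv_none := by
      intro x
      obtain ⟨k, hk, hu⟩ := D.pv_none (π x)
      refine ⟨k, by simp [hk], fun k' hk' => hu k' (by simpa using hk')⟩
    wf_nx := by
      intro k
      refine Subrelation.wf (r := InvImage _ π) ?_ (InvImage.wf π (D.wf_nx k))
      rintro y x ⟨⟨l, β⟩, hl, rfl⟩
      exact ⟨(e l, β), (hopt _ _ _).1 hl, hstp _ _⟩
    wf_pv := by
      intro k
      refine Subrelation.wf (r := InvImage _ π) ?_ (InvImage.wf π (D.wf_pv k))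
      rintro y x ⟨⟨l, β⟩, hl, rfl⟩
      exact ⟨(e l, β), (hopt _ _ _).1 hl, hstp _ _⟩ }

/-- everything that is needed of the generator `a` together with the set `Σ` of generators -/
structure BlockData {Γ : Type} [AddCommGroup Γ] (b a : Γ) (P : Set Γ) where
  K : Type
  countable : Countable K
  D : ForestData Γ P K (fun l => Equiv.addRight (l : Γ))
  nx_a : ∀ k x, D.nx k (x + a) = D.nx k x
  pv_a : ∀ k x, D.pv k (x + a) = D.pv k x
  nx_b : ∀ k x, D.nx k (x + b) = D.nx k x
  pv_b : ∀ k x, D.pv k (x + b) = D.pv k x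

section

variable {Γ : Type} [AddCommGroup Γ]

theorem blockData_of_pullback {X L K : Type} [Countable K] {act : L → Perm X} {b a : Γ}
    {P : Set Γ} (D : ForestData X L K act) (π : Γ → X) (e : P ≃ L)
    (hπ : ∀ (s : P) x, π (x + s) = act (e s) (π x)) (ha : ∀ x, π (x + a) = π x)
    (hb : ∀ x, π (x + b) = π x) : Nonempty (BlockData b a P) :=
  ⟨{  K := K
      countable := inferInstance
      D := D.pullback π e hπ
      nx_a := fun k x => by simp only [ForestData.pullback, ha]
      pv_a := fun k x => by simp only [ForestData.pullback, ha]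
      nx_b := fun k x => by simp only [ForestData.pullback, hb]
      pv_b := fun k x => by simp only [ForestData.pullback, hb] }⟩

theorem forestData_empty (X : Type) (act : Empty → Perm X) :
    Nonempty (ForestData X Empty Unit act) :=
  ⟨{  nx := fun _ _ => none
      pv := fun _ _ => none
      inv := fun _ _ l => l.elim
      dart := fun _ l => l.1.elim
      nx_none := fun _ => ⟨(), rfl, fun _ _ => rfl⟩
      pv_none := fun _ => ⟨(), rfl, fun _ _ => rfl⟩
      wf_nx := fun _ => ⟨fun x => ⟨x, fun _ ⟨l, _, _⟩ => l.1.elim⟩⟩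
      wf_pv := fun _ => ⟨fun x => ⟨x, fun _ ⟨l, _, _⟩ => l.1.elim⟩⟩ }⟩

theorem blockData_empty (b a : Γ) : Nonempty (BlockData b a ∅) := by
  obtain ⟨D⟩ := forestData_empty Unit (fun _ => 1)
  exact blockData_of_pullback D (fun _ => ()) (Equiv.equivOfIsEmpty _ _) (fun s => s.2.elim)
    (fun _ => rfl) (fun _ => rfl)

theorem blockData_single {b a s : Γ} (hs : Par s b) (hsb : ∀ j : ℤ, s ≠ j • b)
    (hab : ∀ i j : ℤ, i • a = j • b → i = 0) : Nonempty (BlockData b a {s}) := by
  classical
  let N : AddSubgroup Γ := AddSubgroup.zmultiples a ⊔ AddSubgroup.zmultiples b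
  have hN : ∀ x, x ∈ N ↔ ∃ i j : ℤ, x = i • a + j • b := by
    intro x
    rw [AddSubgroup.mem_sup]
    constructor
    · rintro ⟨y, hy, z, hz, rfl⟩
      obtain ⟨i, rfl⟩ := AddSubgroup.mem_zmultiples_iff.1 hy
      obtain ⟨j, rfl⟩ := AddSubgroup.mem_zmultiples_iff.1 hz
      exact ⟨i, j, rfl⟩
    · rintro ⟨i, j, rfl⟩
      exact ⟨_, AddSubgroup.mem_zmultiples_iff.2 ⟨i, rfl⟩, _,
        AddSubgroup.mem_zmultiples_iff.2 ⟨j, rfl⟩, rfl⟩
  let k := addOrderOf (QuotientAddGroup.mk s : Γ ⧸ N)
  have hk : ∀ n : ℤ, n • s ∈ N ↔ (k : ℤ) ∣ n := by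
    intro n
    rw [addOrderOf_dvd_iff_zsmul_eq_zero, ← QuotientAddGroup.mk_zsmul,
      QuotientAddGroup.eq_zero_iff]
  obtain ⟨i, j, hi, hj, hij⟩ := hs
  have hk0 : k ≠ 0 := by
    intro h
    have h1 := (hk i).1 ((hN _).2 ⟨0, j, by rw [hij]; simp⟩)
    rw [h] at h1
    exact hi (by simpa using h1)
  have hk1 : k ≠ 1 := by
    intro h
    have h1 : (1 : ℤ) • s ∈ N := (hk 1).2 (by rw [h]; simp)
    rw [one_zsmul, hN] at h1
    obtain ⟨m, n, h2⟩ := h1
    have h3 : (i * m) • a = (j - i * n) • b := by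
      have h4 : i • s = (i * m) • a + (i * n) • b := by
        rw [h2, zsmul_add, smul_smul, smul_smul]
      rw [sub_smul, ← hij, h4]
      abel
    have h5 := hab _ _ h3
    have h6 : m = 0 := (mul_eq_zero.1 h5).resolve_left hi
    exact hsb n (by rw [h2, h6]; simp)
  obtain ⟨p, hp, hpN⟩ := exists_cocycle N s k (fun n hn => (hk n).1 hn)
  obtain ⟨D⟩ := forestData_single k (by omega)
  refine blockData_of_pullback D p (Equiv.ofUnique _ _) ?_ ?_ ?_
  · rintro ⟨s', rfl⟩ x
    exact hp x
  · intro x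
    exact hpN x a ((hN a).2 ⟨1, 0, by simp⟩)
  · intro x
    exact hpN x b ((hN b).2 ⟨0, 1, by simp⟩)

theorem closure_torsion {P : Set Γ} (hfin : P.Finite) (hP : ∀ s ∈ P, IsOfFinAddOrder s) :
    (∀ x ∈ AddSubgroup.closure P, IsOfFinAddOrder x) ∧ Finite (AddSubgroup.closure P) := by
  have h1 : ∀ x ∈ AddSubgroup.closure P, IsOfFinAddOrder x := by
    intro x hx
    induction hx using AddSubgroup.closure_induction with
    | mem s hs => exact hP s hs
    | zero => exact IsOfFinAddOrder.zero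
    | add y z _ _ h1 h2 => exact h1.add h2
    | neg y _ h1 => exact h1.neg
  refine ⟨h1, ?_⟩
  have hfg : AddGroup.FG (AddSubgroup.closure P) := by
    rw [AddGroup.fg_iff_addSubgroup_fg]
    exact (AddSubgroup.fg_iff _).2 ⟨P, rfl, hfin⟩
  apply AddCommGroup.finite_of_fg_isAddTorsion
  intro x
  obtain ⟨n, hn, h⟩ := isOfFinAddOrder_iff_nsmul_eq_zero.1 (h1 x x.2)
  exact isOfFinAddOrder_iff_nsmul_eq_zero.2 ⟨n, hn, Subtype.ext (by simpa using h)⟩

/-- hypothesis on a set of generators of finite order: at most two elements, or the Cayley graph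
of the finite group which they generate is decomposable into `|P| + 1` linear forests -/
def SmallOrArboricity (P : Set Γ) : Prop :=
  P.ncard ≤ 2 ∨ LinearForestDecomposable
    (SimpleGraph.circulantGraph ((fun x : AddSubgroup.closure P => (x : Γ)) ⁻¹' P)) (P.ncard + 1)

theorem blockData_torsion {b a : Γ} {P : Set Γ} (hfin : P.Finite)
    (hP : ∀ s ∈ P, IsOfFinAddOrder s) (h0 : (0 : Γ) ∉ P) (hneg : ∀ s ∈ P, -s ∉ P)
    (h : SmallOrArboricity P)
    (hab : ∀ i j : ℤ, i • a = j • b → i = 0) (hb0 : ∀ j : ℤ, j • b = 0 → j = 0) :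
    Nonempty (BlockData b a P) := by
  classical
  obtain ⟨htor, hTfin⟩ := closure_torsion hfin hP
  let T := AddSubgroup.closure P
  let P' : Set T := (fun x : T => (x : Γ)) ⁻¹' P
  have himg : P'.ncard = P.ncard := by
    rw [← Set.ncard_image_of_injective P' Subtype.val_injective]
    congr 1
    ext x
    constructor
    · rintro ⟨y, hy, rfl⟩
      exact hy
    · intro hx
      exact ⟨⟨x, AddSubgroup.subset_closure hx⟩, hx, rfl⟩
  have h0' : (0 : T) ∉ P' := fun h => h0 h
  have hneg' : ∀ s ∈ P', -s ∉ P' := fun s hs hs' => hneg s hs hs'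
  have hD : Nonempty (ForestData T P' (Fin (P'.ncard + 1)) (fun s => Equiv.addRight (s : T))) := by
    rcases h with h | h
    · exact forestData_of_ncard_le_two P' h0' hneg' (by rw [himg]; exact h)
    · exact forestData_of_linearForests P' h0' hneg' (by rw [himg]; exact h)
  obtain ⟨D⟩ := hD
  let N : AddSubgroup Γ := AddSubgroup.zmultiples a ⊔ AddSubgroup.zmultiples b
  have hN : ∀ x, x ∈ N ↔ ∃ i j : ℤ, x = i • a + j • b := by
    intro x
    rw [AddSubgroup.mem_sup]
    constructor
    · rintro ⟨y, hy, z, hz, rfl⟩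
      obtain ⟨i, rfl⟩ := AddSubgroup.mem_zmultiples_iff.1 hy
      obtain ⟨j, rfl⟩ := AddSubgroup.mem_zmultiples_iff.1 hz
      exact ⟨i, j, rfl⟩
    · rintro ⟨i, j, rfl⟩
      exact ⟨_, AddSubgroup.mem_zmultiples_iff.2 ⟨i, rfl⟩, _,
        AddSubgroup.mem_zmultiples_iff.2 ⟨j, rfl⟩, rfl⟩
  have hdisj : ∀ x ∈ N, x ∈ T → x = 0 := by
    intro x hx hxT
    obtain ⟨i, j, rfl⟩ := (hN x).1 hx
    obtain ⟨n, hn, hnx⟩ := isOfFinAddOrder_iff_zsmul_eq_zero.1 (htor _ hxT)
    have h1 : (n * i) • a = (-(n * j)) • b := by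
      rw [zsmul_add, smul_smul, smul_smul] at hnx
      rw [neg_smul]
      exact eq_neg_of_add_eq_zero_left hnx
    have h2 := hab _ _ h1
    have h3 : i = 0 := (mul_eq_zero.1 h2).resolve_left hn
    have h4 : (n * j) • b = 0 := by
      rw [h2, zero_smul] at h1
      have := h1.symm
      rwa [neg_smul, neg_eq_zero] at this
    have h5 := hb0 _ h4
    have h6 : j = 0 := (mul_eq_zero.1 h5).resolve_left hn
    rw [h3, h6]
    simp
  obtain ⟨π, hπ1, hπ2⟩ := exists_proj N T hdisj
  let e : P ≃ P' :=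
    { toFun := fun s => ⟨⟨s, AddSubgroup.subset_closure s.2⟩, s.2⟩
      invFun := fun s => ⟨s.1.1, s.2⟩
      left_inv := fun s => rfl
      right_inv := fun s => rfl }
  refine blockData_of_pullback D π e ?_ ?_ ?_
  · intro s x
    exact hπ2 x ⟨s, AddSubgroup.subset_closure s.2⟩
  · intro x
    exact hπ1 x a ((hN a).2 ⟨1, 0, by simp⟩)
  · intro x
    exact hπ1 x b ((hN b).2 ⟨0, 1, by simp⟩)

end

end Pool.Agent.Helper39.HD
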