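import Pool.Agent.Helper39.HD.Join

/-!
# Chains of far joins: merging inside a component
-/

namespace Pool.Agent.Helper39.HD

open Equiv

variable {V D : Type*} {G : SimpleGraph V} {ν0 : D → Perm V} {d : D} {y y' y0 y1 y2 z : V}
  {P0 P1 Q0 Q1 : V → Prop}

theorem AdjFar.left (h : AdjFar ν0 d y y') (hz : (ν0 d).SameCycle y z) : AdjFar ν0 d z y' := by
  obtain ⟨k, rfl⟩ := hz
  intro W hW N
  obtain ⟨i, j, hi, hj, d', hd, p', q', h1, h2⟩ := h W hW (N + k.natAbs)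
  refine ⟨(i - k).toNat, j, by omega, by omega, d', hd, p', q', ?_, h2⟩
  rw [← zpow_apply_add, Int.toNat_of_nonneg (by omega)]
  simpa using h1

theorem AdjFar.right (h : AdjFar ν0 d y y') (hz : (ν0 d).SameCycle y' z) : AdjFar ν0 d y z := by
  obtain ⟨k, rfl⟩ := hz
  intro W hW N
  obtain ⟨i, j, hi, hj, d', hd, p', q', h1, h2⟩ := h W hW (N + k.natAbs)
  refine ⟨i, (j + k).toNat, by omega, by omega, d', hd, p', q', ?_, h2⟩
  rw [← zpow_apply_add, Int.toNat_of_nonneg (by omega)]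
  simpa using h1

theorem Mer.mono (h : Mer G ν0 d P0 P1 y y') (h0 : ∀ z, P0 z → Q0 z) (h1 : ∀ z, P1 z → Q1 z) :
    Mer G ν0 d Q0 Q1 y y' := by
  intro ν hν B hB u v hu hv
  obtain ⟨ν', a1, a2, a3, a4⟩ := h ν hν B hB u v hu hv
  exact ⟨ν', a1, a2, a3, fun t ht z => ⟨fun hz => (a4 t ht z).1 fun h => hz (h0 z h),
    fun hz => (a4 t ht z).2 fun h => hz (h1 z h)⟩⟩

theorem Mer.left (h : Mer G ν0 d P0 P1 y y') (hz : (ν0 d).SameCycle y z) :
    Mer G ν0 d P0 P1 z y' := by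
  intro ν hν B hB u v hu hv
  exact h ν hν B hB u v (hu.right hz.symm) hv

theorem mer_of_adj (h00 : ∀ d, Aper (ν0 d)) (hadj : AdjFar ν0 d y y')
    (hP0 : ∀ z, (ν0 d).SameCycle z y → P0 z) (hP1 : ∀ z, (ν0 d).SameCycle z y' → P1 z) :
    Mer G ν0 d P0 P1 y y' := by
  intro ν hν B hB u v hu hv
  by_cases huv : (ν d).SameCycle u v
  · exact ⟨ν, hν, AgreeOn.refl _ _, huv, fun t _ z => ⟨fun _ h => h, fun _ h => h⟩⟩
  · obtain ⟨ν', a1, a2, a3, -, a4⟩ := far_join hν h00 hB hu hv huv hadj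
    exact ⟨ν', a1, a2, a3, fun t ht z => ⟨fun hz => (a4 t ht z).1 fun h => hz (hP0 z h),
      fun hz => (a4 t ht z).2 fun h => hz (hP1 z h)⟩⟩

theorem mer_step (h00 : ∀ d, Aper (ν0 d))
    (i0 : ∀ x y, (ν0 d).SameCycle x y → P0 x → P0 y)
    (i1 : ∀ x y, (ν0 d).SameCycle x y → P1 x → P1 y)
    (h01 : AdjFar ν0 d y0 y1) (h21 : AdjFar ν0 d y2 y1) (hM : Mer G ν0 d P0 P1 y2 y')
    (p0 : P0 y0) (p1 : P1 y1) (p2 : P0 y2) (p' : P1 y') : Mer G ν0 d P0 P1 y0 y' := by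
  by_cases c1 : (ν0 d).SameCycle y1 y'
  · exact mer_of_adj h00 (h01.right c1) (fun z hz => i0 _ _ hz.symm p0)
      (fun z hz => i1 _ _ hz.symm p')
  by_cases c2 : (ν0 d).SameCycle y2 y0
  · exact hM.left c2
  intro ν hν B hB u v hu hv
  obtain ⟨W, hW, hag⟩ := hν.fin
  -- step A
  have stepA : ∃ ν1, Good G ν0 ν1 ∧ AgreeOn (B ∪ {u, v}) ν ν1 ∧
      (∃ w, FT (ν1 d) (ν0 d) w y2 ∧ BT (ν1 d) (ν0 d) w y1) ∧
      ∀ t ∈ B ∪ {u, v}, ∀ z,
        (¬ (ν0 d).SameCycle z y2 → FT (ν d) (ν0 d) t z → FT (ν1 d) (ν0 d) t z) ∧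
        (¬ (ν0 d).SameCycle z y1 → BT (ν d) (ν0 d) t z → BT (ν1 d) (ν0 d) t z) := by
    obtain ⟨u2, hu2⟩ := FT.exists' (f := ν d) (h00 d) hW (fun x hx => (hag d x hx).1) y2
    obtain ⟨v1, hv1⟩ : ∃ v1, BT (ν d) (ν0 d) v1 y1 :=
      FT.exists' (f := (ν d)⁻¹) (h00 d).inv hW (fun x hx => (hag d x hx).2) y1
    by_cases hs : (ν d).SameCycle u2 v1
    · exact ⟨ν, hν, AgreeOn.refl _ _, ⟨u2, hu2, hv1.left hs.symm⟩,
        fun t _ z => ⟨fun _ h => h, fun _ h => h⟩⟩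
    · obtain ⟨ν1, a1, a2, -, a4, a5⟩ :=
        far_join hν h00 (hB.union (Set.toFinite {u, v})) hu2 hv1 hs h21
      exact ⟨ν1, a1, a2, a4, a5⟩
  obtain ⟨ν1, b1, b2, ⟨w, hw2, hw1⟩, b4⟩ := stepA
  have hu1 : FT (ν1 d) (ν0 d) u y0 :=
    (b4 u (by simp) y0).1 (fun h => c2 h.symm) hu
  have hv1 : BT (ν1 d) (ν0 d) v y' :=
    (b4 v (by simp) y').2 (fun h => c1 h.symm) hv
  -- step B
  have huw : ¬ (ν1 d).SameCycle u w := by
    intro h
    exact c2 (hw2.unique (hu1.left h))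
  obtain ⟨ν2, e1, e2, e3, -, e5⟩ :=
    far_join b1 h00 (hB.union (Set.toFinite {u, v, w})) hu1 hw1 huw h01
  have hw' : FT (ν2 d) (ν0 d) w y2 := (e5 w (by simp) y2).1 c2 hw2
  have hu2 : FT (ν2 d) (ν0 d) u y2 := hw'.left e3.symm
  have hv2 : BT (ν2 d) (ν0 d) v y' := (e5 v (by simp) y').2 (fun h => c1 h.symm) hv1
  -- step C
  obtain ⟨ν3, g1, g2, g3, g4⟩ := hM ν2 e1 B hB u v hu2 hv2
  refine ⟨ν3, g1, ?_, g3, ?_⟩
  · exact ((b2.mono Set.subset_union_left).trans (e2.mono Set.subset_union_left)).trans g2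
  · intro t ht z
    constructor
    · intro hz hft
      refine (g4 t ht z).1 hz ((e5 t (Or.inl ht) z).1 ?_ ((b4 t (Or.inl ht) z).1 ?_ hft))
      · intro h; exact hz (i0 _ _ h.symm p0)
      · intro h; exact hz (i0 _ _ h.symm p2)
    · intro hz hft
      refine (g4 t ht z).2 hz ((e5 t (Or.inl ht) z).2 ?_ ((b4 t (Or.inl ht) z).2 ?_ hft))
      · intro h; exact hz (i1 _ _ h.symm p1)
      · intro h; exact hz (i1 _ _ h.symm p1)

theorem mer_opp (h00 : ∀ d, Aper (ν0 d)) (P : V → Prop) (sgn : V → Bool)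
    (hP : ∀ x y, (ν0 d).SameCycle x y → P x → P y)
    (hs : ∀ x y, (ν0 d).SameCycle x y → sgn x = sgn y)
    (hconn : Relation.ReflTransGen (fun x y => P y ∧ ((ν0 d).SameCycle x y ∨
      (AdjFar ν0 d x y ∧ AdjFar ν0 d y x ∧ sgn x ≠ sgn y))) y y')
    (hy : P y) (hy' : P y') (hsgn : sgn y ≠ sgn y') :
    Mer G ν0 d (fun z => P z ∧ sgn z ≠ sgn y') (fun z => P z ∧ sgn z = sgn y') y y' := by
  have i0 : ∀ x z, (ν0 d).SameCycle x z → (P x ∧ sgn x ≠ sgn y') → (P z ∧ sgn z ≠ sgn y') :=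
    fun x z h hx => ⟨hP _ _ h hx.1, by rw [← hs _ _ h]; exact hx.2⟩
  have i1 : ∀ x z, (ν0 d).SameCycle x z → (P x ∧ sgn x = sgn y') → (P z ∧ sgn z = sgn y') :=
    fun x z h hx => ⟨hP _ _ h hx.1, by rw [← hs _ _ h]; exact hx.2⟩
  have key : P y → (sgn y ≠ sgn y' →
        Mer G ν0 d (fun z => P z ∧ sgn z ≠ sgn y') (fun z => P z ∧ sgn z = sgn y') y y') ∧
      (sgn y = sgn y' → ∀ x0, P x0 → AdjFar ν0 d x0 y → sgn x0 ≠ sgn y →
        Mer G ν0 d (fun z => P z ∧ sgn z ≠ sgn y') (fun z => P z ∧ sgn z = sgn y') x0 y') := by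
    clear hy hsgn
    induction hconn using Relation.ReflTransGen.head_induction_on with
    | refl =>
      intro hp
      refine ⟨fun h => absurd rfl h, fun _ x0 hx0 hadj hne => ?_⟩
      exact mer_of_adj h00 hadj (fun z hz => i0 _ _ hz.symm ⟨hx0, hne⟩)
        (fun z hz => i1 _ _ hz.symm ⟨hy', rfl⟩)
    | @head a c hac hcb ih =>
      intro ha
      have ih := ih hac.1
      rcases hac with ⟨hc, hac | ⟨h1, h2, h3⟩⟩
      · have hsac := hs _ _ hac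
        refine ⟨fun h => (ih.1 (by rwa [← hsac])).left hac.symm, fun h x0 hx0 hadj hne => ?_⟩
        exact ih.2 (by rwa [← hsac]) x0 hx0 (hadj.right hac) (by rwa [← hsac])
      · constructor
        · intro h
          have : sgn c = sgn y' := by
            revert h h3
            cases sgn a <;> cases sgn c <;> cases sgn y' <;> simp
          exact ih.2 this a ha h1 h3
        · intro h x0 hx0 hadj hne
          have hc' : sgn c ≠ sgn y' := by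
            rw [← h]; exact h3.symm
          exact mer_step h00 i0 i1 hadj h2 (ih.1 hc') ⟨hx0, by rwa [← h]⟩ ⟨ha, h⟩ ⟨hc, hc'⟩
            ⟨hy', rfl⟩
  exact (key hy).1 hsgn

/-- inside a component everything can be merged -/
theorem component_lemma (h00 : ∀ d, Aper (ν0 d))
    (d : D) (P : V → Prop) (sgn : V → Bool)
    (hP : ∀ x y, (ν0 d).SameCycle x y → P x → P y)
    (hs : ∀ x y, (ν0 d).SameCycle x y → sgn x = sgn y)
    (hconn : ∀ x y, P x → P y → Relation.ReflTransGen (fun x y => P y ∧ ((ν0 d).SameCycle x y ∨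
      (AdjFar ν0 d x y ∧ AdjFar ν0 d y x ∧ sgn x ≠ sgn y))) x y)
    (hfresh : ∀ x, P x → ∀ (s : Bool) (W : Set V), W.Finite → ∃ r, P r ∧ sgn r = s ∧
      ∀ k : ℤ, (ν0 d ^ k) r ∉ W)
    {y y' : V} (hy : P y) (hy' : P y') : Mer G ν0 d P P y y' := by
  have opp : ∀ a b, P a → P b → sgn a ≠ sgn b →
      Mer G ν0 d (fun z => P z ∧ sgn z ≠ sgn b) (fun z => P z ∧ sgn z = sgn b) a b :=
    fun a b ha hb hab => mer_opp h00 P sgn hP hs (hconn a b ha hb) ha hb hab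
  by_cases hyy : sgn y = sgn y'
  · intro ν hν B hB u v hu hv
    obtain ⟨W, hW, hag⟩ := hν.fin
    obtain ⟨r, hr, hrs, hrW⟩ := hfresh y hy (!sgn y) W hW
    have e1 : ∀ k : ℤ, (ν d ^ k) r = (ν0 d ^ k) r :=
      zpow_eq_of_avoid (fun x hx => (hag d x hx).1) (fun x hx => (hag d x hx).2) hrW
    have hfr : FT (ν d) (ν0 d) r r := FT.refl_of fun n => e1 n
    have hbr : BT (ν d) (ν0 d) r r := by
      refine FT.refl_of fun n => ?_
      rw [inv_zpow, inv_zpow, ← zpow_neg, ← zpow_neg]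
      exact e1 _
    have hyr : sgn y ≠ sgn r := by rw [hrs]; cases sgn y <;> simp
    obtain ⟨ν1, a1, a2, a3, a4⟩ := opp y r hy hr hyr ν hν (B ∪ {u, v, r})
      (hB.union (Set.toFinite _)) u r hu hbr
    have hfr1 : FT (ν1 d) (ν0 d) r r := (a4 r (by simp) r).1 (by simp) hfr
    have hv1 : BT (ν1 d) (ν0 d) v y' := (a4 v (by simp) y').2
      (fun h => hyr (hyy.trans h.2)) hv
    have hu1 : FT (ν1 d) (ν0 d) u r := hfr1.left a3.symm
    obtain ⟨ν2, b1, b2, b3, b4⟩ := opp r y' hr hy' (by rw [← hyy]; exact hyr.symm) ν1 a1 B hB u v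
      hu1 hv1
    refine ⟨ν2, b1, (a2.mono Set.subset_union_left).trans b2, b3, fun t ht z => ⟨?_, ?_⟩⟩
    · intro hz hft
      exact (b4 t ht z).1 (fun h => hz h.1) ((a4 t (Or.inl ht) z).1 (fun h => hz h.1) hft)
    · intro hz hft
      exact (b4 t ht z).2 (fun h => hz h.1) ((a4 t (Or.inl ht) z).2 (fun h => hz h.1) hft)
  · exact (opp y y' hy hy' hyy).mono (fun z h => h.1) (fun z h => h.1)

end Pool.Agent.Helper39.HD
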