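import Mathlib

/-!
# Labelled forest data
-/

namespace Pool.Agent.Helper39.HD

open Equiv

/-- signed step: label `l` forwards (`true`) or backwards (`false`) -/
def stp {X L : Type*} (act : L → Perm X) (l : L × Bool) : Perm X :=
  if l.2 then act l.1 else (act l.1)⁻¹

/-- A decomposition of the arcs `x → act l x` into directed linear forests indexed by `K`, in such
a way that at every point exactly one forest has no next arc and exactly one forest has no previous
arc. A path may run through an arc forwards (`(l, true)`) or backwards (`(l, false)`). -/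
structure ForestData (X L K : Type*) (act : L → Perm X) where
  nx : K → X → Option (L × Bool)
  pv : K → X → Option (L × Bool)
  inv : ∀ k x l β, nx k x = some (l, β) ↔ pv k (stp act (l, β) x) = some (l, !β)
  dart : ∀ x (l : L × Bool), ∃! p : K × Bool, (if p.2 then nx p.1 x else pv p.1 x) = some l
  nx_none : ∀ x, ∃! k, nx k x = none
  pv_none : ∀ x, ∃! k, pv k x = none
  wf_nx : ∀ k, WellFounded (fun y x => ∃ l, nx k x = some l ∧ y = stp act l x)
  wf_pv : ∀ k, WellFounded (fun y x => ∃ l, pv k x = some l ∧ y = stp act l x)

/-- a linear forest: a graph without cycles in which all degrees are at most two -/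
def IsLinearForest {V : Type*} (F : SimpleGraph V) : Prop :=
  F.IsAcyclic ∧ ∀ v, (F.neighborSet v).encard ≤ 2

/-- the edge set of `G` can be partitioned into `n` linear forests -/
def LinearForestDecomposable {V : Type*} (G : SimpleGraph V) (n : ℕ) : Prop :=
  ∃ F : Fin n → SimpleGraph V, (∀ i, IsLinearForest (F i)) ∧ (∀ i, F i ≤ G) ∧
    ∀ x y, G.Adj x y → ∃! i, (F i).Adj x y

end Pool.Agent.Helper39.HD
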