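import Pool.Agent.Helper39.HD.Switch

/-!
# Switching two colours of a good state
-/

namespace Pool.Agent.Helper39.HD

open Equiv

variable {V D : Type*} {G : SimpleGraph V} {ν0 ν ν' ν'' : D → Perm V}

theorem AgreeOn.trans {B : Set V} (h : AgreeOn B ν ν') (h' : AgreeOn B ν' ν'') :
    AgreeOn B ν ν'' := fun d x hx =>
  ⟨(h' d x hx).1.trans (h d x hx).1, (h' d x hx).2.trans (h d x hx).2⟩

theorem AgreeOn.mono {B B' : Set V} (h : AgreeOn B ν ν') (hB : B' ⊆ B) : AgreeOn B' ν ν' :=
  fun d x hx => h d x (hB hx)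

theorem AgreeOn.refl (B : Set V) (ν : D → Perm V) : AgreeOn B ν ν := fun _ _ _ => ⟨rfl, rfl⟩

theorem AgreeOn.symm {B : Set V} (h : AgreeOn B ν ν') : AgreeOn B ν' ν :=
  fun d x hx => ⟨(h d x hx).1.symm, (h d x hx).2.symm⟩

open Classical in
theorem sw_self' {d d' : D} (p q p' q' : V) : sw ν d d' p q p' q' d' = ν d' * swap p' q' := by
  simp [sw]

open Classical in
theorem sw_self {d d' : D} (hd : d' ≠ d) (p q p' q' : V) :
    sw ν d d' p q p' q' d = ν d * swap p q := by
  simp [sw, Function.update_of_ne hd.symm]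

open Classical in
theorem sw_of_ne {d d' e : D} (h : e ≠ d) (h' : e ≠ d') (p q p' q' : V) :
    sw ν d d' p q p' q' e = ν e := by
  simp [sw, Function.update_of_ne h, Function.update_of_ne h']

open Classical in
theorem mul_swap_agree {f : Perm V} {p q x : V} (h1 : x ≠ p) (h2 : x ≠ q) (h3 : x ≠ f p)
    (h4 : x ≠ f q) : (f * swap p q) x = f x ∧ (f * swap p q)⁻¹ x = f⁻¹ x := by
  constructor
  · rw [Perm.mul_apply, swap_apply_of_ne_of_ne h1 h2]
  · rw [mul_inv_rev, swap_inv, Perm.mul_apply, swap_apply_of_ne_of_ne]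
    · intro h; apply h3; rw [← h]; simp
    · intro h; apply h4; rw [← h]; simp

theorem agreeOn_sw {d d' : D} (hd : d' ≠ d) {p q p' q' : V} {B : Set V} (h1 : p ∉ B) (h2 : q ∉ B)
    (h3 : ν d p ∉ B) (h4 : ν d q ∉ B) (h1' : p' ∉ B) (h2' : q' ∉ B)
    (h3' : ν d' p' ∉ B) (h4' : ν d' q' ∉ B) : AgreeOn B ν (sw ν d d' p q p' q') := by
  intro e x hx
  have hne : ∀ {z}, z ∉ B → x ≠ z := fun hz h => hz (h ▸ hx)
  by_cases h : e = d'
  · subst h
    rw [sw_self']
    exact mul_swap_agree (hne h1') (hne h2') (hne h3') (hne h4')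
  · by_cases h' : e = d
    · subst h'
      rw [sw_self hd]
      exact mul_swap_agree (hne h1) (hne h2) (hne h3) (hne h4)
    · rw [sw_of_ne h' h]
      exact ⟨rfl, rfl⟩

open Classical in
theorem edge_sw {d d' : D} (hd : d' ≠ d) {p q p' q' : V} (he : Exch ν d d' p q p' q')
    (hpq : p ≠ q) (hpq' : p' ≠ q') :
    ∃ π : Perm (D × V), edge (sw ν d d' p q p' q') = edge ν ∘ π := by
  obtain ⟨h1, h2, h3⟩ := he
  have key : ∀ π : Perm (D × V), π (d, p) = (d', p') → π (d, q) = (d', q') →
      (s(p', ν d' q') = edge ν (π (d', p'))) → (s(q', ν d' p') = edge ν (π (d', q'))) →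
      (∀ e x, (e, x) ≠ (d, p) → (e, x) ≠ (d, q) → (e, x) ≠ (d', p') → (e, x) ≠ (d', q') →
        π (e, x) = (e, x)) → edge (sw ν d d' p q p' q') = edge ν ∘ π := by
    intro π a1 a2 a3 a4 a5
    funext ⟨e, x⟩
    change s(x, sw ν d d' p q p' q' e x) = edge ν (π (e, x))
    by_cases h : e = d'
    · subst h
      rw [sw_self', Perm.mul_apply]
      by_cases hx : x = p'
      · subst hx
        rw [swap_apply_left, a3]
      · by_cases hx' : x = q'
        · subst hx'
          rw [swap_apply_right, a4]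
        · rw [swap_apply_of_ne_of_ne hx hx', a5]
          · rfl
          · simp [hd]
          · simp [hd]
          · simp [hx]
          · simp [hx']
    · by_cases h' : e = d
      · subst h'
        rw [sw_self hd, Perm.mul_apply]
        by_cases hx : x = p
        · subst hx
          rw [swap_apply_left, a1, h1]; rfl
        · by_cases hx' : x = q
          · subst hx'
            rw [swap_apply_right, a2, h2]; rfl
          · rw [swap_apply_of_ne_of_ne hx hx', a5]
            · rfl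
            · simp [hx]
            · simp [hx']
            · simp [h]
            · simp [h]
      · rw [sw_of_ne h' h, a5]
        · rfl
        · simp [h']
        · simp [h']
        · simp [h]
        · simp [h]
  have n1 : (d, p) ≠ (d', p') := by simp [hd.symm]
  have n2 : (d, p) ≠ (d', q') := by simp [hd.symm]
  have n3 : (d, q) ≠ (d', p') := by simp [hd.symm]
  have n4 : (d, q) ≠ (d', q') := by simp [hd.symm]
  have n5 : (d, p) ≠ (d, q) := by simp [hpq]
  have n6 : (d', p') ≠ (d', q') := by simp [hpq']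
  rcases h3 with ⟨h3, h4⟩ | ⟨h3, h4⟩
  · refine ⟨swap (d, p) (d', p') * swap (d, q) (d', q'), key _ ?_ ?_ ?_ ?_ ?_⟩
    · rw [Perm.mul_apply, swap_apply_of_ne_of_ne n5 n2, swap_apply_left]
    · rw [Perm.mul_apply, swap_apply_left, swap_apply_of_ne_of_ne n2.symm n6.symm]
    · rw [Perm.mul_apply, swap_apply_of_ne_of_ne n3.symm n6, swap_apply_right, h3]; rfl
    · rw [Perm.mul_apply, swap_apply_right, swap_apply_of_ne_of_ne n5.symm n3, h4]; rfl
    · intro e x b1 b2 b3 b4
      rw [Perm.mul_apply, swap_apply_of_ne_of_ne b2 b4, swap_apply_of_ne_of_ne b1 b3]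
  · refine ⟨swap (d, p) (d', p') * swap (d, q) (d', q') * swap (d', p') (d', q'),
      key _ ?_ ?_ ?_ ?_ ?_⟩
    · rw [Perm.mul_apply, swap_apply_of_ne_of_ne n1 n2, Perm.mul_apply,
        swap_apply_of_ne_of_ne n5 n2, swap_apply_left]
    · rw [Perm.mul_apply, swap_apply_of_ne_of_ne n3 n4, Perm.mul_apply, swap_apply_left,
        swap_apply_of_ne_of_ne n2.symm n6.symm]
    · rw [Perm.mul_apply, swap_apply_left, Perm.mul_apply, swap_apply_right,
        swap_apply_of_ne_of_ne n5.symm n3, h3]; rfl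
    · rw [Perm.mul_apply, swap_apply_right, Perm.mul_apply, swap_apply_of_ne_of_ne n3.symm n6,
        swap_apply_right, h4]; rfl
    · intro e x b1 b2 b3 b4
      rw [Perm.mul_apply, swap_apply_of_ne_of_ne b3 b4, Perm.mul_apply,
        swap_apply_of_ne_of_ne b2 b4, swap_apply_of_ne_of_ne b1 b3]

open Classical in
theorem Good.switch (h : Good G ν0 ν) {d d' : D} (hd : d' ≠ d) {p q p' q' : V}
    (he : Exch ν d d' p q p' q') (h1 : ¬ (ν d).SameCycle p q) (h2 : ¬ (ν d').SameCycle p' q') :
    Good G ν0 (sw ν d d' p q p' q') := by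
  have hpq : p ≠ q := fun hh => h1 (hh ▸ Perm.SameCycle.refl _ _)
  have hpq' : p' ≠ q' := fun hh => h2 (hh ▸ Perm.SameCycle.refl _ _)
  obtain ⟨π, hπ⟩ := edge_sw hd he hpq hpq'
  refine ⟨?_, ?_, ?_, ?_⟩
  · intro e
    by_cases he : e = d'
    · subst he
      rw [sw_self']
      exact aper_swap (h.aper _) h2
    · by_cases he' : e = d
      · subst he'
        rw [sw_self hd]
        exact aper_swap (h.aper _) h1
      · rw [sw_of_ne he' he]
        exact h.aper _
  · rw [hπ]
    exact h.inj.comp π.injective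
  · rw [hπ, π.surjective.range_comp, h.range]
  · obtain ⟨W, hW, hag⟩ := h.fin
    refine ⟨W ∪ {p, q, ν d p, ν d q, p', q', ν d' p', ν d' q'}, hW.union (Set.toFinite _), ?_⟩
    refine (hag.mono ?_).trans (agreeOn_sw hd ?_ ?_ ?_ ?_ ?_ ?_ ?_ ?_)
    · intro x hx hx'
      exact hx (Or.inl hx')
    all_goals simp

end Pool.Agent.Helper39.HD
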