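import Pool.Agent.Helper39.HD.GoodSwitch

/-!
# Joining two double rays far away
-/

namespace Pool.Agent.Helper39.HD

open Equiv

section single

variable {V : Type*} {f f0 : Perm V} {u v y y' : V}

open Classical in
theorem single_join (hf : Aper f) (h0 : Aper f0) {B : Set V} (hB : B.Finite)
    (hu : FT f f0 u y) (hv : BT f f0 v y') (huv : ¬ f.SameCycle u v) :
    ∃ N : ℕ, ∀ i j : ℕ, N ≤ i → N ≤ j → ∀ p q : V, p = (f0 ^ (i : ℤ)) y →
      q = (f0 ^ (-(j : ℤ))) y' →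
      f p = f0 p ∧ f q = f0 q ∧ p ∉ B ∧ q ∉ B ∧ f p ∉ B ∧ f q ∉ B ∧ ¬ f.SameCycle p q ∧
      (f * swap p q).SameCycle u v ∧ FT (f * swap p q) f0 q y ∧ BT (f * swap p q) f0 q y' ∧
      ∀ t ∈ B, ∀ z, (¬ f0.SameCycle z y → FT f f0 t z → FT (f * swap p q) f0 t z) ∧
        (¬ f0.SameCycle z y' → BT f f0 t z → BT (f * swap p q) f0 t z) := by
  have hu0 := hu
  have hv0 := hv
  obtain ⟨i0, j0, hu⟩ := hu
  obtain ⟨i1, j1, hv⟩ := hv
  obtain ⟨N1, hN1⟩ := h0.leave y hB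
  obtain ⟨N2, hN2⟩ := h0.inv.leave y' hB
  refine ⟨N1 + N2 + j0.natAbs + j1.natAbs + i0.natAbs + i1.natAbs + 2, ?_⟩
  intro i j hi hj p q hp hq
  -- the forward tail of `u` through `p`
  have hp1 : ∀ n : ℕ, (f ^ (i0 + (i - j0) + n)) u = (f0 ^ ((i : ℤ) + n)) y := by
    intro n
    have := hu ((i - j0).toNat + n)
    have e1 : i0 + (((i - j0).toNat + n : ℕ) : ℤ) = i0 + (i - j0) + n := by push_cast; omega
    have e2 : j0 + (((i - j0).toNat + n : ℕ) : ℤ) = (i : ℤ) + n := by push_cast; omega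
    rw [e1, e2] at this
    exact this
  set a : ℤ := i0 + (i - j0) with ha
  have hpu : p = (f ^ a) u := by
    have := hp1 0
    simp only [Nat.cast_zero, add_zero] at this
    rw [this, hp]
  have hpn : ∀ n : ℕ, (f ^ (n : ℤ)) p = (f0 ^ ((i : ℤ) + n)) y := by
    intro n
    rw [← hp1, hpu, ← zpow_apply_add, add_comm]
  -- the backward tail of `v` through `q`
  have hq1 : ∀ n : ℕ, (f ^ (-(i1 + (j - j1) + n))) v = (f0 ^ (-((j : ℤ) + n))) y' := by
    intro n
    have := hv ((j - j1).toNat + n)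
    have e1 : i1 + (((j - j1).toNat + n : ℕ) : ℤ) = i1 + (j - j1) + n := by push_cast; omega
    have e2 : j1 + (((j - j1).toNat + n : ℕ) : ℤ) = (j : ℤ) + n := by push_cast; omega
    rw [e1, e2] at this
    rw [zpow_neg, zpow_neg, ← inv_zpow, ← inv_zpow]
    exact this
  have hq1' : (f ^ (-(i1 + (j - j1) - 1))) v = (f0 ^ (-((j : ℤ) - 1))) y' := by
    have := hv (j - 1 - j1).toNat
    have e1 : i1 + (((j - 1 - j1).toNat : ℕ) : ℤ) = i1 + (j - j1) - 1 := by push_cast; omega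
    have e2 : j1 + (((j - 1 - j1).toNat : ℕ) : ℤ) = (j : ℤ) - 1 := by push_cast; omega
    rw [e1, e2] at this
    rw [zpow_neg, zpow_neg, ← inv_zpow, ← inv_zpow]
    exact this
  set m : ℤ := i1 + (j - j1) with hm
  have hqv : q = (f ^ (-m)) v := by
    have := hq1 0
    simp only [Nat.cast_zero, add_zero] at this
    rw [this, hq]
  have hqn : ∀ n : ℕ, (f ^ (-(n : ℤ))) q = (f0 ^ (-((j : ℤ) + n))) y' := by
    intro n
    rw [← hq1, hqv, ← zpow_apply_add]
    congr 2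
    ring
  have hfp : f p = (f0 ^ ((i : ℤ) + 1)) y := by
    have := hpn 1
    simpa using this
  have hfq : f q = (f0 ^ (-((j : ℤ) - 1))) y' := by
    rw [← hq1', hqv, apply_zpow]
    congr 2
    ring
  have hu_p : f.SameCycle u p := ⟨a, hpu.symm⟩
  have hv_q : f.SameCycle v q := ⟨-m, hqv.symm⟩
  have hpq : ¬ f.SameCycle p q := fun h => huv (hu_p.trans (h.trans hv_q.symm))
  have hqp : ¬ f.SameCycle q p := fun h => hpq h.symm
  have ha0 : 0 ≤ a := by omega
  have hm1 : 1 ≤ m := by omega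
  have hyB : ∀ n : ℤ, (i : ℤ) ≤ n → (f0 ^ n) y ∉ B := by
    intro n hn
    have := hN1 n.toNat (by omega)
    rwa [Int.toNat_of_nonneg (by omega)] at this
  have hyB' : ∀ n : ℤ, (j : ℤ) - 1 ≤ n → (f0 ^ (-n)) y' ∉ B := by
    intro n hn
    have := hN2 n.toNat (by omega)
    rwa [Int.toNat_of_nonneg (by omega), inv_zpow, ← zpow_neg] at this
  set g := f * swap p q with hg
  -- basic facts on `g`
  have g1 : ∀ n : ℕ, 1 ≤ n → (g ^ (n : ℤ)) p = (f ^ (n : ℤ)) q := by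
    intro n hn
    rw [zpow_natCast, zpow_natCast]
    exact swap_fwd hf hpq n hn
  have g2 : ∀ n : ℕ, 1 ≤ n → (g ^ (n : ℤ)) q = (f ^ (n : ℤ)) p := by
    intro n hn
    rw [zpow_natCast, zpow_natCast, hg, swap_comm]
    exact swap_fwd hf hqp n hn
  have g3 : ∀ n : ℕ, (g ^ (-(n : ℤ))) p = (f ^ (-(n : ℤ))) p := by
    intro n
    rw [zpow_neg, zpow_neg, zpow_natCast, zpow_natCast, ← inv_pow, ← inv_pow]
    exact swap_bwd hf hpq n
  have g4 : ∀ n : ℕ, (g ^ (-(n : ℤ))) q = (f ^ (-(n : ℤ))) q := by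
    intro n
    rw [zpow_neg, zpow_neg, zpow_natCast, zpow_natCast, ← inv_pow, ← inv_pow, hg, swap_comm]
    exact swap_bwd hf hqp n
  refine ⟨?_, ?_, ?_, ?_, ?_, ?_, hpq, ?_, ?_, ?_, ?_⟩
  · rw [hfp, hp, apply_zpow]
  · rw [hfq, hq, apply_zpow]
    congr 2
    ring
  · rw [hp]; exact hyB _ le_rfl
  · rw [hq]; exact hyB' _ (by omega)
  · rw [hfp]; exact hyB _ (by omega)
  · rw [hfq]; exact hyB' _ le_rfl
  · -- same cycle
    have h1 : g.SameCycle u p := by
      refine Perm.SameCycle.symm ⟨-((a.toNat : ℕ) : ℤ), ?_⟩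
      rw [g3, Int.toNat_of_nonneg ha0, hpu, ← zpow_apply_add]
      simp
    have h2 : g.SameCycle p v := by
      refine ⟨((m.toNat : ℕ) : ℤ), ?_⟩
      rw [g1 _ (by omega), Int.toNat_of_nonneg (by omega), hqv, ← zpow_apply_add]
      simp
    exact h1.trans h2
  · refine ⟨1, i + 1, fun n => ?_⟩
    have := g2 (n + 1) (by omega)
    push_cast at this
    rw [add_comm (1 : ℤ), this]
    have h3 := hpn (n + 1)
    push_cast at h3
    rw [h3]
    congr 2
    ring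
  · refine ⟨0, j, fun n => ?_⟩
    rw [inv_zpow, inv_zpow, ← zpow_neg, ← zpow_neg, zero_add, g4, hqn]
  · intro t ht z
    constructor
    · intro hz hft
      have h1 : ∀ n : ℕ, (f ^ n) t ≠ p := by
        intro n hn
        apply hz
        have h2 : FT f f0 t y := hu0.left (hu_p.trans (by rw [← hn]; exact (sameCycle_pow n).symm))
        exact hft.unique h2
      have h2 : ∀ n : ℕ, (f ^ n) t ≠ q := by
        intro n hn
        have h3 : t = (f ^ (-(n : ℤ))) q := by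
          rw [← hn, zpow_neg, zpow_natCast]
          simp
        rw [hqn] at h3
        exact hyB' _ (by omega) (h3 ▸ ht)
      obtain ⟨i2, j2, hi2, h3⟩ := hft.large 0
      refine ⟨i2, j2, fun n => ?_⟩
      rw [← h3]
      have e : i2 + n = (((i2 + n).toNat : ℕ) : ℤ) := by omega
      rw [e, zpow_natCast, zpow_natCast]
      exact mul_swap_pow_of_avoid t _ fun k _ => ⟨h1 k, h2 k⟩
    · intro hz hbt
      have h1 : ∀ n : ℕ, (f⁻¹ ^ n) t ≠ q := by
        intro n hn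
        apply hz
        have h2 : BT f f0 t y' :=
          hv0.left (hv_q.trans (by rw [← hn]; exact (sameCycle_inv_pow n).symm))
        exact hbt.unique h2
      have h2 : ∀ n : ℕ, (f⁻¹ ^ n) t ≠ p := by
        intro n hn
        have h3 : t = (f ^ (n : ℤ)) p := by
          rw [← hn, inv_pow, zpow_natCast]
          simp
        rw [hpn] at h3
        exact hyB _ (by omega) (h3 ▸ ht)
      obtain ⟨i2, j2, hi2, h3⟩ := FT.large hbt 0
      refine ⟨i2, j2, fun n => ?_⟩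
      rw [← h3]
      have e : i2 + n = (((i2 + n).toNat : ℕ) : ℤ) := by omega
      rw [e, zpow_natCast, zpow_natCast]
      exact mul_swap_inv_pow_of_avoid t _ fun k _ => ⟨h2 _, h1 _⟩

end single

section join

variable {V D : Type*} {G : SimpleGraph V} {ν0 ν : D → Perm V}

/-- if the standard orbit of `p` avoids the set where `f` and `f0` differ, it is an `f`-orbit -/
theorem zpow_eq_of_avoid {f f0 : Perm V} {W : Set V} (h : ∀ x ∉ W, f x = f0 x)
    (h' : ∀ x ∉ W, f⁻¹ x = f0⁻¹ x) {p : V} (hp : ∀ k : ℤ, (f0 ^ k) p ∉ W) (k : ℤ) :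
    (f ^ k) p = (f0 ^ k) p := by
  induction k using Int.induction_on with
  | zero => simp
  | succ n ih =>
    rw [add_comm, zpow_apply_add, zpow_apply_add, ih, zpow_one, zpow_one]
    exact h _ (hp _)
  | pred n ih =>
    rw [sub_eq_neg_add, zpow_apply_add, zpow_apply_add, ih, zpow_neg_one, zpow_neg_one]
    exact h' _ (hp _)

theorem far_join (h : Good G ν0 ν) (h00 : ∀ d, Aper (ν0 d))
    {B : Set V} (hB : B.Finite) {d : D} {u v y y' : V} (hu : FT (ν d) (ν0 d) u y)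
    (hv : BT (ν d) (ν0 d) v y') (huv : ¬ (ν d).SameCycle u v) (hadj : AdjFar ν0 d y y') :
    ∃ ν', Good G ν0 ν' ∧ AgreeOn B ν ν' ∧ (ν' d).SameCycle u v ∧
      (∃ w, FT (ν' d) (ν0 d) w y ∧ BT (ν' d) (ν0 d) w y') ∧
      ∀ t ∈ B, ∀ z, (¬ (ν0 d).SameCycle z y → FT (ν d) (ν0 d) t z → FT (ν' d) (ν0 d) t z) ∧
        (¬ (ν0 d).SameCycle z y' → BT (ν d) (ν0 d) t z → BT (ν' d) (ν0 d) t z) := by
  classical
  obtain ⟨W, hW, hag⟩ := h.fin
  obtain ⟨N, hN⟩ := single_join (h.aper d) (h00 d) hB hu hv huv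
  obtain ⟨i, j, hi, hj, d', hd, p', q', hex, hpq', hp', hq'⟩ := hadj (W ∪ B) (hW.union hB) N
  obtain ⟨a1, a2, a3, a4, a5, a6, a7, a8, a9, a10, a11⟩ := hN i j hi hj _ _ rfl rfl
  set p := (ν0 d ^ (i : ℤ)) y
  set q := (ν0 d ^ (-(j : ℤ))) y'
  have hag1 : ∀ x ∉ W, ν d' x = ν0 d' x := fun x hx => (hag d' x hx).1
  have hag2 : ∀ x ∉ W, (ν d')⁻¹ x = (ν0 d')⁻¹ x := fun x hx => (hag d' x hx).2
  have b1 : ν d' p' = ν0 d' p' := hag1 _ fun hx => hp' 0 (Or.inl (by simpa using hx))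
  have b2 : ν d' q' = ν0 d' q' := hag1 _ fun hx => hq' 0 (Or.inl (by simpa using hx))
  have c1 : ∀ k : ℤ, (ν d' ^ k) p' = (ν0 d' ^ k) p' :=
    zpow_eq_of_avoid hag1 hag2 fun k hk => hp' k (Or.inl hk)
  have hpq2 : ¬ (ν d').SameCycle p' q' := by
    rintro ⟨k, hk⟩
    exact hpq' ⟨k, by rw [← c1, hk]⟩
  have hex' : Exch ν d d' p q p' q' := by
    obtain ⟨e1, e2, e3⟩ := hex
    refine ⟨?_, ?_, ?_⟩
    · rw [a2, b1]; exact e1
    · rw [a1, b2]; exact e2
    · rw [a1, a2, b1, b2]; exact e3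
  refine ⟨sw ν d d' p q p' q', h.switch hd hex' a7 hpq2, ?_, ?_, ?_, ?_⟩
  · apply agreeOn_sw hd a3 a4 a5 a6
    · intro hx; exact hp' 0 (Or.inr (by simpa using hx))
    · intro hx; exact hq' 0 (Or.inr (by simpa using hx))
    · intro hx; rw [b1] at hx; exact hp' 1 (Or.inr (by simpa using hx))
    · intro hx; rw [b2] at hx; exact hq' 1 (Or.inr (by simpa using hx))
  · rw [sw_self hd]; convert a8
  · rw [sw_self hd]; exact ⟨q, by convert a9, by convert a10⟩
  · rw [sw_self hd]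
    convert a11

end join

end Pool.Agent.Helper39.HD
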