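import Pool.Agent.Helper39.HD.Basic

/-!
# The limit lemma (M1)
-/

namespace Pool.Agent.Helper39.HD

open Equiv Filter

section aux

variable {V D : Type*}

/-- one permutation agrees with another one on a set, forwards and backwards -/
private def Ag (B : Set V) (f f' : Perm V) : Prop := ∀ x ∈ B, f' x = f x ∧ f'⁻¹ x = f⁻¹ x

private theorem pow_agree {B : Set V} {f f' : Perm V} (h : Ag B f f') (u : V) (n : ℕ)
    (hB : ∀ j : ℤ, |j| ≤ (n : ℤ) → (f ^ j) u ∈ B) :
    ∀ m : ℕ, m ≤ n → (f' ^ (m : ℤ)) u = (f ^ (m : ℤ)) u ∧ (f' ^ (-(m : ℤ))) u = (f ^ (-(m : ℤ))) u := by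
  intro m
  induction m with
  | zero => intro _; simp
  | succ m ih =>
    intro hm
    obtain ⟨h1, h2⟩ := ih (by omega)
    have a1 : ∀ g : Perm V, (g ^ ((m + 1 : ℕ) : ℤ)) u = g ((g ^ (m : ℤ)) u) := by
      intro g
      have : ((m + 1 : ℕ) : ℤ) = 1 + (m : ℤ) := by push_cast; ring
      rw [this, zpow_add, zpow_one, Perm.mul_apply]
    have a2 : ∀ g : Perm V, (g ^ (-((m + 1 : ℕ) : ℤ))) u = g⁻¹ ((g ^ (-(m : ℤ))) u) := by
      intro g
      have : (-((m + 1 : ℕ) : ℤ)) = -1 + (-(m : ℤ)) := by push_cast; ring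
      rw [this, zpow_add, zpow_neg_one, Perm.mul_apply]
    constructor
    · rw [a1, a1, h1]
      exact (h _ (hB _ (by rw [abs_of_nonneg (by positivity)]; exact_mod_cast (by omega)))).1
    · rw [a2, a2, h2]
      exact (h _ (hB _ (by rw [abs_neg, abs_of_nonneg (by positivity)]; exact_mod_cast (by omega)))).2

private theorem zpow_agree {B : Set V} {f f' : Perm V} (h : Ag B f f') (u : V) (i : ℤ)
    (hB : ∀ j : ℤ, |j| ≤ |i| → (f ^ j) u ∈ B) : (f' ^ i) u = (f ^ i) u := by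
  have hn := pow_agree h u i.natAbs (by
    intro j hj
    exact hB j (by rwa [Int.abs_eq_natAbs i]))
  obtain ⟨h1, h2⟩ := hn i.natAbs le_rfl
  rcases Int.natAbs_eq i with hi | hi
  · rw [hi]; exact h1
  · rw [hi]; exact h2

private theorem eventually_pow {f : ℕ → Perm V} {F : Perm V}
    (h1 : ∀ x, ∀ᶠ k in atTop, f k x = F x) (h2 : ∀ x, ∀ᶠ k in atTop, (f k)⁻¹ x = F⁻¹ x)
    (u : V) (m : ℕ) : (∀ᶠ k in atTop, (f k ^ (m : ℤ)) u = (F ^ (m : ℤ)) u) ∧
      ∀ᶠ k in atTop, (f k ^ (-(m : ℤ))) u = (F ^ (-(m : ℤ))) u := by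
  induction m with
  | zero => simp
  | succ m ih =>
    obtain ⟨i1, i2⟩ := ih
    have a1 : ∀ g : Perm V, (g ^ ((m + 1 : ℕ) : ℤ)) u = g ((g ^ (m : ℤ)) u) := by
      intro g
      have : ((m + 1 : ℕ) : ℤ) = 1 + (m : ℤ) := by push_cast; ring
      rw [this, zpow_add, zpow_one, Perm.mul_apply]
    have a2 : ∀ g : Perm V, (g ^ (-((m + 1 : ℕ) : ℤ))) u = g⁻¹ ((g ^ (-(m : ℤ))) u) := by
      intro g
      have : (-((m + 1 : ℕ) : ℤ)) = -1 + (-(m : ℤ)) := by push_cast; ring
      rw [this, zpow_add, zpow_neg_one, Perm.mul_apply]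
    constructor
    · filter_upwards [i1, h1 ((F ^ (m : ℤ)) u)] with k hk hk'
      rw [a1, a1, hk, hk']
    · filter_upwards [i2, h2 ((F ^ (-(m : ℤ))) u)] with k hk hk'
      rw [a2, a2, hk, hk']

private theorem eventually_zpow {f : ℕ → Perm V} {F : Perm V}
    (h1 : ∀ x, ∀ᶠ k in atTop, f k x = F x) (h2 : ∀ x, ∀ᶠ k in atTop, (f k)⁻¹ x = F⁻¹ x)
    (u : V) (i : ℤ) : ∀ᶠ k in atTop, (f k ^ i) u = (F ^ i) u := by
  obtain ⟨a, b⟩ := eventually_pow h1 h2 u i.natAbs
  rcases Int.natAbs_eq i with hi | hi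
  · rw [hi]; exact a
  · rw [hi]; exact b

end aux

theorem limit_lemma {V D : Type*} [Countable V] [Nonempty V] [Countable D] (G : SimpleGraph V)
    (ν0 : D → Perm V) (h0 : Good G ν0 ν0)
    (H : ∀ ν, Good G ν0 ν → ∀ B : Set V, B.Finite → ∀ d u v,
      ∃ ν', Good G ν0 ν' ∧ AgreeOn B ν ν' ∧ (ν' d).SameCycle u v) :
    ∃ f : D → ℤ → V, (∀ d, Function.Bijective (f d)) ∧ (∀ d n, G.Adj (f d n) (f d (n + 1))) ∧
      ∀ e ∈ G.edgeSet, ∃! p : D × ℤ, s(f p.1 p.2, f p.1 (p.2 + 1)) = e := by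
  classical
  rcases isEmpty_or_nonempty D with hD | hD
  · refine ⟨fun d => isEmptyElim d, fun d => isEmptyElim d, fun d => isEmptyElim d, ?_⟩
    intro e he
    rw [← h0.range] at he
    obtain ⟨p, -⟩ := he
    exact isEmptyElim p.1
  obtain ⟨g, hg⟩ := exists_surjective_nat (D × V × V)
  -- the step
  have step : ∀ (s : {p : (D → Perm V) × Set V // Good G ν0 p.1 ∧ p.2.Finite}) (k : ℕ),
      ∃ s' : {p : (D → Perm V) × Set V // Good G ν0 p.1 ∧ p.2.Finite},
        AgreeOn s.1.2 s.1.1 s'.1.1 ∧ s.1.2 ⊆ s'.1.2 ∧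
        ∃ i : ℤ, ((s'.1.1 (g k).1) ^ i) (g k).2.1 = (g k).2.2 ∧
          ∀ j : ℤ, |j| ≤ |i| → ((s'.1.1 (g k).1) ^ j) (g k).2.1 ∈ s'.1.2 := by
    rintro ⟨⟨ν, B⟩, hν, hB⟩ k
    obtain ⟨ν', h1, h2, i, hi⟩ := H ν hν B hB (g k).1 (g k).2.1 (g k).2.2
    refine ⟨⟨⟨ν', B ∪ (fun j : ℤ => ((ν' (g k).1) ^ j) (g k).2.1) '' (Set.Icc (-|i|) |i|)⟩, h1,
      hB.union ((Set.finite_Icc _ _).image _)⟩, h2, Set.subset_union_left, i, hi, ?_⟩
    intro j hj
    exact Or.inr ⟨j, abs_le.1 hj, rfl⟩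
  choose nxt hn1 hn2 hn3 using step
  let S : ℕ → {p : (D → Perm V) × Set V // Good G ν0 p.1 ∧ p.2.Finite} :=
    fun k => Nat.rec ⟨⟨ν0, ∅⟩, h0, Set.finite_empty⟩ (fun k s => nxt s k) k
  have hS : ∀ k, S (k + 1) = nxt (S k) k := fun k => rfl
  let N : ℕ → D → Perm V := fun k => (S k).1.1
  let B : ℕ → Set V := fun k => (S k).1.2
  have good : ∀ k, Good G ν0 (N k) := fun k => (S k).2.1
  have agr : ∀ k, AgreeOn (B k) (N k) (N (k + 1)) := fun k => hn1 (S k) k
  have sub : ∀ k, B k ⊆ B (k + 1) := fun k => hn2 (S k) k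
  have dem : ∀ k, ∃ i : ℤ, ((N (k + 1) (g k).1) ^ i) (g k).2.1 = (g k).2.2 ∧
      ∀ j : ℤ, |j| ≤ |i| → ((N (k + 1) (g k).1) ^ j) (g k).2.1 ∈ B (k + 1) := fun k => hn3 (S k) k
  have mono : ∀ k m, k ≤ m → B k ⊆ B m := by
    intro k m hkm
    induction m, hkm using Nat.le_induction with
    | base => exact subset_rfl
    | succ m _ ih => exact ih.trans (sub m)
  have agr' : ∀ k m, k ≤ m → AgreeOn (B k) (N k) (N m) := by
    intro k m hkm
    induction m, hkm using Nat.le_induction with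
    | base => intro d x _; exact ⟨rfl, rfl⟩
    | succ m hm ih =>
      intro d x hx
      obtain ⟨a1, a2⟩ := ih d x hx
      obtain ⟨b1, b2⟩ := agr m d x (mono k m hm hx)
      exact ⟨b1.trans a1, b2.trans a2⟩
  -- every vertex is eventually frozen
  have ex : ∀ x : V, ∃ k, x ∈ B k := by
    intro x
    obtain ⟨d0⟩ := hD
    obtain ⟨k, hk⟩ := hg (d0, x, x)
    obtain ⟨i, _, hi⟩ := dem k
    have := hi 0 (by simp)
    rw [hk] at this
    exact ⟨k + 1, by simpa using this⟩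
  choose κ hκ using ex
  have st : ∀ d x k, κ x ≤ k → N k d x = N (κ x) d x ∧ (N k d)⁻¹ x = (N (κ x) d)⁻¹ x :=
    fun d x k hk => agr' (κ x) k hk d x (hκ x)
  let F : D → Perm V := fun d =>
    { toFun := fun x => N (κ x) d x
      invFun := fun x => (N (κ x) d)⁻¹ x
      left_inv := by
        intro x
        set y := N (κ x) d x with hy
        have h1 := (st d x (max (κ x) (κ y)) (le_max_left _ _)).1
        have h2 := (st d y (max (κ x) (κ y)) (le_max_right _ _)).2
        show (N (κ y) d)⁻¹ y = x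
        rw [← h2, Perm.inv_eq_iff_eq, h1]
      right_inv := by
        intro x
        set y := (N (κ x) d)⁻¹ x with hy
        have h1 := (st d x (max (κ x) (κ y)) (le_max_left _ _)).2
        have h2 := (st d y (max (κ x) (κ y)) (le_max_right _ _)).1
        show N (κ y) d y = x
        rw [← h2, ← Perm.eq_inv_iff_eq, h1] }
  have F1 : ∀ d x, F d x = N (κ x) d x := fun d x => rfl
  have F2 : ∀ d x, (F d)⁻¹ x = (N (κ x) d)⁻¹ x := fun d x => rfl
  have E1 : ∀ d x, ∀ᶠ k in atTop, N k d x = F d x := fun d x =>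
    eventually_atTop.2 ⟨κ x, fun k hk => (st d x k hk).1⟩
  have E2 : ∀ d x, ∀ᶠ k in atTop, (N k d)⁻¹ x = (F d)⁻¹ x := fun d x =>
    eventually_atTop.2 ⟨κ x, fun k hk => (st d x k hk).2⟩
  have AF : ∀ k d, Ag (B k) (N k d) (F d) := by
    intro k d x hx
    have h1 := st d x (max k (κ x)) (le_max_right _ _)
    have h2 := agr' k (max k (κ x)) (le_max_left _ _) d x hx
    exact ⟨by rw [F1, ← h1.1, h2.1], by rw [F2, ← h1.2, h2.2]⟩
  have aper : ∀ d, Aper (F d) := by
    intro d x n hn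
    obtain ⟨k, hk⟩ := (eventually_zpow (E1 d) (E2 d) x n).exists
    exact (good k).aper d x n (hk.trans hn)
  have same : ∀ d u v, (F d).SameCycle u v := by
    intro d u v
    obtain ⟨k, hk⟩ := hg (d, u, v)
    obtain ⟨i, hi, hj⟩ := dem k
    rw [hk] at hi hj
    exact ⟨i, (zpow_agree (AF (k + 1) d) u i hj).trans hi⟩
  have EE : ∀ p : D × V, ∀ᶠ k in atTop, edge (N k) p = edge F p := by
    intro p
    filter_upwards [E1 p.1 p.2] with k hk
    unfold edge
    rw [hk]
  have inj : Function.Injective (edge F) := by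
    intro p q hpq
    obtain ⟨k, h1, h2⟩ := ((EE p).and (EE q)).exists
    exact (good k).inj (by rw [h1, h2, hpq])
  have range : Set.range (edge F) = G.edgeSet := by
    apply Set.Subset.antisymm
    · rintro _ ⟨p, rfl⟩
      obtain ⟨k, h1⟩ := (EE p).exists
      rw [← h1, ← (good k).range]
      exact ⟨p, rfl⟩
    · intro e he
      induction e using Sym2.ind with
      | _ x y =>
        have he' := he
        rw [← (good (max (κ x) (κ y))).range] at he'
        obtain ⟨⟨d, z⟩, hz⟩ := he'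
        refine ⟨(d, z), ?_⟩
        have hz' : z = x ∨ z = y := by
          have : z ∈ s(x, y) := by
            rw [← hz]
            exact Sym2.mem_mk_left _ _
          simpa using this
        have hN : N (max (κ x) (κ y)) d z = F d z := by
          rcases hz' with rfl | rfl
          · exact (st d z _ (le_max_left _ _)).1
          · exact (st d z _ (le_max_right _ _)).1
        rw [← hz]
        unfold edge
        simp only [hN]
  obtain ⟨x0⟩ := ‹Nonempty V›
  have succ : ∀ d (n : ℤ), (F d ^ (n + 1)) x0 = F d ((F d ^ n) x0) := by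
    intro d n
    rw [add_comm, zpow_add, zpow_one, Perm.mul_apply]
  have bij : ∀ d, Function.Bijective fun n : ℤ => (F d ^ n) x0 := by
    intro d
    constructor
    · intro m n hmn
      have hmn' : (F d ^ m) x0 = (F d ^ n) x0 := hmn
      have : (F d ^ (m - n)) x0 = x0 := by
        rw [zpow_sub, ← zpow_neg, ← zpow_add, add_comm, zpow_add, Perm.mul_apply, hmn',
          ← Perm.mul_apply, ← zpow_add]
        simp
      have := aper d x0 _ this
      omega
    · intro v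
      exact same d x0 v
  refine ⟨fun d n => (F d ^ n) x0, bij, ?_, ?_⟩
  · intro d n
    have : edge F (d, (F d ^ n) x0) ∈ G.edgeSet := by
      rw [← range]; exact ⟨_, rfl⟩
    show G.Adj ((F d ^ n) x0) ((F d ^ (n + 1)) x0)
    rw [succ]
    exact this
  · intro e he
    rw [← range] at he
    obtain ⟨⟨d, z⟩, hz⟩ := he
    obtain ⟨n, hn⟩ := (bij d).2 z
    have hn' : (F d ^ n) x0 = z := hn
    refine ⟨(d, n), ?_, ?_⟩
    · show s((F d ^ n) x0, (F d ^ (n + 1)) x0) = e
      rw [succ, hn', ← hz]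
      rfl
    · rintro ⟨d', n'⟩ h'
      have h'' : edge F (d', (F d' ^ n') x0) = e := by
        have : s((F d' ^ n') x0, (F d' ^ (n' + 1)) x0) = e := h'
        rw [succ] at this
        exact this
      have h3 := inj (h''.trans hz.symm)
      rw [Prod.mk.injEq] at h3
      obtain ⟨rfl, h4⟩ := h3
      have := (bij d').1 (show (fun n : ℤ => (F d' ^ n) x0) n' = (fun n : ℤ => (F d' ^ n) x0) n by
        show (F d' ^ n') x0 = (F d' ^ n) x0
        rw [h4, hn'])
      rw [this]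

end Pool.Agent.Helper39.HD
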