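import Pool.Agent.Helper39.HD.Std

/-!
# Components and the link gadget
-/

namespace Pool.Agent.Helper39.HD

open Equiv

variable {V C D : Type*} {G : SimpleGraph V}

/-- the properties of the orientation `ρ` of the columns -/
structure RhoProp (S : Setup V C G) (ρ : V → Bool) : Prop where
  hρ : ∀ x, ρ (S.b x) = ρ x
  h1 : ∀ c x, ∀ W : Set V, W.Finite → ∀ N : ℕ, ∃ i : ℕ, N ≤ i ∧
        ρ ((S.A c ^ (i : ℤ)) x) ≠ ρ ((S.A c ^ (i + 1 : ℤ)) x) ∧
        (∀ k : ℤ, (S.b ^ k) ((S.A c ^ (i : ℤ)) x) ∉ W) ∧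
        (∀ k : ℤ, (S.b ^ k) ((S.A c ^ (i + 1 : ℤ)) x) ∉ W)
  h2 : ∀ x y, Relation.ReflTransGen (fun x y => S.b.SameCycle x y ∨ (G.Adj x y ∧ ρ x ≠ ρ y)) x y
  h3 : ∀ c p q, G.Adj p q → ¬ fam (S.U c) S.b p q → ∀ W : Set V, W.Finite → ∃ P Q, G.Adj P Q ∧
        fam (S.U c) S.b p P ∧ fam (S.U c) S.b q Q ∧ ρ P ≠ ρ ((S.A c)⁻¹ P) ∧ ρ Q ≠ ρ (S.A c Q) ∧
        (∀ k : ℤ, (S.b ^ k) P ∉ W) ∧ (∀ k : ℤ, (S.b ^ k) ((S.A c)⁻¹ P) ∉ W) ∧
        (∀ k : ℤ, (S.b ^ k) Q ∉ W) ∧ (∀ k : ℤ, (S.b ^ k) (S.A c Q) ∉ W)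

namespace Setup

variable (S : Setup V C G)

theorem adj_cases {x y : V} (h : G.Adj x y) :
    (y = S.b x ∨ x = S.b y) ∨ ∃ c, y = S.A c x ∨ x = S.A c y := by
  have hmem : s(x, y) ∈ Set.range (edge (base S.b S.U)) := by
    rw [S.range]; exact h
  obtain ⟨⟨d, z⟩, hz⟩ := hmem
  cases d with
  | none =>
    left
    have hz : s(z, S.b z) = s(x, y) := hz
    rw [Sym2.eq_iff] at hz
    rcases hz with ⟨rfl, rfl⟩ | ⟨rfl, rfl⟩
    · exact Or.inl rfl
    · exact Or.inr rfl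
  | some c =>
    right
    refine ⟨c, ?_⟩
    have hz : s(z, S.U c z) = s(x, y) := hz
    have hA : S.A c z = S.U c z ∨ S.A c (S.U c z) = z := by
      cases hθ : S.θ c z
      · right
        have : S.θ c (S.U c z) = false := by rw [S.θU]; exact hθ
        rw [A, tw_false this]
        exact (S.U c).symm_apply_apply z
      · left
        exact tw_true hθ
    rw [Sym2.eq_iff] at hz
    rcases hz with ⟨rfl, rfl⟩ | ⟨rfl, rfl⟩
    · rcases hA with h | h
      · exact Or.inl h.symm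
      · exact Or.inr h.symm
    · rcases hA with h | h
      · exact Or.inr h.symm
      · exact Or.inl h.symm

variable {ρ : V → Bool} (R : RhoProp S ρ)

include R

theorem mer_none [Nonempty C] (y y' : V) :
    Mer G (S.nu0 ρ R.hρ) none (fun _ => True) (fun _ => True) y y' := by
  have hs : ∀ x y, (tw S.b ρ R.hρ).SameCycle x y → ρ x = ρ y := by
    intro x y h
    rw [tw_sameCycle] at h
    obtain ⟨k, rfl⟩ := h
    exact (const_zpow R.hρ k x).symm
  refine component_lemma (S.nu0_aper R.hρ) none (fun _ => True) ρ (fun _ _ _ h => h) hs ?_ ?_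
    trivial trivial
  · intro x y _ _
    refine Relation.ReflTransGen.mono ?_ _ _ (R.h2 x y)
    intro x y h
    refine ⟨trivial, ?_⟩
    rcases h with h | ⟨hadj, hne⟩
    · exact Or.inl ((tw_sameCycle (h := R.hρ)).2 h)
    · right
      rcases S.adj_cases hadj with (rfl | rfl) | ⟨c, h⟩
      · exact absurd (R.hρ x).symm hne
      · exact absurd (R.hρ y) hne
      · exact ⟨S.adjFar_col R.hρ c h hne, S.adjFar_col R.hρ c h.symm hne.symm, hne⟩
  · intro x _ s W hW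
    obtain ⟨c⟩ := ‹Nonempty C›
    obtain ⟨i, -, hne, hav1, hav2⟩ := R.h1 c x W hW 0
    by_cases h : ρ ((S.A c ^ (i : ℤ)) x) = s
    · exact ⟨_, trivial, h, S.beta_zpow_avoid R.hρ (Perm.SameCycle.refl _ _) hav1⟩
    · refine ⟨_, trivial, ?_, S.beta_zpow_avoid R.hρ (Perm.SameCycle.refl _ _) hav2⟩
      revert h hne
      cases ρ ((S.A c ^ (i : ℤ)) x) <;> cases ρ ((S.A c ^ (i + 1 : ℤ)) x) <;> cases s <;> simp

theorem mer_row [Nonempty C] (c : C) {y y' : V} (hy : fam (S.U c) S.b y y') :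
    Mer G (S.nu0 ρ R.hρ) (some c) (fam (S.U c) S.b y) (fam (S.U c) S.b y) y y' := by
  refine component_lemma (S.nu0_aper R.hρ) (some c) (fam (S.U c) S.b y) (S.θ c) ?_ ?_ ?_ ?_
    (fam_refl y) hy
  · intro x z h hx
    rw [nu0_some, A_sameCycle] at h
    obtain ⟨k, rfl⟩ := h
    exact fam_trans (S.comm c) hx (fam_U k x)
  · intro x z h
    rw [nu0_some] at h
    obtain ⟨k, rfl⟩ := h
    exact (S.θA_zpow c x k).symm
  · intro x z hx hz
    have key : ∀ (j : ℤ) (x : V), fam (S.U c) S.b y x →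
        Relation.ReflTransGen (fun x y' => fam (S.U c) S.b y y' ∧
          ((S.nu0 ρ R.hρ (some c)).SameCycle x y' ∨
          (AdjFar (S.nu0 ρ R.hρ) (some c) x y' ∧ AdjFar (S.nu0 ρ R.hρ) (some c) y' x ∧
            S.θ c x ≠ S.θ c y'))) x ((S.b ^ j) x) := by
      intro j
      have hbb : ∀ z, S.b⁻¹ (S.b z) = z := fun z => S.b.symm_apply_apply z
      have hbb' : ∀ z, S.b (S.b⁻¹ z) = z := fun z => S.b.apply_symm_apply z
      induction j using Int.induction_on with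
      | zero => intro x _; simpa using Relation.ReflTransGen.refl
      | succ n ih =>
        intro x hx
        refine (ih x hx).tail ⟨?_, Or.inr ⟨?_, ?_, ?_⟩⟩
        · exact fam_trans (S.comm c) hx (fam_b _ x)
        · rw [← apply_zpow]
          exact S.adjFar_row R.hρ R.h1 c _ (Or.inl rfl)
        · rw [← apply_zpow]
          have := S.adjFar_row R.hρ R.h1 c (S.b ((S.b ^ (n : ℤ)) x)) (e := S.b⁻¹) (Or.inr rfl)
          rwa [hbb] at this
        · rw [← apply_zpow, S.θb]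
          cases S.θ c ((S.b ^ (n : ℤ)) x) <;> simp
      | pred n ih =>
        intro x hx
        have e1 : (S.b ^ (-(n : ℤ) - 1)) x = S.b⁻¹ ((S.b ^ (-(n : ℤ))) x) := by
          rw [sub_eq_neg_add, zpow_apply_add, zpow_neg_one]
        refine (ih x hx).tail ⟨?_, Or.inr ⟨?_, ?_, ?_⟩⟩
        · exact fam_trans (S.comm c) hx (fam_b _ x)
        · rw [e1]
          exact S.adjFar_row R.hρ R.h1 c _ (Or.inr rfl)
        · rw [e1]
          have := S.adjFar_row R.hρ R.h1 c (S.b⁻¹ ((S.b ^ (-(n : ℤ))) x)) (e := S.b) (Or.inl rfl)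
          rwa [hbb'] at this
        · rw [e1, S.θb']
          cases S.θ c ((S.b ^ (-(n : ℤ))) x) <;> simp
    obtain ⟨i, j, rfl⟩ := fam_trans (S.comm c) (fam_symm (S.comm c) hx) hz
    refine (key j x hx).tail ⟨hz, Or.inl ?_⟩
    rw [nu0_some, A_sameCycle]
    exact ⟨i, rfl⟩
  · intro x hx s W hW
    obtain ⟨N, hN⟩ := S.rows_leave c x hW
    have h1 : ∀ m : ℕ, N ≤ m → ∀ k : ℤ, (S.A c ^ k) ((S.b ^ (m : ℤ)) x) ∉ W := fun m hm =>
      S.A_zpow_sameCycle c (Perm.SameCycle.refl _ _) (hN m (by omega))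
    by_cases h : S.θ c ((S.b ^ (N : ℤ)) x) = s
    · exact ⟨_, fam_trans (S.comm c) hx (fam_b _ x), h, h1 N le_rfl⟩
    · refine ⟨(S.b ^ ((N + 1 : ℕ) : ℤ)) x, fam_trans (S.comm c) hx (fam_b _ x), ?_,
        h1 (N + 1) (by omega)⟩
      push_cast
      rw [← apply_zpow, S.θb]
      revert h
      cases S.θ c ((S.b ^ (N : ℤ)) x) <;> cases s <;> simp

/-- the link gadget -/
theorem link [Nonempty C] {ν : Option C → Perm V} (hν : Good G (S.nu0 ρ R.hρ) ν) {B : Set V}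
    (hB : B.Finite) (c : C) {p q : V} (hpq : G.Adj p q) (hfam : ¬ fam (S.U c) S.b p q) :
    ∃ ν', Good G (S.nu0 ρ R.hρ) ν' ∧ AgreeOn B ν ν' ∧
      (∀ t ∈ B, ∀ z, (FT (ν (some c)) (S.A c) t z → FT (ν' (some c)) (S.A c) t z) ∧
        (BT (ν (some c)) (S.A c) t z → BT (ν' (some c)) (S.A c) t z)) ∧
      ∃ w z1 z2, fam (S.U c) S.b p z1 ∧ fam (S.U c) S.b q z2 ∧
        BT (ν' (some c)) (S.A c) w z1 ∧ FT (ν' (some c)) (S.A c) w z2 := by
  classical
  obtain ⟨W0, hW0, hag⟩ := hν.fin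
  set W := W0 ∪ B with hWdef
  have hW : W.Finite := hW0.union hB
  obtain ⟨P0, Q0, hPQ, hfP, hfQ, hρP, hρQ, cP, cp, cQ, cq⟩ := R.h3 c p q hpq hfam W hW
  have hfamPQ : ¬ fam (S.U c) S.b P0 Q0 := fun h => hfam
    (fam_trans (S.comm c) hfP (fam_trans (S.comm c) h (fam_symm (S.comm c) hfQ)))
  -- the colour of the edge
  obtain ⟨c', hc'⟩ : ∃ c', Q0 = S.A c' P0 ∨ P0 = S.A c' Q0 := by
    rcases S.adj_cases hPQ with h | h
    · exfalso
      rcases h with rfl | rfl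
      · exact hfamPQ ⟨0, 1, by simp⟩
      · exact hfamPQ (fam_symm (S.comm c) ⟨0, 1, by simp⟩)
    · exact h
  have hcc : c' ≠ c := by
    rintro rfl
    rcases hc' with rfl | rfl
    · exact hfamPQ (by simpa using S.fam_A_zpow c' 1 P0)
    · exact hfamPQ (fam_symm (S.comm c') (by simpa using S.fam_A_zpow c' 1 Q0))
  obtain ⟨N1, hN1⟩ := S.rows_leave c P0 hW
  obtain ⟨N2, hN2⟩ := S.rows_leave c Q0 hW
  obtain ⟨N3, hN3⟩ := S.rows_leave c' P0 hW
  set n := N1 + N2 + N3 with hn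
  -- the vertices
  set P := (S.b ^ (2 * n)) P0 with hP
  set Q := (S.b ^ (2 * n)) Q0 with hQ
  set p1 := (S.A c)⁻¹ P with hp1
  set q1 := S.A c Q with hq1
  have zP : P = (S.b ^ ((2 * n : ℕ) : ℤ)) P0 := by rw [zpow_natCast]
  have zQ : Q = (S.b ^ ((2 * n : ℕ) : ℤ)) Q0 := by rw [zpow_natCast]
  have zbP : S.b P = (S.b ^ (((2 * n : ℕ) : ℤ) + 1)) P0 := by rw [zP, apply_zpow]
  have zbQ : S.b Q = (S.b ^ (((2 * n : ℕ) : ℤ) + 1)) Q0 := by rw [zQ, apply_zpow]
  have zp1 : p1 = (S.b ^ (2 * n)) ((S.A c)⁻¹ P0) := by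
    rw [hp1, hP, S.A_inv_even c (Or.inl rfl)]
  have zq1 : q1 = (S.b ^ (2 * n)) (S.A c Q0) := by
    rw [hq1, hQ, S.A_even c (Or.inl rfl)]
  -- images under `A c`
  have a1 : S.A c p1 = P := (S.A c).apply_symm_apply P
  have a2 : S.A c (S.b P) = S.b p1 := S.A_e c (Or.inl rfl) P
  have a3 : S.A c (S.b q1) = S.b Q := S.A_b_A c (Or.inl rfl) Q
  -- rows
  have rP : ∀ k : ℤ, (S.U c ^ k) P ∉ W := by rw [zP]; exact hN1 _ (by omega)
  have rbP : ∀ k : ℤ, (S.U c ^ k) (S.b P) ∉ W := by rw [zbP]; exact hN1 _ (by omega)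
  have rQ : ∀ k : ℤ, (S.U c ^ k) Q ∉ W := by rw [zQ]; exact hN2 _ (by omega)
  have rbQ : ∀ k : ℤ, (S.U c ^ k) (S.b Q) ∉ W := by rw [zbQ]; exact hN2 _ (by omega)
  have rP' : ∀ k : ℤ, (S.U c' ^ k) P ∉ W := by rw [zP]; exact hN3 _ (by omega)
  have rbP' : ∀ k : ℤ, (S.U c' ^ k) (S.b P) ∉ W := by rw [zbP]; exact hN3 _ (by omega)
  have hp1s : (S.U c).SameCycle P p1 := by
    rw [← S.A_sameCycle]
    exact ⟨-1, by rw [zpow_neg_one]⟩
  have hq1s : (S.U c).SameCycle Q q1 := by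
    rw [← S.A_sameCycle]
    exact ⟨1, by rw [zpow_one]⟩
  have hbq1s : (S.U c).SameCycle (S.b Q) (S.b q1) := by
    rw [← S.A_sameCycle]
    exact Perm.SameCycle.symm ⟨1, by rw [zpow_one]; exact a3⟩
  have sP := S.A_zpow_sameCycle c (Perm.SameCycle.refl _ P) rP
  have sp1 := S.A_zpow_sameCycle c hp1s rP
  have sbP := S.A_zpow_sameCycle c (Perm.SameCycle.refl _ (S.b P)) rbP
  have sQ := S.A_zpow_sameCycle c (Perm.SameCycle.refl _ Q) rQ
  have sbQ := S.A_zpow_sameCycle c (Perm.SameCycle.refl _ (S.b Q)) rbQ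
  have sbq1 := S.A_zpow_sameCycle c hbq1s rbQ
  -- untouched orbits
  have unt : ∀ (d : Option C) (x : V), (∀ k : ℤ, (S.nu0 ρ R.hρ d ^ k) x ∉ W) → ∀ k : ℤ,
      (ν d ^ k) x = (S.nu0 ρ R.hρ d ^ k) x := fun d x hx =>
    zpow_eq_of_avoid (fun x hx => (hag d x hx).1) (fun x hx => (hag d x hx).2)
      (fun k hk => hx k (Or.inl hk))
  have unt1 : ∀ (d : Option C) (x : V), (∀ k : ℤ, (S.nu0 ρ R.hρ d ^ k) x ∉ W) →
      ν d x = S.nu0 ρ R.hρ d x := fun d x hx => by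
    have := unt d x hx 1
    simpa using this
  have untS : ∀ (d : Option C) (x y : V), (∀ k : ℤ, (S.nu0 ρ R.hρ d ^ k) x ∉ W) →
      (ν d).SameCycle x y → (S.nu0 ρ R.hρ d).SameCycle x y := by
    rintro d x y hx ⟨k, hk⟩
    exact ⟨k, by rw [← unt d x hx, hk]⟩
  -- a point of `B` is not in an untouched orbit
  have offB : ∀ t ∈ B, ∀ x, (∀ k : ℤ, (S.A c ^ k) x ∉ W) → ¬ (ν (some c)).SameCycle t x := by
    intro t ht x hx h
    obtain ⟨k, hk⟩ := h.symm
    rw [unt (some c) x hx] at hk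
    exact hx k (Or.inr (hk ▸ ht))
  -- columns
  have colP : S.b.SameCycle P0 P := ⟨_, zP.symm⟩
  have colbP : S.b.SameCycle P0 (S.b P) := ⟨_, zbP.symm⟩
  have colQ : S.b.SameCycle Q0 Q := ⟨_, zQ.symm⟩
  have colbQ : S.b.SameCycle Q0 (S.b Q) := ⟨_, zbQ.symm⟩
  have colp1 : S.b.SameCycle ((S.A c)⁻¹ P0) p1 := by
    rw [zp1]; exact sameCycle_pow _
  have colbp1 : S.b.SameCycle ((S.A c)⁻¹ P0) (S.b p1) := colp1.trans ⟨1, by simp⟩
  have colq1 : S.b.SameCycle (S.A c Q0) q1 := by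
    rw [zq1]; exact sameCycle_pow _
  have colbq1 : S.b.SameCycle (S.A c Q0) (S.b q1) := colq1.trans ⟨1, by simp⟩
  have ρconst : ∀ {x y}, S.b.SameCycle x y → ρ x = ρ y := by
    rintro x y ⟨k, rfl⟩
    exact (const_zpow R.hρ k x).symm
  have ρ1 : ρ P ≠ ρ p1 := by rw [← ρconst colP, ← ρconst colp1]; exact hρP
  have ρ2 : ρ Q ≠ ρ q1 := by rw [← ρconst colQ, ← ρconst colq1]; exact hρQ
  -- the gamma facts for the columns
  obtain ⟨s0, hs0⟩ := S.beta_alt R.hρ (e := S.b) (Or.inl rfl)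
  have vert : ∀ x y, ρ x ≠ ρ y → (tw S.b ρ R.hρ x = S.b x ∧ tw S.b ρ R.hρ (S.b y) = y) ∨
      (tw S.b ρ R.hρ (S.b x) = x ∧ tw S.b ρ R.hρ y = S.b y) := by
    intro x y hne
    by_cases h : ρ x = s0
    · exact Or.inl ⟨(hs0 _).1 h, (hs0 _).2 fun h' => hne (h.trans h'.symm)⟩
    · refine Or.inr ⟨(hs0 _).2 h, (hs0 _).1 ?_⟩
      revert h hne
      cases ρ x <;> cases ρ y <;> cases s0 <;> simp
  have av : ∀ {x y}, S.b.SameCycle x y → (∀ k : ℤ, (S.b ^ k) x ∉ W) →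
      ∀ k : ℤ, (S.nu0 ρ R.hρ none ^ k) y ∉ W := fun h hx => S.beta_zpow_avoid R.hρ h hx
  have vP := av colP cP
  have vbP := av colbP cP
  have vp1 := av colp1 cp
  have vbp1 := av colbp1 cp
  have vQ := av colQ cQ
  have vbQ := av colbQ cQ
  have vq1 := av colq1 cq
  have vbq1 := av colbq1 cq
  -- different families
  have famP : fam (S.U c) S.b P0 P := S.fam_of_col (S.col_eq.2 colP)
  have fambP : fam (S.U c) S.b P0 (S.b P) := S.fam_of_col (S.col_eq.2 colbP)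
  have famA : fam (S.U c) S.b P0 ((S.A c)⁻¹ P0) := by
    simpa using S.fam_A_zpow c (-1) P0
  have famA' : fam (S.U c) S.b Q0 (S.A c Q0) := by
    simpa using S.fam_A_zpow c 1 Q0
  have famp1 : fam (S.U c) S.b P0 p1 :=
    fam_trans (S.comm c) famA (S.fam_of_col (S.col_eq.2 colp1))
  have fambp1 : fam (S.U c) S.b P0 (S.b p1) :=
    fam_trans (S.comm c) famA (S.fam_of_col (S.col_eq.2 colbp1))
  have famQ : fam (S.U c) S.b Q0 Q := S.fam_of_col (S.col_eq.2 colQ)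
  have fambQ : fam (S.U c) S.b Q0 (S.b Q) := S.fam_of_col (S.col_eq.2 colbQ)
  have famq1 : fam (S.U c) S.b Q0 q1 :=
    fam_trans (S.comm c) famA' (S.fam_of_col (S.col_eq.2 colq1))
  have fambq1 : fam (S.U c) S.b Q0 (S.b q1) :=
    fam_trans (S.comm c) famA' (S.fam_of_col (S.col_eq.2 colbq1))
  have nofam : ∀ {x y}, fam (S.U c) S.b P0 x → fam (S.U c) S.b Q0 y → ¬ fam (S.U c) S.b x y :=
    fun hx hy h => hfamPQ (fam_trans (S.comm c) hx (fam_trans (S.comm c) h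
      (fam_symm (S.comm c) hy)))
  have famSameA : ∀ {x y}, (S.A c).SameCycle x y → fam (S.U c) S.b x y := by
    intro x y h
    rw [A_sameCycle] at h
    obtain ⟨k, rfl⟩ := h
    exact fam_U k x
  have famSameB : ∀ {x y}, (tw S.b ρ R.hρ).SameCycle x y → fam (S.U c) S.b x y := by
    intro x y h
    rw [tw_sameCycle] at h
    exact S.fam_of_col (S.col_eq.2 h)
  -- switch 1
  have f_p1 : ν (some c) p1 = P := (unt1 (some c) _ sp1).trans a1
  have f_bP : ν (some c) (S.b P) = S.b p1 := (unt1 (some c) _ sbP).trans a2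
  obtain ⟨x1, y1, hxy1, ex1⟩ := exch_square (ν := ν) (d := some c) (d' := none) (P := p1)
    (P1 := P) (R1 := S.b P) (R := S.b p1) f_p1 f_bP (by
      rcases vert p1 P ρ1.symm with ⟨h, h'⟩ | ⟨h, h'⟩
      · exact Or.inl ⟨(unt1 none _ vp1).trans h, (unt1 none _ vbP).trans h'⟩
      · exact Or.inr ⟨(unt1 none _ vbp1).trans h, (unt1 none _ vP).trans h'⟩)
  have s1 : ¬ (ν (some c)).SameCycle p1 (S.b P) := by
    intro h
    have h := untS (some c) _ _ sp1 h
    rw [nu0_some, A_sameCycle] at h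
    have h := hp1s.trans h
    rw [zP] at h
    conv at h => rhs; rw [apply_zpow]
    have := S.height_eq c ⟨0, by simp⟩ h
    omega
  have hcolne : ∀ x y, S.b.SameCycle ((S.A c)⁻¹ P0) x → S.b.SameCycle P0 y →
      ¬ S.b.SameCycle x y := by
    intro x y hx hy h
    have h := hx.trans (h.trans hy.symm)
    have h2 : S.col ((S.A c ^ (-1 : ℤ)) P0) = S.col ((S.A c ^ (0 : ℤ)) P0) := by
      rw [zpow_neg_one]
      simpa using S.col_eq.2 h
    have := S.col_A_inj c h2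
    omega
  have vx1 : ∀ k : ℤ, (S.nu0 ρ R.hρ none ^ k) x1 ∉ W := by
    rcases hxy1 with ⟨rfl, rfl⟩ | ⟨rfl, rfl⟩
    · exact vp1
    · exact vbp1
  have s1' : ¬ (ν none).SameCycle x1 y1 := by
    intro h
    have h := untS none _ _ vx1 h
    rw [nu0_none, tw_sameCycle] at h
    rcases hxy1 with ⟨rfl, rfl⟩ | ⟨rfl, rfl⟩
    · exact hcolne _ _ colp1 colbP h
    · exact hcolne _ _ colbp1 colP h
  have famx1 : fam (S.U c) S.b P0 x1 ∧ fam (S.U c) S.b P0 y1 := by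
    rcases hxy1 with ⟨rfl, rfl⟩ | ⟨rfl, rfl⟩
    · exact ⟨famp1, fambP⟩
    · exact ⟨fambp1, famP⟩
  have g1 := hν.switch (d := some c) (d' := none) (by simp) ex1 s1 s1'
  set ν1 := sw ν (some c) none p1 (S.b P) x1 y1 with hν1
  have ν1c : ν1 (some c) = ν (some c) * swap p1 (S.b P) := sw_self (by simp) _ _ _ _
  have ν1n : ν1 none = ν none * swap x1 y1 := sw_self' _ _ _ _
  have ν1e : ∀ e, e ≠ some c → e ≠ none → ν1 e = ν e := fun e h h' => sw_of_ne h h' _ _ _ _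
  -- switch 2
  have neF : ∀ {x y}, fam (S.U c) S.b P0 x → fam (S.U c) S.b Q0 y → y ≠ x := by
    rintro x y hx hy rfl
    exact nofam hx hy (fam_refl _)
  have off1 : ∀ x, (∀ k : ℤ, (S.A c ^ k) x ∉ W) → ∀ y, ¬ fam (S.U c) S.b x y →
      ¬ (ν (some c)).SameCycle x y := by
    intro x hx y hxy h
    exact hxy (famSameA (untS (some c) _ _ hx h))
  have off2 : ∀ x, (∀ k : ℤ, (S.nu0 ρ R.hρ none ^ k) x ∉ W) → ∀ y, ¬ fam (S.U c) S.b x y →
      ¬ (ν none).SameCycle x y := by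
    intro x hx y hxy h
    exact hxy (famSameB (untS none _ _ hx h))
  have nofam' : ∀ {x y}, fam (S.U c) S.b Q0 x → fam (S.U c) S.b P0 y → ¬ fam (S.U c) S.b x y :=
    fun hx hy h => nofam hy hx (fam_symm (S.comm c) h)
  have f1_Q : ν1 (some c) Q = q1 := by
    rw [ν1c, Perm.mul_apply, swap_apply_of_ne_of_ne (neF famp1 famQ) (neF fambP famQ)]
    exact unt1 (some c) _ sQ
  have f1_bq1 : ν1 (some c) (S.b q1) = S.b Q := by
    rw [ν1c, Perm.mul_apply, swap_apply_of_ne_of_ne (neF famp1 fambq1) (neF fambP fambq1)]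
    exact (unt1 (some c) _ sbq1).trans a3
  have n1 : ∀ {x}, fam (S.U c) S.b Q0 x → ν1 none x = ν none x := by
    intro x hx
    rw [ν1n, Perm.mul_apply, swap_apply_of_ne_of_ne (neF famx1.1 hx) (neF famx1.2 hx)]
  obtain ⟨x2, y2, hxy2, ex2⟩ := exch_square (ν := ν1) (d := some c) (d' := none) (P := Q)
    (P1 := q1) (R1 := S.b q1) (R := S.b Q) f1_Q f1_bq1 (by
      rw [n1 famQ, n1 fambq1, n1 fambQ, n1 famq1]
      rcases vert Q q1 ρ2 with ⟨h, h'⟩ | ⟨h, h'⟩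
      · exact Or.inl ⟨(unt1 none _ vQ).trans h, (unt1 none _ vbq1).trans h'⟩
      · exact Or.inr ⟨(unt1 none _ vbQ).trans h, (unt1 none _ vq1).trans h'⟩)
  have off_Q_p1 := off1 Q sQ p1 (nofam' famQ famp1)
  have off_Q_bP := off1 Q sQ (S.b P) (nofam' famQ fambP)
  have off_bq1_p1 := off1 (S.b q1) sbq1 p1 (nofam' fambq1 famp1)
  have off_bq1_bP := off1 (S.b q1) sbq1 (S.b P) (nofam' fambq1 fambP)
  have s2 : ¬ (ν1 (some c)).SameCycle Q (S.b q1) := by
    rw [ν1c, swap_off_sameCycle off_Q_p1 off_Q_bP]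
    intro h
    have h := untS (some c) _ _ sQ h
    rw [nu0_some, A_sameCycle] at h
    have h := h.trans hbq1s.symm
    rw [zQ] at h
    conv at h => rhs; rw [apply_zpow]
    have := S.height_eq c ⟨0, by simp⟩ h
    omega
  have hcolne2 : ∀ x y, S.b.SameCycle (S.A c Q0) x → S.b.SameCycle Q0 y →
      ¬ S.b.SameCycle x y := by
    intro x y hx hy h
    have h := hx.trans (h.trans hy.symm)
    have h2 : S.col ((S.A c ^ (1 : ℤ)) Q0) = S.col ((S.A c ^ (0 : ℤ)) Q0) := by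
      rw [zpow_one]
      simpa using S.col_eq.2 h
    have := S.col_A_inj c h2
    omega
  have vx2 : (∀ k : ℤ, (S.nu0 ρ R.hρ none ^ k) x2 ∉ W) ∧
      (∀ k : ℤ, (S.nu0 ρ R.hρ none ^ k) y2 ∉ W) := by
    rcases hxy2 with ⟨rfl, rfl⟩ | ⟨rfl, rfl⟩
    · exact ⟨vQ, vbq1⟩
    · exact ⟨vbQ, vq1⟩
  have famx2 : fam (S.U c) S.b Q0 x2 ∧ fam (S.U c) S.b Q0 y2 := by
    rcases hxy2 with ⟨rfl, rfl⟩ | ⟨rfl, rfl⟩
    · exact ⟨famQ, fambq1⟩
    · exact ⟨fambQ, famq1⟩
  have s2' : ¬ (ν1 none).SameCycle x2 y2 := by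
    rw [ν1n, swap_off_sameCycle (off2 _ vx2.1 _ (nofam' famx2.1 famx1.1))
      (off2 _ vx2.1 _ (nofam' famx2.1 famx1.2))]
    intro h
    have h := untS none _ _ vx2.1 h
    rw [nu0_none, tw_sameCycle] at h
    rcases hxy2 with ⟨rfl, rfl⟩ | ⟨rfl, rfl⟩
    · exact hcolne2 _ _ colbq1 colQ h.symm
    · exact hcolne2 _ _ colq1 colbQ h.symm
  have g2 := g1.switch (d := some c) (d' := none) (by simp) ex2 s2 s2'
  set ν2 := sw ν1 (some c) none Q (S.b q1) x2 y2 with hν2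
  have ν2c : ν2 (some c) = ν1 (some c) * swap Q (S.b q1) := sw_self (by simp) _ _ _ _
  have ν2e : ∀ e, e ≠ some c → e ≠ none → ν2 e = ν e := fun e h h' =>
    (sw_of_ne h h' _ _ _ _).trans (ν1e e h h')
  -- tails
  have ftOf : ∀ x, (∀ k : ℤ, (S.A c ^ k) x ∉ W) → FT (ν (some c)) (S.A c) x x ∧
      BT (ν (some c)) (S.A c) x x := by
    intro x hx
    refine ⟨FT.refl_of fun n => unt (some c) x hx n, FT.refl_of fun n => ?_⟩
    rw [inv_zpow, inv_zpow, ← zpow_neg, ← zpow_neg]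
    exact unt (some c) x hx _
  have fwd : ∀ {f : Perm V} {x y z : V}, Aper f → ¬ f.SameCycle x y → FT f (S.A c) y z →
      FT (f * swap x y) (S.A c) x z := by
    intro f x y z hf hxy h
    refine h.of_eq 1 1 fun n => ?_
    have := swap_fwd hf hxy (n + 1) (by omega)
    rw [← zpow_natCast, ← zpow_natCast] at this
    push_cast at this
    rw [add_comm (1 : ℤ)]
    exact this
  have bwd : ∀ {f : Perm V} {x y z : V}, Aper f → ¬ f.SameCycle x y → BT f (S.A c) x z →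
      BT (f * swap x y) (S.A c) x z := by
    intro f x y z hf hxy h
    refine FT.of_eq h 0 0 fun n => ?_
    have := swap_bwd hf hxy n
    rw [← zpow_natCast, ← zpow_natCast] at this
    rw [zero_add]
    exact this
  have offFT : ∀ {f : Perm V} {x y t z : V}, ¬ f.SameCycle t x → ¬ f.SameCycle t y →
      (FT f (S.A c) t z → FT (f * swap x y) (S.A c) t z) ∧
      (BT f (S.A c) t z → BT (f * swap x y) (S.A c) t z) := by
    intro f x y t z hx hy
    refine ⟨fun h => h.of_eq 0 0 fun n => swap_off hx hy _, fun h => FT.of_eq h 0 0 fun n => ?_⟩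
    rw [inv_zpow, inv_zpow, ← zpow_neg, ← zpow_neg]
    exact swap_off hx hy _
  have FT1_bP : FT (ν1 (some c)) (S.A c) (S.b P) p1 := by
    rw [ν1c, swap_comm]
    exact fwd (hν.aper _) (fun h => s1 h.symm) (ftOf _ sp1).1
  have BT1_bP : BT (ν1 (some c)) (S.A c) (S.b P) (S.b P) := by
    rw [ν1c, swap_comm]
    exact bwd (hν.aper _) (fun h => s1 h.symm) (ftOf _ sbP).2
  have BT1_Q : BT (ν1 (some c)) (S.A c) Q Q := by
    rw [ν1c]
    exact (offFT off_Q_p1 off_Q_bP).2 (ftOf _ sQ).2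
  have FT1_bq1 : FT (ν1 (some c)) (S.A c) (S.b q1) (S.b q1) := by
    rw [ν1c]
    exact (offFT off_bq1_p1 off_bq1_bP).1 (ftOf _ sbq1).1
  have off_bP_Q : ¬ (ν1 (some c)).SameCycle (S.b P) Q := by
    intro h
    have h := h.symm
    rw [ν1c, swap_off_sameCycle off_Q_p1 off_Q_bP] at h
    exact off_Q_bP h
  have off_bP_bq1 : ¬ (ν1 (some c)).SameCycle (S.b P) (S.b q1) := by
    intro h
    have h := h.symm
    rw [ν1c, swap_off_sameCycle off_bq1_p1 off_bq1_bP] at h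
    exact off_bq1_bP h
  have BT2_bP : BT (ν2 (some c)) (S.A c) (S.b P) (S.b P) := by
    rw [ν2c]
    exact (offFT off_bP_Q off_bP_bq1).2 BT1_bP
  have FT2_Q : FT (ν2 (some c)) (S.A c) Q (S.b q1) := by
    rw [ν2c]
    exact fwd (g1.aper _) s2 FT1_bq1
  have BT2_Q : BT (ν2 (some c)) (S.A c) Q Q := by
    rw [ν2c]
    exact bwd (g1.aper _) s2 BT1_Q
  -- switch 3
  have s3 : ¬ (ν2 (some c)).SameCycle (S.b P) Q := by
    intro h
    exact nofam fambP famQ (famSameA ((BT2_bP.left h).unique BT2_Q))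
  have f2_bP : ν2 (some c) (S.b P) = P := by
    rw [ν2c, Perm.mul_apply, swap_apply_of_ne_of_ne (neF fambP famQ).symm
      (neF fambP fambq1).symm, ν1c, Perm.mul_apply, swap_apply_right]
    exact f_p1
  have f2_Q : ν2 (some c) Q = S.b Q := by
    rw [ν2c, Perm.mul_apply, swap_apply_left]
    exact f1_bq1
  have hc1 : some c' ≠ some c := by simpa using hcc
  have ν2c' : ν2 (some c') = ν (some c') := ν2e _ hc1 (by simp)
  have sP' := S.A_zpow_sameCycle c' (Perm.SameCycle.refl _ P) rP'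
  have sbP' := S.A_zpow_sameCycle c' (Perm.SameCycle.refl _ (S.b P)) rbP'
  have hAPQ : (S.A c' P = Q ∧ S.A c' (S.b Q) = S.b P) ∨
      (S.A c' Q = P ∧ S.A c' (S.b P) = S.b Q) := by
    rcases hc' with h | h
    · left
      have h1 : S.A c' P = Q := by rw [hP, hQ, S.A_even c' (Or.inl rfl), h]
      exact ⟨h1, by rw [← h1]; exact S.A_b_A c' (Or.inl rfl) P⟩
    · right
      have h1 : S.A c' Q = P := by rw [hP, hQ, S.A_even c' (Or.inl rfl), h]
      exact ⟨h1, by rw [← h1]; exact S.A_b_A c' (Or.inl rfl) Q⟩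
  have hPQs : (S.A c').SameCycle P Q ∧ (S.A c').SameCycle (S.b P) (S.b Q) := by
    rcases hAPQ with ⟨h, h'⟩ | ⟨h, h'⟩
    · exact ⟨⟨1, by simpa using h⟩, Perm.SameCycle.symm ⟨1, by simpa using h'⟩⟩
    · exact ⟨Perm.SameCycle.symm ⟨1, by simpa using h⟩, ⟨1, by simpa using h'⟩⟩
  have sQ' := S.A_zpow_sameCycle c' (S.A_sameCycle.1 hPQs.1) rP'
  have sbQ' := S.A_zpow_sameCycle c' (S.A_sameCycle.1 hPQs.2) rbP'
  obtain ⟨x3, y3, hxy3, ex3⟩ := exch_square (ν := ν2) (d := some c) (d' := some c')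
    (P := S.b P) (P1 := P) (R1 := Q) (R := S.b Q) f2_bP f2_Q (by
      rw [ν2c']
      rcases hAPQ with ⟨h, h'⟩ | ⟨h, h'⟩
      · exact Or.inr ⟨(unt1 (some c') _ sbQ').trans h', (unt1 (some c') _ sP').trans h⟩
      · exact Or.inl ⟨(unt1 (some c') _ sbP').trans h', (unt1 (some c') _ sQ').trans h⟩)
  have hrow' : ∀ x y, (S.A c').SameCycle P x → (S.A c').SameCycle (S.b P) y →
      ¬ (S.A c').SameCycle x y := by
    intro x y hx hy h
    have h := hx.trans (h.trans hy.symm)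
    rw [A_sameCycle, zP] at h
    conv at h => rhs; rw [apply_zpow]
    have := S.height_eq c' ⟨0, by simp⟩ h
    omega
  have vx3 : (∀ k : ℤ, (S.nu0 ρ R.hρ (some c') ^ k) x3 ∉ W) ∧
      (∀ k : ℤ, (S.nu0 ρ R.hρ (some c') ^ k) y3 ∉ W) := by
    rcases hxy3 with ⟨rfl, rfl⟩ | ⟨rfl, rfl⟩
    · exact ⟨sbP', sQ'⟩
    · exact ⟨sbQ', sP'⟩
  have s3' : ¬ (ν2 (some c')).SameCycle x3 y3 := by
    rw [ν2c']
    intro h
    have h := untS (some c') _ _ vx3.1 h
    rw [nu0_some] at h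
    rcases hxy3 with ⟨rfl, rfl⟩ | ⟨rfl, rfl⟩
    · exact hrow' _ _ hPQs.1 (Perm.SameCycle.refl _ _) h.symm
    · exact hrow' _ _ (Perm.SameCycle.refl _ _) hPQs.2 h.symm
  have g3 := g2.switch (d := some c) (d' := some c') hc1 ex3 s3 s3'
  set ν3 := sw ν2 (some c) (some c') (S.b P) Q x3 y3 with hν3
  have ν3c : ν3 (some c) = ν2 (some c) * swap (S.b P) Q := sw_self hc1 _ _ _ _
  -- membership in `B`
  have nB : ∀ (d : Option C) (x : V), (∀ k : ℤ, (S.nu0 ρ R.hρ d ^ k) x ∉ W) → x ∉ B ∧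
      ν d x ∉ B := by
    intro d x hx
    constructor
    · intro h
      have := hx 0
      simp only [zpow_zero, Perm.coe_one, id_eq] at this
      exact this (Or.inr h)
    · intro h
      rw [unt1 d x hx] at h
      have := hx 1
      rw [zpow_one] at this
      exact this (Or.inr h)
  have vy1 : ∀ k : ℤ, (S.nu0 ρ R.hρ none ^ k) y1 ∉ W := by
    rcases hxy1 with ⟨rfl, rfl⟩ | ⟨rfl, rfl⟩
    · exact vbP
    · exact vP
  refine ⟨ν3, g3, ?_, ?_, ?_⟩
  · have b1 : AgreeOn B ν ν1 := by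
      apply agreeOn_sw (by simp) (nB (some c) _ sp1).1 (nB (some c) _ sbP).1
        (nB (some c) _ sp1).2 (nB (some c) _ sbP).2 (nB none _ vx1).1 (nB none _ vy1).1
        (nB none _ vx1).2 (nB none _ vy1).2
    have b2 : AgreeOn B ν1 ν2 := by
      apply agreeOn_sw (by simp) (nB (some c) _ sQ).1 (nB (some c) _ sbq1).1
      · rw [f1_Q]; exact (nB none _ vq1).1
      · rw [f1_bq1]; exact (nB none _ vbQ).1
      · exact (nB none _ vx2.1).1
      · exact (nB none _ vx2.2).1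
      · rw [n1 famx2.1]; exact (nB none _ vx2.1).2
      · rw [n1 famx2.2]; exact (nB none _ vx2.2).2
    have b3 : AgreeOn B ν2 ν3 := by
      apply agreeOn_sw hc1 (nB (some c) _ sbP).1 (nB (some c) _ sQ).1
      · rw [f2_bP]; exact (nB (some c) _ sP).1
      · rw [f2_Q]; exact (nB none _ vbQ).1
      · exact (nB (some c') _ vx3.1).1
      · exact (nB (some c') _ vx3.2).1
      · rw [ν2c']; exact (nB (some c') _ vx3.1).2
      · rw [ν2c']; exact (nB (some c') _ vx3.2).2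
    exact (b1.trans b2).trans b3
  · intro t ht z
    have o1 := offB t ht _ sp1
    have o2 := offB t ht _ sbP
    have o3 := offB t ht _ sQ
    have o4 := offB t ht _ sbq1
    have o3' : ¬ (ν1 (some c)).SameCycle t Q := by
      rw [ν1c, swap_off_sameCycle o1 o2]; exact o3
    have o4' : ¬ (ν1 (some c)).SameCycle t (S.b q1) := by
      rw [ν1c, swap_off_sameCycle o1 o2]; exact o4
    have o5' : ¬ (ν1 (some c)).SameCycle t (S.b P) := by
      rw [ν1c, swap_off_sameCycle o1 o2]; exact o2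
    have o3'' : ¬ (ν2 (some c)).SameCycle t Q := by
      rw [ν2c, swap_off_sameCycle o3' o4']; exact o3'
    have o5'' : ¬ (ν2 (some c)).SameCycle t (S.b P) := by
      rw [ν2c, swap_off_sameCycle o3' o4']; exact o5'
    constructor
    · intro h
      rw [ν3c]
      refine (offFT o5'' o3'').1 ?_
      rw [ν2c]
      refine (offFT o3' o4').1 ?_
      rw [ν1c]
      exact (offFT o1 o2).1 h
    · intro h
      rw [ν3c]
      refine (offFT o5'' o3'').2 ?_
      rw [ν2c]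
      refine (offFT o3' o4').2 ?_
      rw [ν1c]
      exact (offFT o1 o2).2 h
  · refine ⟨S.b P, S.b P, S.b q1, fam_trans (S.comm c) hfP fambP,
      fam_trans (S.comm c) hfQ fambq1, ?_, ?_⟩
    · rw [ν3c]
      exact bwd (g2.aper _) s3 BT2_bP
    · rw [ν3c]
      exact fwd (g2.aper _) s3 FT2_Q

end Setup

end Pool.Agent.Helper39.HD
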