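import Pool.Agent.Helper39.HD.Link
import Pool.Agent.Helper39.HD.Limit

/-!
# Theorem D
-/

namespace Pool.Agent.Helper39.HD

open Equiv

variable {V C : Type*} {G : SimpleGraph V}

/-- from any forward tail to any backward tail -/
theorem Setup.merge (S : Setup V C G) {ρ : V → Bool} (R : RhoProp S ρ) [Nonempty C] (c : C)
    {x y' : V} (hxy : Relation.ReflTransGen G.Adj x y') :
    ∀ z, fam (S.U c) S.b x z → ∀ ν, Good G (S.nu0 ρ R.hρ) ν → ∀ B : Set V, B.Finite → ∀ u v,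
      FT (ν (some c)) (S.A c) u z → BT (ν (some c)) (S.A c) v y' →
      ∃ ν', Good G (S.nu0 ρ R.hρ) ν' ∧ AgreeOn B ν ν' ∧ (ν' (some c)).SameCycle u v := by
  induction hxy using Relation.ReflTransGen.head_induction_on with
  | refl =>
    intro z hz ν hν B hB u v hu hv
    obtain ⟨ν', a1, a2, a3, -⟩ := S.mer_row R c (fam_symm (S.comm c) hz) ν hν B hB u v hu hv
    exact ⟨ν', a1, a2, a3⟩
  | @head a a' haa' hrest ih =>
    intro z hz ν hν B hB u v hu hv
    by_cases h1 : fam (S.U c) S.b z y'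
    · obtain ⟨ν', a1, a2, a3, -⟩ := S.mer_row R c h1 ν hν B hB u v hu hv
      exact ⟨ν', a1, a2, a3⟩
    by_cases h2 : fam (S.U c) S.b a a'
    · exact ih z (fam_trans (S.comm c) (fam_symm (S.comm c) h2) hz) ν hν B hB u v hu hv
    -- link
    obtain ⟨ν1, b1, b2, b3, w, z1, z2, hz1, hz2, hbw, hfw⟩ := S.link R hν
      (hB.union (Set.toFinite {u, v})) c haa' h2
    have hu1 := (b3 u (by simp) z).1 hu
    have hv1 := (b3 v (by simp) y').2 hv
    have hzz1 : fam (S.U c) S.b z z1 := fam_trans (S.comm c) (fam_symm (S.comm c) hz) hz1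
    obtain ⟨ν2, e1, e2, e3, e4⟩ := S.mer_row R c hzz1 ν1 b1 (B ∪ {u, v, w})
      (hB.union (Set.toFinite _)) u w hu1 hbw
    have hw2 : FT (ν2 (some c)) (S.A c) w z2 := by
      refine (e4 w (by simp) z2).1 ?_ hfw
      intro h
      exact h2 (fam_trans (S.comm c) hz (fam_trans (S.comm c) h (fam_symm (S.comm c) hz2)))
    have hv2 : BT (ν2 (some c)) (S.A c) v y' := (e4 v (by simp) y').2 h1 hv1
    obtain ⟨ν3, g1, g2, g3⟩ := ih z2 hz2 ν2 e1 B hB u v (hw2.left e3.symm) hv2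
    exact ⟨ν3, g1, ((b2.mono Set.subset_union_left).trans (e2.mono Set.subset_union_left)).trans g2,
      g3⟩

theorem theoremD [Countable V] [Countable C] [Nonempty C] (hG : G.Connected) (S : Setup V C G) :
    ∃ f : Option C → ℤ → V, (∀ d, Function.Bijective (f d)) ∧
      (∀ d n, G.Adj (f d n) (f d (n + 1))) ∧
      ∀ e ∈ G.edgeSet, ∃! p : Option C × ℤ, s(f p.1 p.2, f p.1 (p.2 + 1)) = e := by
  obtain ⟨ρ, r0, r1, r2, r3⟩ := S.exists_rho hG
  have R : RhoProp S ρ := ⟨r0, r1, r2, r3⟩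
  have hne : Nonempty V := hG.nonempty
  refine limit_lemma G (S.nu0 ρ R.hρ) (S.good_nu0 R.hρ) ?_
  intro ν hν B hB d u v
  obtain ⟨W, hW, hag⟩ := hν.fin
  obtain ⟨y, hy⟩ := FT.exists (hν.aper d) hW (fun x hx => (hag d x hx).1) u
  obtain ⟨y', hy'⟩ : ∃ y', BT (ν d) (S.nu0 ρ R.hρ d) v y' :=
    FT.exists (hν.aper d).inv hW (fun x hx => (hag d x hx).2) v
  cases d with
  | none =>
    obtain ⟨ν', a1, a2, a3, -⟩ := S.mer_none R y y' ν hν B hB u v hy hy'
    exact ⟨ν', a1, a2, a3⟩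
  | some c =>
    have h := hG.preconnected y y'
    rw [SimpleGraph.reachable_iff_reflTransGen] at h
    exact S.merge R c h y (fam_refl y) ν hν B hB u v hy hy'

end Pool.Agent.Helper39.HD
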