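import Pool.Agent.Helper39.HD.Basic
import Pool.Agent.Helper39.HD.Forest

/-!
# Hamilton decompositions restrict to decompositions into linear forests
-/

namespace Pool.Agent.Helper39.HD

/-- the two ways in which a pair can be the `m`-th edge of a double ray -/
theorem nec_step {Γ : Type*} {g : ℤ → Γ} {x y : Γ} {m : ℤ}
    (h : s(x, y) = s(g m, g (m + 1))) :
    (x = g m ∧ y = g (m + 1)) ∨ (x = g (m + 1) ∧ y = g m) := by
  rcases Sym2.eq_iff.1 h with h | h
  · exact Or.inl h
  · exact Or.inr h

/-- a graph with an injective height function such that adjacent vertices have consecutive heights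
is acyclic -/
theorem nec_acyclic {V : Type*} (F : SimpleGraph V) (g : V → ℤ) (hg : Function.Injective g)
    (h : ∀ x y, F.Adj x y → g y = g x + 1 ∨ g x = g y + 1) : F.IsAcyclic := by
  have key : ∀ x y : V, g y = g x + 1 → ¬ (F.deleteEdges {s(x, y)}).Reachable x y := by
    intro x y hxy hr
    have inv : ∀ z, (F.deleteEdges {s(x, y)}).Reachable x z → g z ≤ g x := by
      intro z hz
      rw [SimpleGraph.reachable_iff_reflTransGen] at hz
      induction hz with
      | refl => exact le_rfl
      | @tail a b _ hab ih =>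
        rw [SimpleGraph.deleteEdges_adj] at hab
        obtain ⟨hab, hne⟩ := hab
        rcases h a b hab with h1 | h1
        · rcases lt_or_eq_of_le ih with h2 | h2
          · omega
          · exfalso
            apply hne
            have ha : a = x := hg h2
            have hb : b = y := hg (by rw [h1, hxy, ha])
            rw [ha, hb]
            exact Set.mem_singleton _
        · omega
    have := inv y hr
    omega
  rw [SimpleGraph.isAcyclic_iff_forall_adj_isBridge]
  intro v w hvw
  rw [SimpleGraph.isBridge_iff]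
  rcases h v w hvw with h1 | h1
  · exact key v w h1
  · intro hr
    have h2 := key w v h1
    apply h2
    rw [Sym2.eq_swap]
    exact hr.symm

/-- the number of double rays in a Hamilton decomposition of a Cayley graph -/
theorem nec_card {Γ : Type*} [AddCommGroup Γ] (S : Set Γ) (hfin : S.Finite)
    (hS : ∀ s ∈ S, -s ∉ S) {ι : Type} (f : ι → ℤ → Γ) (hb : ∀ i, Function.Bijective (f i))
    (hadj : ∀ i n, (SimpleGraph.circulantGraph S).Adj (f i n) (f i (n + 1)))
    (hu : ∀ e ∈ (SimpleGraph.circulantGraph S).edgeSet,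
      ∃! p : ι × ℤ, s(f p.1 p.2, f p.1 (p.2 + 1)) = e) :
    Nonempty (ι ≃ Fin S.ncard) := by
  classical
  have h0 : (0 : Γ) ∉ S := fun h => hS 0 h (by simpa using h)
  choose z hz using fun i => (hb i).2 (0 : Γ)
  -- neighbours via the rays
  let Φ : ι × Bool → (SimpleGraph.circulantGraph S).neighborSet 0 := fun p =>
    if p.2 then ⟨f p.1 (z p.1 + 1), by
      have := hadj p.1 (z p.1)
      rwa [hz] at this⟩
    else ⟨f p.1 (z p.1 - 1), by
      have := hadj p.1 (z p.1 - 1)
      rw [sub_add_cancel, hz] at this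
      exact this.symm⟩
  -- neighbours via the generators
  let Ψ : S × Bool → (SimpleGraph.circulantGraph S).neighborSet 0 := fun p =>
    if p.2 then ⟨p.1, by
      have h1 := p.1.2
      simp only [SimpleGraph.mem_neighborSet, SimpleGraph.circulantGraph_adj]
      refine ⟨?_, Or.inr ?_⟩
      · intro h; exact h0 (h ▸ h1)
      · simp⟩
    else ⟨-p.1, by
      have h1 := p.1.2
      simp only [SimpleGraph.mem_neighborSet, SimpleGraph.circulantGraph_adj]
      refine ⟨?_, Or.inl ?_⟩
      · intro h
        have : (p.1 : Γ) = 0 := by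
          have := h.symm
          simpa using this
        exact h0 (this ▸ h1)
      · simp⟩
  have edge_of : ∀ p : ι × Bool, ∃ m : ℤ, m = (if p.2 then z p.1 else z p.1 - 1) ∧
      s(f p.1 m, f p.1 (m + 1)) = s(0, (Φ p : Γ)) := by
    rintro ⟨i, b⟩
    cases b
    · refine ⟨z i - 1, by simp, ?_⟩
      simp only [Φ]
      simp [hz, Sym2.eq_swap]
    · refine ⟨z i, by simp, ?_⟩
      simp only [Φ]
      simp [hz]
  have hΦ : Function.Bijective Φ := by
    constructor
    · intro p q hpq
      obtain ⟨m, hm, hm'⟩ := edge_of p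
      obtain ⟨n, hn, hn'⟩ := edge_of q
      have hmem : s(0, (Φ p : Γ)) ∈ (SimpleGraph.circulantGraph S).edgeSet := by
        rw [SimpleGraph.mem_edgeSet]
        exact (Φ p).2
      obtain ⟨r, _, hr⟩ := hu _ hmem
      have e1 := hr (p.1, m) hm'
      have e2 := hr (q.1, n) (by rw [hpq]; exact hn')
      have e3 : (p.1, m) = (q.1, n) := e1.trans e2.symm
      rw [Prod.mk.injEq] at e3
      obtain ⟨e4, e5⟩ := e3
      obtain ⟨i, b⟩ := p
      obtain ⟨j, c⟩ := q
      simp only at e4 hm hn
      subst e4
      rw [hm, hn] at e5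
      cases b <;> cases c <;> simp only [if_true, if_false, Bool.false_eq_true] at e5
      · rfl
      · omega
      · omega
      · rfl
    · rintro ⟨y, hy⟩
      have hmem : s(0, y) ∈ (SimpleGraph.circulantGraph S).edgeSet := by
        rw [SimpleGraph.mem_edgeSet]
        exact hy
      obtain ⟨⟨i, m⟩, hr, _⟩ := hu _ hmem
      simp only at hr
      rcases nec_step hr.symm with ⟨h1, h2⟩ | ⟨h1, h2⟩
      · have hm : m = z i := (hb i).1 (by rw [← h1, hz])
        refine ⟨(i, true), Subtype.ext ?_⟩
        simp only [Φ]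
        simp [← hm, h2]
      · have hm : m + 1 = z i := (hb i).1 (by rw [← h1, hz])
        refine ⟨(i, false), Subtype.ext ?_⟩
        simp only [Φ]
        simp [← hm, h2]
  have hΨ : Function.Bijective Ψ := by
    constructor
    · rintro ⟨⟨s, hs⟩, b⟩ ⟨⟨t, ht⟩, c⟩ h
      have h' := congrArg Subtype.val h
      simp only [Ψ] at h'
      cases b <;> cases c <;> simp at h' ⊢
      · exact h'
      · exact hS s hs (h' ▸ ht)
      · exact hS t ht (h' ▸ hs)
      · exact h'
    · rintro ⟨y, hy⟩
      simp only [SimpleGraph.mem_neighborSet, SimpleGraph.circulantGraph_adj] at hy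
      obtain ⟨_, hy | hy⟩ := hy
      · rw [zero_sub] at hy
        refine ⟨(⟨-y, hy⟩, false), Subtype.ext ?_⟩
        simp only [Ψ]
        simp
      · rw [sub_zero] at hy
        refine ⟨(⟨y, hy⟩, true), Subtype.ext ?_⟩
        simp only [Ψ]
        simp
  have : Finite S := hfin
  let E : ι × Bool ≃ S × Bool := (Equiv.ofBijective Φ hΦ).trans (Equiv.ofBijective Ψ hΨ).symm
  have : Finite (ι × Bool) := Finite.of_equiv _ E.symm
  have hι : Finite ι := Finite.of_injective (fun i : ι => (i, true)) (by
    intro a b h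
    simpa using h)
  have hc : Nat.card (ι × Bool) = Nat.card (S × Bool) := Nat.card_congr E
  rw [Nat.card_prod, Nat.card_prod] at hc
  have hc' : Nat.card ι = S.ncard := by
    have h2 : Nat.card Bool = 2 := by simp
    rw [h2] at hc
    have : Nat.card ι = Nat.card S := by omega
    rw [this]
    rfl
  exact ⟨Finite.equivFinOfCardEq hc'⟩

/-- A Hamilton decomposition of `Cay(Γ,S)` restricts to a decomposition of `Cay(⟨P⟩,P)` into `|S|` linear
forests, for every `P ⊆ S`. -/
theorem necessary {Γ : Type*} [AddCommGroup Γ] (S : Set Γ) (hfin : S.Finite)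
    (hS : ∀ s ∈ S, -s ∉ S) (P : Set Γ) (hP : P ⊆ S)
    (h : HasHamiltonDecomposition (SimpleGraph.circulantGraph S)) :
    LinearForestDecomposable
      (SimpleGraph.circulantGraph ((fun x : AddSubgroup.closure P => (x : Γ)) ⁻¹' P)) S.ncard := by
  classical
  obtain ⟨ι, f, hb, hadj, hu⟩ := h
  obtain ⟨e⟩ := nec_card S hfin hS f hb hadj hu
  set G := SimpleGraph.circulantGraph ((fun x : AddSubgroup.closure P => (x : Γ)) ⁻¹' P) with hG
  have hGadj : ∀ x y, G.Adj x y → (SimpleGraph.circulantGraph S).Adj (x : Γ) y := by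
    intro x y hxy
    rw [hG, SimpleGraph.circulantGraph_adj] at hxy
    rw [SimpleGraph.circulantGraph_adj]
    refine ⟨fun h => hxy.1 (Subtype.ext h), ?_⟩
    rcases hxy.2 with h | h
    · exact Or.inl (hP (by simpa using h))
    · exact Or.inr (hP (by simpa using h))
  let F : Fin S.ncard → SimpleGraph (AddSubgroup.closure P) := fun i =>
    { Adj := fun x y => G.Adj x y ∧ ∃ n : ℤ, s((x : Γ), (y : Γ)) = s(f (e.symm i) n, f (e.symm i) (n + 1))
      symm := ⟨by
        rintro x y ⟨h1, n, h2⟩
        exact ⟨h1.symm, n, by rw [Sym2.eq_swap, h2]⟩⟩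
      loopless := ⟨by
        rintro x ⟨h1, _⟩
        exact G.loopless.irrefl _ h1⟩ }
  refine ⟨F, ?_, ?_, ?_⟩
  · intro i
    choose g hg using fun x : AddSubgroup.closure P => (hb (e.symm i)).2 (x : Γ)
    have hginj : Function.Injective g := by
      intro x y hxy
      apply Subtype.ext
      rw [← hg x, ← hg y, hxy]
    have hstep : ∀ x y, (F i).Adj x y → g y = g x + 1 ∨ g x = g y + 1 := by
      rintro x y ⟨_, n, hn⟩
      rcases nec_step hn with ⟨h1, h2⟩ | ⟨h1, h2⟩
      · left
        have e1 : g x = n := (hb (e.symm i)).1 (by rw [hg, h1])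
        have e2 : g y = n + 1 := (hb (e.symm i)).1 (by rw [hg, h2])
        rw [e1, e2]
      · right
        have e1 : g x = n + 1 := (hb (e.symm i)).1 (by rw [hg, h1])
        have e2 : g y = n := (hb (e.symm i)).1 (by rw [hg, h2])
        rw [e1, e2]
    refine ⟨nec_acyclic (F i) g hginj hstep, ?_⟩
    intro v
    have hsub : g '' ((F i).neighborSet v) ⊆ {g v + 1, g v - 1} := by
      rintro _ ⟨w, hw, rfl⟩
      rw [SimpleGraph.mem_neighborSet] at hw
      rcases hstep v w hw with h1 | h1
      · left; exact h1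
      · right
        rw [Set.mem_singleton_iff]
        omega
    rw [← hginj.encard_image]
    refine (Set.encard_le_encard hsub).trans ?_
    rw [Set.encard_pair (by omega)]
  · intro i x y hxy
    exact hxy.1
  · intro x y hxy
    have hmem : s((x : Γ), (y : Γ)) ∈ (SimpleGraph.circulantGraph S).edgeSet := by
      rw [SimpleGraph.mem_edgeSet]
      exact hGadj x y hxy
    obtain ⟨⟨j, n⟩, hr, hr'⟩ := hu _ hmem
    refine ⟨e j, ⟨hxy, n, ?_⟩, ?_⟩
    · rw [Equiv.symm_apply_apply]
      exact hr.symm
    · rintro k ⟨_, m, hm⟩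
      have := hr' (e.symm k, m) hm.symm
      rw [Prod.mk.injEq] at this
      rw [← this.1, Equiv.apply_symm_apply]

end Pool.Agent.Helper39.HD
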