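import Mathlib

/-! Choice of the two-colouring. -/

set_option autoImplicit false

namespace Pool.Agent.Helper39.HD

namespace Rho

variable {X ι : Type*}

/-- the graph chosen for the demand number `n`, given the set used before -/
noncomputable def pick (H : ι → ℕ → SimpleGraph X) (c : ι → Set X → ℕ) (f : ι × ℕ → ℕ) (n : ℕ)
    (W : Set X) : SimpleGraph X :=
  open scoped Classical in
  if h : ∃ p, f p = n then H h.choose.1 (c h.choose.1 W) else ⊥

/-- the sets used before step `n` -/
noncomputable def used (H : ι → ℕ → SimpleGraph X) (c : ι → Set X → ℕ) (f : ι × ℕ → ℕ) : ℕ → Set X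
  | 0 => ∅
  | n + 1 => used H c f n ∪ (pick H c f n (used H c f n)).support

variable {H : ι → ℕ → SimpleGraph X} {c : ι → Set X → ℕ} {f : ι × ℕ → ℕ}

lemma used_finite (hfin : ∀ i m, (H i m).support.Finite) (n : ℕ) : (used H c f n).Finite := by
  induction n with
  | zero => exact Set.finite_empty
  | succ n ih =>
    refine ih.union ?_
    unfold pick
    split_ifs
    · exact hfin _ _
    · rw [SimpleGraph.support_bot]
      exact Set.finite_empty

lemma used_mono : Monotone (used H c f) :=
  monotone_nat_of_le_succ fun _ => Set.subset_union_left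

lemma pick_disjoint (hfin : ∀ i m, (H i m).support.Finite)
    (hc : ∀ i (W : Set X), W.Finite → Disjoint (H i (c i W)).support W) (n : ℕ) :
    Disjoint (pick H c f n (used H c f n)).support (used H c f n) := by
  have h := used_finite (c := c) (f := f) hfin n
  generalize used H c f n = W at h
  unfold pick
  split_ifs
  · exact hc _ _ h
  · rw [SimpleGraph.support_bot]
    exact Set.empty_disjoint _

end Rho

open Rho in
theorem rho_lemma {X ι : Type*} [Countable ι] (T : SimpleGraph X) (hT : T.Connected)
    (H : ι → ℕ → SimpleGraph X) (hle : ∀ i m, H i m ≤ T) (hfin : ∀ i m, (H i m).support.Finite)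
    (hmat : ∀ i m x y z, (H i m).Adj x y → (H i m).Adj x z → y = z)
    (hesc : ∀ i (F : Set X), F.Finite → ∃ m, Disjoint (H i m).support F) :
    ∃ ρ : X → Bool, (∀ i (F : Set X), F.Finite → ∃ m, Disjoint (H i m).support F ∧
        ∀ x y, (H i m).Adj x y → ρ x ≠ ρ y) ∧
      ∀ x y, Relation.ReflTransGen (fun x y => T.Adj x y ∧ ρ x ≠ ρ y) x y := by
  classical
  obtain ⟨f, hf⟩ := exists_injective_nat (ι × ℕ)
  choose! c hc using hesc
  set P : ℕ → SimpleGraph X := fun n => pick H c f n (used H c f n) with hP
  have hPsub : ∀ n, (P n).support ⊆ used H c f (n + 1) := fun n => Set.subset_union_right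
  have hPdis : ∀ n, Disjoint (P n).support (used H c f n) := fun n => pick_disjoint hfin hc n
  have hPlt : ∀ m n, m < n → Disjoint (P m).support (P n).support := by
    intro m n hmn
    exact ((hPdis n).mono_right ((hPsub m).trans (used_mono hmn))).symm
  have hPne : ∀ m n, m ≠ n → Disjoint (P m).support (P n).support := by
    intro m n hmn
    rcases lt_or_gt_of_ne hmn with h | h
    · exact hPlt m n h
    · exact (hPlt n m h).symm
  have hPle : ∀ n, P n ≤ T := by
    intro n
    simp only [hP, pick]
    split_ifs
    · exact hle _ _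
    · exact bot_le
  have hPmat : ∀ n x y z, (P n).Adj x y → (P n).Adj x z → y = z := by
    intro n x y z h1 h2
    simp only [hP, pick] at h1 h2
    split_ifs at h1 h2
    · exact hmat _ _ x y z h1 h2
    · exact h1.elim
  -- the union
  set M : SimpleGraph X := ⨆ n, P n with hM
  have hMadj : ∀ x y, M.Adj x y ↔ ∃ n, (P n).Adj x y := by
    intro x y
    rw [hM, SimpleGraph.iSup_adj]
  have hMle : M ≤ T := iSup_le hPle
  have hMmat : ∀ x y z, M.Adj x y → M.Adj x z → y = z := by
    intro x y z h1 h2
    obtain ⟨m, h1⟩ := (hMadj x y).1 h1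
    obtain ⟨n, h2⟩ := (hMadj x z).1 h2
    by_cases hmn : m = n
    · subst hmn
      exact hPmat m x y z h1 h2
    · exact absurd ((P n).mem_support.2 ⟨z, h2⟩)
        (Set.disjoint_left.1 (hPne m n hmn) ((P m).mem_support.2 ⟨y, h1⟩))
  have hMac : M.IsAcyclic := by
    intro v p hp
    apply hp.snd_ne_penultimate
    refine hMmat v _ _ ?_ ?_
    · exact p.adj_snd hp.not_nil
    · exact (p.adj_penultimate hp.not_nil).symm
  obtain ⟨F, hMF, hFT, hF⟩ := hT.exists_isTree_le_of_le_of_isAcyclic hMle hMac
  obtain ⟨C⟩ := hF.colorable_two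
  have hC : ∀ x y, F.Adj x y → decide (C x = 0) ≠ decide (C y = 0) := by
    intro x y h
    have h1 := C.valid h
    intro h2
    rw [decide_eq_decide] at h2
    apply h1
    generalize C x = a at h2 ⊢
    generalize C y = b at h2 ⊢
    omega
  refine ⟨fun x => decide (C x = 0), ?_, ?_⟩
  · intro i F0 hF0
    -- the steps for the demands of `i`
    have hstep : ∀ k, P (f (i, k)) = H i (c i (used H c f (f (i, k)))) := by
      intro k
      have h : ∃ p, f p = f (i, k) := ⟨_, rfl⟩
      have h1 : h.choose = (i, k) := hf h.choose_spec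
      simp only [hP, pick]
      rw [dif_pos h, h1]
    have hex : ∃ k, Disjoint (P (f (i, k))).support F0 := by
      by_contra hcon
      push Not at hcon
      have h1 : ∀ k, ∃ x, x ∈ (P (f (i, k))).support ∧ x ∈ F0 := fun k =>
        Set.not_disjoint_iff.1 (hcon k)
      choose g hg1 hg2 using h1
      have hinj : Function.Injective g := by
        intro k l hkl
        by_contra hne
        have h2 : f (i, k) ≠ f (i, l) := fun h => hne (by simpa using hf h)
        refine Set.disjoint_left.1 (hPne _ _ h2) (hg1 k) ?_
        rw [hkl]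
        exact hg1 l
      exact (Set.infinite_range_of_injective hinj) (hF0.subset (Set.range_subset_iff.2 hg2))
    obtain ⟨k, hk⟩ := hex
    refine ⟨c i (used H c f (f (i, k))), ?_, ?_⟩
    · rw [← hstep]
      exact hk
    · intro x y hxy
      rw [← hstep] at hxy
      exact hC x y (hMF ((hMadj x y).2 ⟨_, hxy⟩))
  · intro x y
    have h1 : F.Reachable x y := hF.connected.preconnected x y
    rw [SimpleGraph.reachable_iff_reflTransGen] at h1
    exact Relation.ReflTransGen.mono (fun a b hab => ⟨hFT hab, hC a b hab⟩) x y h1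

end Pool.Agent.Helper39.HD
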