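import Pool.Agent.Helper39.HD.Setup
import Pool.Agent.Helper39.HD.Rho

/-!
# Choice of the orientation of the columns
-/

namespace Pool.Agent.Helper39.HD

open Equiv

variable {V C : Type*} {G : SimpleGraph V}

theorem exists_ge_notMem {X : Type*} {g : ℕ → X} (hg : Function.Injective g) {F : Set X}
    (hF : F.Finite) : ∃ N, ∀ n, N ≤ n → g n ∉ F := by
  have h1 : {n : ℕ | g n ∈ F}.Finite := hF.preimage hg.injOn
  obtain ⟨N, hN⟩ := h1.bddAbove
  refine ⟨N + 1, fun n hn h => ?_⟩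
  have := hN h
  omega

namespace Setup

variable (S : Setup V C G)

/-- the orientation of the rows -/
noncomputable def θ (c : C) : V → Bool := (exists_theta (S.comm c) (S.free c)).choose

theorem θU (c : C) (x : V) : S.θ c (S.U c x) = S.θ c x :=
  (exists_theta (S.comm c) (S.free c)).choose_spec.1 x

theorem θb (c : C) (x : V) : S.θ c (S.b x) = !S.θ c x :=
  (exists_theta (S.comm c) (S.free c)).choose_spec.2 x

/-- the oriented rows -/
noncomputable def A (c : C) : Perm V := tw (S.U c) (S.θ c) (S.θU c)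

theorem A_sameCycle {c : C} {x y : V} : (S.A c).SameCycle x y ↔ (S.U c).SameCycle x y :=
  tw_sameCycle

theorem A_zpow (c : C) (x : V) (n : ℤ) : ∃ m : ℤ, (m = n ∨ m = -n) ∧
    (S.A c ^ n) x = (S.U c ^ m) x := by
  cases hx : S.θ c x
  · exact ⟨-n, Or.inr rfl, tw_zpow_false hx n⟩
  · exact ⟨n, Or.inl rfl, tw_zpow_true hx n⟩

theorem θA (c : C) (x : V) : S.θ c (S.A c x) = S.θ c x := tw_const x

theorem θAinv (c : C) (x : V) : S.θ c ((S.A c)⁻¹ x) = S.θ c x := by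
  have := S.θA c ((S.A c)⁻¹ x)
  rw [← this]
  congr 1
  exact (S.A c).apply_symm_apply x

theorem θA_zpow (c : C) (x : V) (n : ℤ) : S.θ c ((S.A c ^ n) x) = S.θ c x :=
  const_zpow (S.θA c) n x

theorem θb' (c : C) (x : V) : S.θ c (S.b⁻¹ x) = !S.θ c x := by
  have h := S.θb c (S.b⁻¹ x)
  have h2 : S.b (S.b⁻¹ x) = x := S.b.apply_symm_apply x
  rw [h2] at h
  rw [h, Bool.not_not]

/-- `A b A = b` and `A b⁻¹ A = b⁻¹` -/
theorem A_b_A (c : C) {e : Perm V} (he : e = S.b ∨ e = S.b⁻¹) (x : V) :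
    S.A c (e (S.A c x)) = e x := by
  have hθ : ∀ z, S.θ c (e z) = !S.θ c z := by
    rcases he with rfl | rfl
    · exact S.θb c
    · exact S.θb' c
  have hcom : ∀ z, S.U c (e z) = e (S.U c z) := by
    intro z
    rcases he with rfl | rfl
    · rw [← Perm.mul_apply, (S.comm c).eq]; rfl
    · rw [← Perm.mul_apply, (S.comm c).inv_right.eq]; rfl
  have hcom' : ∀ z, (S.U c)⁻¹ (e z) = e ((S.U c)⁻¹ z) := by
    intro z
    rw [Perm.inv_eq_iff_eq, hcom]
    congr 1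
    exact ((S.U c).apply_symm_apply z).symm
  have h1 : S.θ c (S.A c x) = S.θ c x := tw_const x
  cases hx : S.θ c x
  · rw [hx] at h1
    have h2 : S.θ c (e (S.A c x)) = true := by rw [hθ, h1]; rfl
    have h3 : S.A c x = (S.U c)⁻¹ x := tw_false hx
    have h4 : S.A c (e (S.A c x)) = S.U c (e (S.A c x)) := tw_true h2
    rw [h4, hcom, h3]
    congr 1
    exact (S.U c).apply_symm_apply x
  · rw [hx] at h1
    have h2 : S.θ c (e (S.A c x)) = false := by rw [hθ, h1]; rfl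
    have h3 : S.A c x = (S.U c) x := tw_true hx
    have h4 : S.A c (e (S.A c x)) = (S.U c)⁻¹ (e (S.A c x)) := tw_false h2
    rw [h4, hcom', h3]
    congr 1
    exact (S.U c).symm_apply_apply x

theorem A_inv_eq (c : C) {e : Perm V} (he : e = S.b ∨ e = S.b⁻¹) (x : V) :
    (S.A c)⁻¹ (e x) = e (S.A c x) := by
  rw [Perm.inv_eq_iff_eq]
  exact (S.A_b_A c he x).symm

theorem A_e (c : C) {e : Perm V} (he : e = S.b ∨ e = S.b⁻¹) (x : V) :
    S.A c (e x) = e ((S.A c)⁻¹ x) := by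
  have := S.A_b_A c he ((S.A c)⁻¹ x)
  rw [← this]
  congr 2
  exact ((S.A c).apply_symm_apply x).symm

theorem A_neg_zpow (c : C) {e : Perm V} (he : e = S.b ∨ e = S.b⁻¹) (n : ℤ) (x : V) :
    (S.A c ^ (-n)) (e x) = e ((S.A c ^ n) x) := by
  induction n using Int.induction_on with
  | zero => simp
  | succ n ih =>
    rw [neg_add, add_comm (-(n : ℤ)), zpow_apply_add, ih, zpow_neg_one, A_inv_eq S c he,
      apply_zpow]
  | pred n ih =>
    rw [neg_sub, sub_eq_add_neg, zpow_apply_add, ih, zpow_one, A_e S c he,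
      sub_eq_neg_add, zpow_apply_add, zpow_neg_one]

/-- even heights -/
theorem A_even (c : C) {e : Perm V} (he : e = S.b ∨ e = S.b⁻¹) (n : ℕ) (x : V) :
    S.A c ((e ^ (2 * n)) x) = (e ^ (2 * n)) (S.A c x) := by
  induction n with
  | zero => simp
  | succ n ih =>
    rw [show 2 * (n + 1) = 1 + (1 + 2 * n) by ring, pow_add, pow_one, Perm.mul_apply,
      pow_add, pow_one, Perm.mul_apply, A_e S c he, A_inv_eq S c he, ih]
    rfl

theorem A_inv_even (c : C) {e : Perm V} (he : e = S.b ∨ e = S.b⁻¹) (n : ℕ) (x : V) :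
    (S.A c)⁻¹ ((e ^ (2 * n)) x) = (e ^ (2 * n)) ((S.A c)⁻¹ x) := by
  rw [Perm.inv_eq_iff_eq, A_even S c he]
  congr 1
  exact ((S.A c).apply_symm_apply x).symm

theorem baper [Nonempty C] : Aper S.b := by
  intro x n h
  obtain ⟨c⟩ := ‹Nonempty C›
  exact (S.free c 0 n x (by simpa using h)).2

theorem Uaper (c : C) : Aper (S.U c) := fun x n h => (S.free c n 0 x (by simpa using h)).1

theorem Aaper (c : C) : Aper (S.A c) := tw_aper (S.Uaper c)

theorem t_zpow (c : C) (x : V) : ∃ i : ℤ, i ≠ 0 ∧ ∀ j : ℕ, (S.t c ^ j) x = (S.U c ^ (i * j)) x := by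
  obtain ⟨i, hi, h⟩ := S.tpow c x
  refine ⟨i, hi, fun j => ?_⟩
  induction j with
  | zero => simp
  | succ j ih =>
    have hcom : ∀ (m : ℤ) (z : V), S.t c ((S.U c ^ m) z) = (S.U c ^ m) (S.t c z) := by
      intro m z
      rw [← Perm.mul_apply, ((S.tU c).zpow_right m).eq]
      rfl
    rw [pow_succ', Perm.mul_apply, ih, hcom, h, ← zpow_apply_add]
    congr 2
    push_cast
    ring

theorem t_adj_pow (c : C) (j : ℕ) {x y : V} (h : G.Adj x y) :
    G.Adj ((S.t c ^ j) x) ((S.t c ^ j) y) := by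
  induction j with
  | zero => simpa using h
  | succ j ih =>
    rw [pow_succ', Perm.mul_apply, Perm.mul_apply]
    exact S.tadj c _ _ ih

theorem adj_base {d : Option C} {x : V} : G.Adj x (base S.b S.U d x) := by
  have : edge (base S.b S.U) (d, x) ∈ G.edgeSet := by
    rw [← S.range]
    exact ⟨_, rfl⟩
  exact this

theorem adj_U (c : C) (x : V) : G.Adj x (S.U c x) := S.adj_base (d := some c)

theorem adj_b (x : V) : G.Adj x (S.b x) := S.adj_base (d := none)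

theorem adj_A (c : C) (x : V) : G.Adj x (S.A c x) := by
  rcases tw_cases (f := S.U c) (s := S.θ c) (h := S.θU c) x with h | h
  · rw [A, h]; exact S.adj_U c x
  · rw [A, h]
    have := S.adj_U c ((S.U c)⁻¹ x)
    have h2 : S.U c ((S.U c)⁻¹ x) = x := (S.U c).apply_symm_apply x
    rw [h2] at this
    exact this.symm

end Setup

/-- the columns -/
abbrev Col (S : Setup V C G) : Type _ := Quotient (Perm.SameCycle.setoid S.b)

namespace Setup

variable (S : Setup V C G)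

/-- the column of a vertex -/
def col (x : V) : Col S := Quotient.mk _ x

theorem col_eq {x y : V} : S.col x = S.col y ↔ S.b.SameCycle x y := Quotient.eq

/-- the graph of the columns -/
def colGraph : SimpleGraph (Col S) where
  Adj X Y := X ≠ Y ∧ ∃ x y, S.col x = X ∧ S.col y = Y ∧ G.Adj x y
  symm := ⟨fun _ _ ⟨h, x, y, hx, hy, hxy⟩ => ⟨h.symm, y, x, hy, hx, hxy.symm⟩⟩
  loopless := ⟨fun _ h => h.1 rfl⟩

theorem colGraph_connected (hG : G.Connected) : S.colGraph.Connected := by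
  have hne : Nonempty V := hG.nonempty
  have key : ∀ x y, G.Reachable x y → S.colGraph.Reachable (S.col x) (S.col y) := by
    intro x y h
    rw [SimpleGraph.reachable_iff_reflTransGen] at h
    induction h with
    | refl => exact SimpleGraph.Reachable.refl _
    | @tail a c h1 h2 ih =>
      by_cases hab : S.col a = S.col c
      · rwa [hab] at ih
      · exact ih.trans (SimpleGraph.Adj.reachable ⟨hab, a, c, rfl, rfl, h2⟩)
  have : Nonempty (Col S) := hne.map S.col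
  refine SimpleGraph.Connected.mk ?_
  intro X Y
  obtain ⟨x, rfl⟩ := Quotient.exists_rep X
  obtain ⟨y, rfl⟩ := Quotient.exists_rep Y
  exact key x y (hG.preconnected x y)

/-- columns of points in a row are different -/
theorem col_U_inj (c : C) {x : V} {i j : ℤ} (h : S.col ((S.U c ^ i) x) = S.col ((S.U c ^ j) x)) :
    i = j := by
  rw [col_eq] at h
  obtain ⟨k, hk⟩ := h
  rw [grid_comm (S.comm c)] at hk
  exact (grid_inj (S.comm c) (S.free c) (x := x) (i' := j) (j' := 0) (by simpa using hk)).1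

theorem col_A_inj (c : C) {x : V} {i j : ℤ} (h : S.col ((S.A c ^ i) x) = S.col ((S.A c ^ j) x)) :
    i = j := by
  cases hx : S.θ c x
  · rw [A, tw_zpow_false hx, tw_zpow_false hx] at h
    have := S.col_U_inj c h
    omega
  · rw [A, tw_zpow_true hx, tw_zpow_true hx] at h
    exact S.col_U_inj c h

theorem fam_of_col {c : C} {x y : V} (h : S.col x = S.col y) : fam (S.U c) S.b x y := by
  rw [col_eq] at h
  obtain ⟨k, rfl⟩ := h
  exact fam_b k x

theorem fam_A_zpow (c : C) (n : ℤ) (x : V) : fam (S.U c) S.b x ((S.A c ^ n) x) := by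
  obtain ⟨m, -, h⟩ := S.A_zpow c x n
  rw [h]
  exact fam_U m x

/-- form of the points `A^k t^j p` -/
theorem A_t (c : C) (p : V) (k : ℤ) : ∃ i : ℤ, i ≠ 0 ∧ ∃ ε : ℤ, ∀ j : ℕ,
    (S.A c ^ k) ((S.t c ^ j) p) = (S.U c ^ (ε + i * j)) p := by
  obtain ⟨i, hi, h⟩ := S.t_zpow c p
  refine ⟨i, hi, ?_⟩
  have hθ : ∀ j : ℕ, S.θ c ((S.t c ^ j) p) = S.θ c p := by
    intro j
    rw [h, const_zpow (S.θU c)]
  cases hx : S.θ c p
  · refine ⟨-k, fun j => ?_⟩
    rw [A, tw_zpow_false (by rw [hθ, hx]), h, ← zpow_apply_add]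
  · refine ⟨k, fun j => ?_⟩
    rw [A, tw_zpow_true (by rw [hθ, hx]), h, ← zpow_apply_add]

theorem fam_A_t (c : C) (p : V) (k : ℤ) (j : ℕ) :
    fam (S.U c) S.b p ((S.A c ^ k) ((S.t c ^ j) p)) := by
  obtain ⟨i, -, ε, h⟩ := S.A_t c p k
  rw [h]
  exact fam_U _ _

theorem col_A_t_inj (c : C) (p : V) (k : ℤ) :
    Function.Injective fun j : ℕ => S.col ((S.A c ^ k) ((S.t c ^ j) p)) := by
  intro j j' hj
  obtain ⟨i, hi, ε, h⟩ := S.A_t c p k
  have hj : S.col ((S.A c ^ k) ((S.t c ^ j) p)) = S.col ((S.A c ^ k) ((S.t c ^ j') p)) := hj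
  rw [h, h] at hj
  have h1 := S.col_U_inj c hj
  have h2 : i * j = i * j' := by omega
  have := mul_left_cancel₀ hi h2
  exact_mod_cast this

/-- the demands -/
abbrev Dem (S : Setup V C G) : Type _ := (C × V × ℕ) ⊕
  {q : C × V × V × ℕ // G.Adj q.2.1 q.2.2.1 ∧ ¬ fam (S.U q.1) S.b q.2.1 q.2.2.1}

/-- the edges which serve a demand -/
noncomputable def dem : Dem S → ℕ → SimpleGraph (Col S)
  | Sum.inl (c, x, N), m =>
    SimpleGraph.edge (S.col ((S.A c ^ ((N + m : ℕ) : ℤ)) x))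
      (S.col ((S.A c ^ ((N + m : ℕ) + 1 : ℤ)) x))
  | Sum.inr ⟨(c, p, q, N), _⟩, m =>
    SimpleGraph.edge (S.col ((S.A c ^ (0 : ℤ)) ((S.t c ^ (N + m)) p)))
      (S.col ((S.A c ^ (-1 : ℤ)) ((S.t c ^ (N + m)) p))) ⊔
    SimpleGraph.edge (S.col ((S.A c ^ (0 : ℤ)) ((S.t c ^ (N + m)) q)))
      (S.col ((S.A c ^ (1 : ℤ)) ((S.t c ^ (N + m)) q)))

theorem edge_le (c : C) (x : V) (i : ℤ) :
    SimpleGraph.edge (S.col ((S.A c ^ i) x)) (S.col ((S.A c ^ (i + 1)) x)) ≤ S.colGraph := by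
  have h : S.colGraph.Adj (S.col ((S.A c ^ i) x)) (S.col ((S.A c ^ (i + 1)) x)) := by
    refine ⟨fun h => ?_, _, _, rfl, rfl, ?_⟩
    · have := S.col_A_inj c h
      omega
    · rw [← apply_zpow]
      exact S.adj_A c _
  intro X Y hXY
  rw [SimpleGraph.edge_adj] at hXY
  rcases hXY.1 with ⟨rfl, rfl⟩ | ⟨rfl, rfl⟩
  · exact h
  · exact h.symm

theorem dem_le (i : Dem S) (m : ℕ) : S.dem i m ≤ S.colGraph := by
  rcases i with ⟨c, x, N⟩ | ⟨⟨c, p, q, N⟩, h⟩
  · exact S.edge_le c x _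
  · refine sup_le ?_ ?_
    · have := S.edge_le c ((S.t c ^ (N + m)) p) (-1)
      rw [SimpleGraph.edge_comm]
      simpa using this
    · have := S.edge_le c ((S.t c ^ (N + m)) q) 0
      simpa using this

theorem support_edge_sub {X : Type*} (a b : X) : (SimpleGraph.edge a b).support ⊆ {a, b} := by
  intro x hx
  rw [SimpleGraph.mem_support] at hx
  obtain ⟨y, hy⟩ := hx
  rw [SimpleGraph.edge_adj] at hy
  rcases hy.1 with ⟨rfl, rfl⟩ | ⟨rfl, rfl⟩ <;> simp

theorem support_edge_sup_sub {X : Type*} (a b c d : X) :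
    (SimpleGraph.edge a b ⊔ SimpleGraph.edge c d).support ⊆ {a, b, c, d} := by
  intro x hx
  rw [SimpleGraph.mem_support] at hx
  obtain ⟨y, hy⟩ := hx
  rw [SimpleGraph.sup_adj, SimpleGraph.edge_adj, SimpleGraph.edge_adj] at hy
  rcases hy with ⟨⟨rfl, rfl⟩ | ⟨rfl, rfl⟩, -⟩ | ⟨⟨rfl, rfl⟩ | ⟨rfl, rfl⟩, -⟩ <;> simp

/-- existence of the orientation of the columns -/
theorem exists_rho [Countable V] [Countable C] (hG : G.Connected) :
    ∃ ρ : V → Bool, (∀ x, ρ (S.b x) = ρ x) ∧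
      (∀ c x, ∀ W : Set V, W.Finite → ∀ N : ℕ, ∃ i : ℕ, N ≤ i ∧
        ρ ((S.A c ^ (i : ℤ)) x) ≠ ρ ((S.A c ^ (i + 1 : ℤ)) x) ∧
        (∀ k : ℤ, (S.b ^ k) ((S.A c ^ (i : ℤ)) x) ∉ W) ∧
        (∀ k : ℤ, (S.b ^ k) ((S.A c ^ (i + 1 : ℤ)) x) ∉ W)) ∧
      (∀ x y, Relation.ReflTransGen (fun x y => S.b.SameCycle x y ∨ (G.Adj x y ∧ ρ x ≠ ρ y)) x y) ∧
      (∀ c p q, G.Adj p q → ¬ fam (S.U c) S.b p q → ∀ W : Set V, W.Finite → ∃ P Q, G.Adj P Q ∧
        fam (S.U c) S.b p P ∧ fam (S.U c) S.b q Q ∧ ρ P ≠ ρ ((S.A c)⁻¹ P) ∧ ρ Q ≠ ρ (S.A c Q) ∧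
        (∀ k : ℤ, (S.b ^ k) P ∉ W) ∧ (∀ k : ℤ, (S.b ^ k) ((S.A c)⁻¹ P) ∉ W) ∧
        (∀ k : ℤ, (S.b ^ k) Q ∉ W) ∧ (∀ k : ℤ, (S.b ^ k) (S.A c Q) ∉ W)) := by
  obtain ⟨ρ, h1, h2⟩ := rho_lemma (ι := Dem S) S.colGraph (S.colGraph_connected hG) S.dem S.dem_le
    (by
      rintro (⟨c, x, N⟩ | ⟨⟨c, p, q, N⟩, h⟩) m
      · exact (Set.toFinite _).subset (support_edge_sub _ _)
      · exact (Set.toFinite _).subset (support_edge_sup_sub _ _ _ _))
    (by
      rintro (⟨c, x, N⟩ | ⟨⟨c, p, q, N⟩, h⟩) m X Y Z h1 h2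
      · simp only [dem, SimpleGraph.edge_adj] at h1 h2
        rcases h1.1 with ⟨rfl, rfl⟩ | ⟨rfl, rfl⟩ <;> rcases h2.1 with ⟨h3, rfl⟩ | ⟨h3, rfl⟩
        · rfl
        · exact absurd h3 h1.2
        · exact absurd h3 h1.2
        · rfl
      · simp only [dem, SimpleGraph.sup_adj, SimpleGraph.edge_adj] at h1 h2
        have hne : ∀ k l : ℤ, S.col ((S.A c ^ k) ((S.t c ^ (N + m)) p)) ≠
            S.col ((S.A c ^ l) ((S.t c ^ (N + m)) q)) := by
          intro k l hkl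
          exact h.2 (fam_trans (S.comm c) (fam_trans (S.comm c) (S.fam_A_t c p k (N + m))
            (S.fam_of_col hkl)) (fam_symm (S.comm c) (S.fam_A_t c q l (N + m))))
        rcases h1 with ⟨⟨rfl, rfl⟩ | ⟨rfl, rfl⟩, g1⟩ | ⟨⟨rfl, rfl⟩ | ⟨rfl, rfl⟩, g1⟩ <;>
          rcases h2 with ⟨⟨h3, rfl⟩ | ⟨h3, rfl⟩, g2⟩ | ⟨⟨h3, rfl⟩ | ⟨h3, rfl⟩, g2⟩ <;>
          first
            | rfl
            | exact absurd h3 g1
            | exact absurd h3 (hne _ _)
            | exact absurd h3.symm (hne _ _))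
    (by
      rintro (⟨c, x, N⟩ | ⟨⟨c, p, q, N⟩, h⟩) F hF
      · have i1 : Function.Injective fun m : ℕ => S.col ((S.A c ^ ((N + m : ℕ) : ℤ)) x) := by
          intro a b hab
          have := S.col_A_inj c hab
          omega
        have i2 : Function.Injective fun m : ℕ => S.col ((S.A c ^ ((N + m : ℕ) + 1 : ℤ)) x) := by
          intro a b hab
          have := S.col_A_inj c hab
          omega
        obtain ⟨N1, hN1⟩ := exists_ge_notMem i1 hF
        obtain ⟨N2, hN2⟩ := exists_ge_notMem i2 hF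
        refine ⟨N1 + N2, ?_⟩
        rw [Set.disjoint_left]
        intro X hX hXF
        have := support_edge_sub _ _ hX
        simp only [Set.mem_insert_iff, Set.mem_singleton_iff] at this
        rcases this with rfl | rfl
        · exact hN1 _ (by omega) hXF
        · exact hN2 _ (by omega) hXF
      · have i1 : ∀ (z : V) (k : ℤ), Function.Injective fun m : ℕ =>
            S.col ((S.A c ^ k) ((S.t c ^ (N + m)) z)) := by
          intro z k a b hab
          have := S.col_A_t_inj c z k hab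
          omega
        obtain ⟨N1, hN1⟩ := exists_ge_notMem (i1 p 0) hF
        obtain ⟨N2, hN2⟩ := exists_ge_notMem (i1 p (-1)) hF
        obtain ⟨N3, hN3⟩ := exists_ge_notMem (i1 q 0) hF
        obtain ⟨N4, hN4⟩ := exists_ge_notMem (i1 q 1) hF
        refine ⟨N1 + N2 + N3 + N4, ?_⟩
        rw [Set.disjoint_left]
        intro X hX hXF
        have := support_edge_sup_sub _ _ _ _ hX
        simp only [Set.mem_insert_iff, Set.mem_singleton_iff] at this
        rcases this with rfl | rfl | rfl | rfl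
        · exact hN1 _ (by omega) hXF
        · exact hN2 _ (by omega) hXF
        · exact hN3 _ (by omega) hXF
        · exact hN4 _ (by omega) hXF)
  have hcolb : ∀ (k : ℤ) x, S.col ((S.b ^ k) x) = S.col x :=
    fun k x => S.col_eq.2 (Perm.SameCycle.symm ⟨k, rfl⟩)
  have havoid : ∀ {W : Set V} {x : V}, S.col x ∉ S.col '' W → ∀ k : ℤ, (S.b ^ k) x ∉ W := by
    intro W x hx k hk
    exact hx ⟨_, hk, hcolb k x⟩
  refine ⟨fun x => ρ (S.col x), ?_, ?_, ?_, ?_⟩
  · intro x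
    have := hcolb 1 x
    rw [zpow_one] at this
    simp only [this]
  · intro c x W hW N
    obtain ⟨m, hm1, hm2⟩ := h1 (Sum.inl (c, x, N)) (S.col '' W) (hW.image _)
    have hadj : (S.dem (Sum.inl (c, x, N)) m).Adj (S.col ((S.A c ^ ((N + m : ℕ) : ℤ)) x))
        (S.col ((S.A c ^ ((N + m : ℕ) + 1 : ℤ)) x)) := by
      refine (SimpleGraph.edge_adj _ _ _ _).2 ⟨Or.inl ⟨rfl, rfl⟩, fun h => ?_⟩
      have := S.col_A_inj c h
      omega
    refine ⟨N + m, by omega, hm2 _ _ hadj, ?_, ?_⟩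
    · apply havoid
      exact Set.disjoint_left.1 hm1 ⟨_, hadj⟩
    · apply havoid
      exact Set.disjoint_left.1 hm1 ⟨_, hadj.symm⟩
  · intro x y
    have key : ∀ X Y, Relation.ReflTransGen (fun x y => S.colGraph.Adj x y ∧ ρ x ≠ ρ y) X Y →
        ∀ x y, S.col x = X → S.col y = Y →
        Relation.ReflTransGen (fun x y => S.b.SameCycle x y ∨
          (G.Adj x y ∧ ρ (S.col x) ≠ ρ (S.col y))) x y := by
      intro X Y h
      induction h with
      | refl =>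
        intro x y hx hy
        exact Relation.ReflTransGen.single (Or.inl (S.col_eq.1 (hx.trans hy.symm)))
      | @tail Z Y h3 h4 ih =>
        intro x y hx hy
        obtain ⟨⟨-, a, b, ha, hb, hab⟩, hρ⟩ := h4
        refine (ih x a hx ha).tail (Or.inr ⟨hab, ?_⟩) |>.tail (Or.inl ?_)
        · rw [ha, hb]; exact hρ
        · exact S.col_eq.1 (hb.trans hy.symm)
    exact key _ _ (h2 (S.col x) (S.col y)) x y rfl rfl
  · intro c p q hpq hfam W hW
    obtain ⟨m, hm1, hm2⟩ := h1 (Sum.inr ⟨(c, p, q, 0), hpq, hfam⟩) (S.col '' W) (hW.image _)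
    have hadj1 : (S.dem (Sum.inr ⟨(c, p, q, 0), hpq, hfam⟩) m).Adj
        (S.col ((S.A c ^ (0 : ℤ)) ((S.t c ^ (0 + m)) p)))
        (S.col ((S.A c ^ (-1 : ℤ)) ((S.t c ^ (0 + m)) p))) := by
      refine Or.inl ((SimpleGraph.edge_adj _ _ _ _).2 ⟨Or.inl ⟨rfl, rfl⟩, fun h => ?_⟩)
      have := S.col_A_inj c h
      omega
    have hadj2 : (S.dem (Sum.inr ⟨(c, p, q, 0), hpq, hfam⟩) m).Adj
        (S.col ((S.A c ^ (0 : ℤ)) ((S.t c ^ (0 + m)) q)))
        (S.col ((S.A c ^ (1 : ℤ)) ((S.t c ^ (0 + m)) q))) := by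
      refine Or.inr ((SimpleGraph.edge_adj _ _ _ _).2 ⟨Or.inl ⟨rfl, rfl⟩, fun h => ?_⟩)
      have := S.col_A_inj c h
      omega
    have e0 : ∀ z : V, (S.A c ^ (0 : ℤ)) z = z := fun z => by simp
    have e1 : ∀ z : V, (S.A c ^ (1 : ℤ)) z = S.A c z := fun z => by simp
    have e2 : ∀ z : V, (S.A c ^ (-1 : ℤ)) z = (S.A c)⁻¹ z := fun z => by rw [zpow_neg_one]
    rw [e0, e2] at hadj1
    rw [e0, e1] at hadj2
    have f1 := S.fam_A_t c p 0 (0 + m)
    have f2 := S.fam_A_t c q 0 (0 + m)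
    rw [e0] at f1 f2
    refine ⟨(S.t c ^ (0 + m)) p, (S.t c ^ (0 + m)) q, S.t_adj_pow c _ hpq, f1, f2,
      hm2 _ _ hadj1, hm2 _ _ hadj2, ?_, ?_, ?_, ?_⟩
    · exact havoid (Set.disjoint_left.1 hm1 ⟨_, hadj1⟩)
    · exact havoid (Set.disjoint_left.1 hm1 ⟨_, hadj1.symm⟩)
    · exact havoid (Set.disjoint_left.1 hm1 ⟨_, hadj2⟩)
    · exact havoid (Set.disjoint_left.1 hm1 ⟨_, hadj2.symm⟩)

end Setup

end Pool.Agent.Helper39.HD
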