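import Pool.Agent.Helper39.HD.Chain

/-!
# The standard state
-/

namespace Pool.Agent.Helper39.HD

open Equiv

section twist

variable {V : Type*}

/-- reverse `f` on the set where `s` is false; `s` is constant on the orbits of `f` -/
def tw (f : Perm V) (s : V → Bool) (h : ∀ x, s (f x) = s x) : Perm V where
  toFun x := if s x then f x else f.symm x
  invFun x := if s x then f.symm x else f x
  left_inv x := by
    have h' : s (f.symm x) = s x := by
      have := h (f.symm x)
      simpa using this.symm
    cases hx : s x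
    · simp [hx, h']
    · simp [hx, h]
  right_inv x := by
    have h' : s (f.symm x) = s x := by
      have := h (f.symm x)
      simpa using this.symm
    cases hx : s x
    · simp [hx, h]
    · simp [hx, h']

variable {f : Perm V} {s : V → Bool} {h : ∀ x, s (f x) = s x}

theorem const_zpow (h : ∀ x, s (f x) = s x) (n : ℤ) (x : V) : s ((f ^ n) x) = s x := by
  have h' : ∀ x, s (f⁻¹ x) = s x := by
    intro x
    have := h (f⁻¹ x)
    simpa using this.symm
  induction n using Int.induction_on generalizing x with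
  | zero => simp
  | succ n ih => rw [add_comm, zpow_apply_add, zpow_one, h, ih]
  | pred n ih => rw [sub_eq_neg_add, zpow_apply_add, zpow_neg_one, h', ih]

theorem tw_true {x : V} (hx : s x = true) : tw f s h x = f x := by
  simp [tw, hx]

theorem tw_false {x : V} (hx : s x = false) : tw f s h x = f⁻¹ x := by
  simp only [tw, Equiv.coe_fn_mk, hx, Bool.false_eq_true, if_false]
  rfl

theorem tw_inv_true {x : V} (hx : s x = true) : (tw f s h)⁻¹ x = f⁻¹ x := by
  rw [Perm.inv_eq_iff_eq, tw_true]
  · simp
  · have := const_zpow h (-1) x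
    rw [zpow_neg_one] at this
    rw [this, hx]

theorem tw_inv_false {x : V} (hx : s x = false) : (tw f s h)⁻¹ x = f x := by
  rw [Perm.inv_eq_iff_eq, tw_false]
  · simp
  · rw [h, hx]

theorem tw_zpow_true {x : V} (hx : s x = true) (n : ℤ) : (tw f s h ^ n) x = (f ^ n) x := by
  induction n using Int.induction_on with
  | zero => simp
  | succ n ih =>
    rw [add_comm, zpow_apply_add, zpow_apply_add, ih, zpow_one, zpow_one, tw_true]
    rw [const_zpow h, hx]
  | pred n ih =>
    rw [sub_eq_neg_add, zpow_apply_add, zpow_apply_add, ih, zpow_neg_one, zpow_neg_one,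
      tw_inv_true]
    rw [const_zpow h, hx]

theorem tw_zpow_false {x : V} (hx : s x = false) (n : ℤ) : (tw f s h ^ n) x = (f ^ (-n)) x := by
  induction n using Int.induction_on with
  | zero => simp
  | succ n ih =>
    rw [add_comm, zpow_apply_add, neg_add, zpow_apply_add f, ih, zpow_one, zpow_neg_one, tw_false]
    rw [const_zpow h, hx]
  | pred n ih =>
    rw [sub_eq_neg_add, zpow_apply_add, neg_add, zpow_apply_add f, ih, zpow_neg_one,
      tw_inv_false]
    · simp
    · rw [const_zpow h, hx]

theorem tw_sameCycle {x y : V} : (tw f s h).SameCycle x y ↔ f.SameCycle x y := by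
  cases hx : s x
  · constructor
    · rintro ⟨n, hn⟩
      exact ⟨-n, by rw [← hn, tw_zpow_false hx]⟩
    · rintro ⟨n, hn⟩
      exact ⟨-n, by rw [← hn, tw_zpow_false hx, neg_neg]⟩
  · constructor
    · rintro ⟨n, hn⟩
      exact ⟨n, by rw [← hn, tw_zpow_true hx]⟩
    · rintro ⟨n, hn⟩
      exact ⟨n, by rw [← hn, tw_zpow_true hx]⟩

theorem tw_aper (hf : Aper f) : Aper (tw f s h) := by
  intro x n hn
  cases hx : s x
  · rw [tw_zpow_false hx] at hn
    have := hf x _ hn
    omega
  · rw [tw_zpow_true hx] at hn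
    exact hf x _ hn

theorem tw_const (x : V) : s (tw f s h x) = s x := by
  cases hx : s x
  · rw [tw_false hx]
    have := const_zpow h (-1) x
    rw [zpow_neg_one] at this
    rw [this, hx]
  · rw [tw_true hx, h, hx]

/-- either `tw f s h x = f x` or ... -/
theorem tw_cases (x : V) : tw f s h x = f x ∨ tw f s h x = f⁻¹ x := by
  cases hx : s x
  · exact Or.inr (tw_false hx)
  · exact Or.inl (tw_true hx)

/-- reindexing of edges -/
def twr (f : Perm V) (s : V → Bool) (h : ∀ x, s (f x) = s x) : Perm V where
  toFun x := if s x then x else f.symm x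
  invFun x := if s x then x else f x
  left_inv x := by
    have h' : s (f.symm x) = s x := by
      have := h (f.symm x)
      simpa using this.symm
    cases hx : s x <;> simp [hx, h']
  right_inv x := by
    cases hx : s x <;> simp [hx, h]

theorem tw_edge (x : V) : s(x, tw f s h x) = s(twr f s h x, f (twr f s h x)) := by
  cases hx : s x
  · have : twr f s h x = f⁻¹ x := by
      simp only [twr, Equiv.coe_fn_mk, hx, Bool.false_eq_true, if_false]
      rfl
    rw [this, tw_false hx, Sym2.eq_swap]
    congr 1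
    exact (f.apply_symm_apply x).symm
  · have : twr f s h x = x := by
      simp [twr, hx]
    rw [this, tw_true hx]

end twist

/-- the unoriented state -/
def base {V C : Type*} (b : Perm V) (U : C → Perm V) : Option C → Perm V := fun d => d.elim b U

structure Setup (V C : Type*) (G : SimpleGraph V) where
  b : Perm V
  U : C → Perm V
  comm : ∀ c, Commute (U c) b
  free : ∀ c (i j : ℤ) (x : V), (U c ^ i) ((b ^ j) x) = x → i = 0 ∧ j = 0
  inj : Function.Injective (edge (base b U))
  range : Set.range (edge (base b U)) = G.edgeSet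
  t : C → Perm V
  tU : ∀ c, Commute (t c) (U c)
  tb : ∀ c, Commute (t c) b
  tadj : ∀ c x y, G.Adj x y → G.Adj (t c x) (t c y)
  tpow : ∀ c x, ∃ i : ℤ, i ≠ 0 ∧ t c x = (U c ^ i) x

section grid

variable {V : Type*} {U b : Perm V}

theorem grid_comm (hc : Commute U b) (i j : ℤ) (x : V) :
    (b ^ j) ((U ^ i) x) = (U ^ i) ((b ^ j) x) := by
  rw [← Perm.mul_apply, ← Perm.mul_apply, (hc.zpow_zpow i j).eq]

theorem grid_add (hc : Commute U b) (i j i' j' : ℤ) (x : V) :
    (U ^ i) ((b ^ j) ((U ^ i') ((b ^ j') x))) = (U ^ (i + i')) ((b ^ (j + j')) x) := by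
  rw [grid_comm hc, zpow_apply_add, zpow_apply_add b]

theorem grid_inj (hc : Commute U b)
    (hfree : ∀ (i j : ℤ) x, (U ^ i) ((b ^ j) x) = x → i = 0 ∧ j = 0) {i j i' j' : ℤ} {x : V}
    (h : (U ^ i) ((b ^ j) x) = (U ^ i') ((b ^ j') x)) : i = i' ∧ j = j' := by
  have h1 : (U ^ (-i' + i)) ((b ^ (-j' + j)) x) = x := by
    rw [← grid_add hc, h, grid_add hc]
    simp
  have := hfree _ _ _ h1
  omega

/-- the relation of being in the same grid -/
def fam (U b : Perm V) (x y : V) : Prop := ∃ i j : ℤ, y = (U ^ i) ((b ^ j) x)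

theorem fam_refl (x : V) : fam U b x x := ⟨0, 0, by simp⟩

theorem fam_symm (hc : Commute U b) {x y : V} (h : fam U b x y) : fam U b y x := by
  obtain ⟨i, j, rfl⟩ := h
  refine ⟨-i, -j, ?_⟩
  rw [grid_add hc]
  simp

theorem fam_trans (hc : Commute U b) {x y z : V} (h : fam U b x y) (h' : fam U b y z) :
    fam U b x z := by
  obtain ⟨i, j, rfl⟩ := h
  obtain ⟨i', j', rfl⟩ := h'
  exact ⟨i' + i, j' + j, by rw [grid_add hc]⟩

theorem fam_U (n : ℤ) (x : V) : fam U b x ((U ^ n) x) := ⟨n, 0, by simp⟩

theorem fam_b (n : ℤ) (x : V) : fam U b x ((b ^ n) x) := ⟨0, n, by simp⟩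

/-- orbit representatives give a sign which alternates with the height -/
theorem exists_theta (hc : Commute U b)
    (hfree : ∀ (i j : ℤ) x, (U ^ i) ((b ^ j) x) = x → i = 0 ∧ j = 0) :
    ∃ θ : V → Bool, (∀ x, θ (U x) = θ x) ∧ ∀ x, θ (b x) = !θ x := by
  classical
  let r : Setoid V :=
    { r := fam U b
      iseqv := ⟨fam_refl, fun h => fam_symm hc h, fun h h' => fam_trans hc h h'⟩ }
  have hex : ∀ x : V, ∃ p : ℤ × ℤ, x = (U ^ p.1) ((b ^ p.2) (Quotient.out (Quotient.mk r x))) := by
    intro x
    obtain ⟨i, j, hij⟩ := Quotient.exact (Quotient.out_eq (Quotient.mk r x))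
    exact ⟨(i, j), hij⟩
  choose p hp using hex
  refine ⟨fun x => decide (Even (p x).2), fun x => ?_, fun x => ?_⟩
  · have h1 : Quotient.mk r (U x) = Quotient.mk r x :=
      Quotient.sound (fam_symm hc ⟨1, 0, by simp⟩)
    have h2 := hp (U x)
    rw [h1] at h2
    have h3 : U x = (U ^ ((p x).1 + 1)) ((b ^ (p x).2) (Quotient.out (Quotient.mk r x))) := by
      rw [← apply_zpow, ← hp x]
    have := (grid_inj hc hfree (h2.symm.trans h3)).2
    simp only [this]
  · have h1 : Quotient.mk r (b x) = Quotient.mk r x :=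
      Quotient.sound (fam_symm hc ⟨0, 1, by simp⟩)
    have h2 := hp (b x)
    rw [h1] at h2
    have h3 : b x = (U ^ ((p x).1)) ((b ^ ((p x).2 + 1)) (Quotient.out (Quotient.mk r x))) := by
      rw [← grid_comm hc, ← apply_zpow, grid_comm hc, ← hp x]
    have := (grid_inj hc hfree (h2.symm.trans h3)).2
    simp only [this]
    by_cases hpx : Even (p x).2
    · have h5 : ¬ Even ((p x).2 + 1) := by rw [Int.even_add_one, not_not]; exact hpx
      rw [decide_eq_false h5, decide_eq_true hpx]; rfl
    · have h5 : Even ((p x).2 + 1) := by rw [Int.even_add_one]; exact hpx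
      rw [decide_eq_true h5, decide_eq_false hpx]; rfl

end grid

end Pool.Agent.Helper39.HD
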