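import Pool.Agent.Helper39.HD.RhoEx

/-!
# The standard state and its far joins
-/

namespace Pool.Agent.Helper39.HD

open Equiv

variable {V C D : Type*} {G : SimpleGraph V}

/-- the exchange condition in a square `P P1 R1 R` -/
theorem exch_square {ν : D → Perm V} {d d' : D} {P P1 R R1 : V} (h1 : ν d P = P1)
    (h2 : ν d R1 = R) (h3 : (ν d' P = R ∧ ν d' R1 = P1) ∨ (ν d' R = P ∧ ν d' P1 = R1)) :
    ∃ p' q', ((p' = P ∧ q' = R1) ∨ (p' = R ∧ q' = P1)) ∧ Exch ν d d' P R1 p' q' := by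
  rcases h3 with ⟨h3, h4⟩ | ⟨h3, h4⟩
  · refine ⟨P, R1, Or.inl ⟨rfl, rfl⟩, ?_, ?_, Or.inl ⟨?_, ?_⟩⟩
    · rw [h2, h3]
    · rw [h1, h4]
    · rw [h4, h1]
    · rw [h3, h2]
  · refine ⟨R, P1, Or.inr ⟨rfl, rfl⟩, ?_, ?_, Or.inr ⟨?_, ?_⟩⟩
    · rw [h2, h3, Sym2.eq_swap]
    · rw [h1, h4, Sym2.eq_swap]
    · rw [h4, h2, Sym2.eq_swap]
    · rw [h3, h1, Sym2.eq_swap]

namespace Setup

variable (S : Setup V C G)

/-- heights in a grid -/
theorem height_eq (c : C) {x y : V} (h : ∃ ε : ℤ, y = (S.U c ^ ε) x) {m1 m2 : ℤ}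
    (h' : (S.U c).SameCycle ((S.b ^ m1) x) ((S.b ^ m2) y)) : m1 = m2 := by
  obtain ⟨ε, rfl⟩ := h
  obtain ⟨k, hk⟩ := h'
  rw [grid_comm (S.comm c)] at hk
  exact (grid_inj (S.comm c) (S.free c) hk).2

theorem rows_leave (c : C) (x : V) {W : Set V} (hW : W.Finite) :
    ∃ N : ℕ, ∀ m : ℤ, N ≤ m.natAbs → ∀ k : ℤ, (S.U c ^ k) ((S.b ^ m) x) ∉ W := by
  have hinj : Function.Injective fun p : ℤ × ℤ => (S.U c ^ p.1) ((S.b ^ p.2) x) := by
    intro p q h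
    have := grid_inj (S.comm c) (S.free c) h
    exact Prod.ext this.1 this.2
  have h1 : {p : ℤ × ℤ | (S.U c ^ p.1) ((S.b ^ p.2) x) ∈ W}.Finite := hW.preimage hinj.injOn
  obtain ⟨N, hN⟩ := (h1.image fun p => p.2.natAbs).bddAbove
  refine ⟨N + 1, fun m hm k hk => ?_⟩
  have h2 : m.natAbs ≤ N := hN ⟨(k, m), hk, rfl⟩
  omega

theorem A_zpow_sameCycle (c : C) {x y : V} (h : (S.U c).SameCycle x y) {W : Set V}
    (hx : ∀ k : ℤ, (S.U c ^ k) x ∉ W) (k : ℤ) : (S.A c ^ k) y ∉ W := by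
  obtain ⟨m, rfl⟩ := h
  obtain ⟨m', -, h⟩ := S.A_zpow c ((S.U c ^ m) x) k
  rw [h, ← zpow_apply_add]
  exact hx _

variable {ρ : V → Bool} (hρ : ∀ x, ρ (S.b x) = ρ x)

/-- the standard state -/
noncomputable def nu0 (ρ : V → Bool) (hρ : ∀ x, ρ (S.b x) = ρ x) : Option C → Perm V
  | none => tw S.b ρ hρ
  | some c => S.A c

theorem nu0_none : S.nu0 ρ hρ none = tw S.b ρ hρ := rfl

theorem nu0_some (c : C) : S.nu0 ρ hρ (some c) = S.A c := rfl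

theorem nu0_aper [Nonempty C] (d : Option C) : Aper (S.nu0 ρ hρ d) := by
  cases d with
  | none => exact tw_aper (h := hρ) S.baper
  | some c => exact S.Aaper c

theorem good_nu0 [Nonempty C] : Good G (S.nu0 ρ hρ) (S.nu0 ρ hρ) := by
  have key : ∃ π : Perm (Option C × V), edge (S.nu0 ρ hρ) = edge (base S.b S.U) ∘ π := by
    refine ⟨Equiv.prodShear (Equiv.refl _) (fun d => match d with
      | none => twr S.b ρ hρ
      | some c => twr (S.U c) (S.θ c) (S.θU c)), ?_⟩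
    funext ⟨d, x⟩
    cases d with
    | none => exact tw_edge x
    | some c => exact tw_edge x
  obtain ⟨π, hπ⟩ := key
  refine ⟨S.nu0_aper hρ, ?_, ?_, ⟨∅, Set.finite_empty, AgreeOn.refl _ _⟩⟩
  · rw [hπ]; exact S.inj.comp π.injective
  · rw [hπ, π.surjective.range_comp, S.range]

theorem beta_zpow_avoid {x y : V} (h : S.b.SameCycle x y) {W : Set V}
    (hx : ∀ k : ℤ, (S.b ^ k) x ∉ W) (k : ℤ) : (tw S.b ρ hρ ^ k) y ∉ W := by
  obtain ⟨m, rfl⟩ := h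
  cases hy : ρ ((S.b ^ m) x)
  · rw [tw_zpow_false hy, ← zpow_apply_add]; exact hx _
  · rw [tw_zpow_true hy, ← zpow_apply_add]; exact hx _

/-- orientation of the columns relative to `e = b` or `e = b⁻¹` -/
theorem beta_alt {e : Perm V} (he : e = S.b ∨ e = S.b⁻¹) :
    ∃ s0 : Bool, ∀ z, (ρ z = s0 → tw S.b ρ hρ z = e z) ∧ (ρ z ≠ s0 → tw S.b ρ hρ (e z) = z) := by
  rcases he with rfl | rfl
  · refine ⟨true, fun z => ⟨fun hz => tw_true hz, fun hz => ?_⟩⟩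
    have hz' : ρ (S.b z) = false := by rw [hρ]; simpa using hz
    rw [tw_false hz']
    exact S.b.symm_apply_apply z
  · refine ⟨false, fun z => ⟨fun hz => tw_false hz, fun hz => ?_⟩⟩
    have hz' : ρ (S.b⁻¹ z) = true := by
      have := hρ (S.b⁻¹ z)
      have h2 : S.b (S.b⁻¹ z) = z := S.b.apply_symm_apply z
      rw [h2] at this
      rw [← this]
      simpa using hz
    rw [tw_true hz']
    exact S.b.apply_symm_apply z

theorem sameCycle_e {e : Perm V} (he : e = S.b ∨ e = S.b⁻¹) (x : V) : S.b.SameCycle x (e x) := by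
  rcases he with rfl | rfl
  · exact ⟨1, by simp⟩
  · exact ⟨-1, by simp⟩

theorem adjFar_row (hρ1 : ∀ c x, ∀ W : Set V, W.Finite → ∀ N : ℕ, ∃ i : ℕ, N ≤ i ∧
        ρ ((S.A c ^ (i : ℤ)) x) ≠ ρ ((S.A c ^ (i + 1 : ℤ)) x) ∧
        (∀ k : ℤ, (S.b ^ k) ((S.A c ^ (i : ℤ)) x) ∉ W) ∧
        (∀ k : ℤ, (S.b ^ k) ((S.A c ^ (i + 1 : ℤ)) x) ∉ W))
    (c : C) (x : V) {e : Perm V} (he : e = S.b ∨ e = S.b⁻¹) :
    AdjFar (S.nu0 ρ hρ) (some c) x (e x) := by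
  intro W hW N
  obtain ⟨i, hi, hne, hav1, hav2⟩ := hρ1 c x W hW N
  refine ⟨i, i + 1, hi, by omega, none, by simp, ?_⟩
  have e1 : (S.nu0 ρ hρ (some c) ^ (-((i + 1 : ℕ) : ℤ))) (e x) =
      e ((S.A c ^ (i + 1 : ℤ)) x) := by
    rw [nu0_some, S.A_neg_zpow c he]
    push_cast
    rfl
  rw [e1, nu0_some]
  set X0 := (S.A c ^ (i : ℤ)) x with hX0
  set X1 := (S.A c ^ (i + 1 : ℤ)) x with hX1
  have hX : S.A c X0 = X1 := by rw [hX0, hX1, apply_zpow]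
  obtain ⟨s0, hs0⟩ := S.beta_alt hρ he
  have hcol : ∀ y y', S.b.SameCycle X0 y → S.b.SameCycle X1 y' → ¬ S.b.SameCycle y y' := by
    intro y y' h1 h2 h3
    have h4 : S.b.SameCycle X0 X1 := (h1.trans h3).trans h2.symm
    have := S.col_A_inj c (S.col_eq.2 h4)
    omega
  have h3 : (tw S.b ρ hρ X0 = e X0 ∧ tw S.b ρ hρ (e X1) = X1) ∨
      (tw S.b ρ hρ (e X0) = X0 ∧ tw S.b ρ hρ X1 = e X1) := by
    by_cases h : ρ X0 = s0
    · exact Or.inl ⟨(hs0 _).1 h, (hs0 _).2 fun h' => hne (h.trans h'.symm)⟩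
    · refine Or.inr ⟨(hs0 _).2 h, (hs0 _).1 ?_⟩
      revert h hne
      cases ρ X0 <;> cases ρ X1 <;> cases s0 <;> simp
  obtain ⟨p', q', hpq, hex⟩ := exch_square (ν := S.nu0 ρ hρ) (d := some c) (d' := none)
    (P := X0) (P1 := X1) (R := e X0) (R1 := e X1) hX
    (by rw [nu0_some, ← hX]; exact S.A_b_A c he X0) h3
  refine ⟨p', q', hex, ?_, ?_, ?_⟩
  · rw [nu0_none, tw_sameCycle]
    rcases hpq with ⟨rfl, rfl⟩ | ⟨rfl, rfl⟩
    · exact hcol _ _ (Perm.SameCycle.refl _ _) (S.sameCycle_e he _)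
    · exact hcol _ _ (S.sameCycle_e he _) (Perm.SameCycle.refl _ _)
  · rw [nu0_none]
    rcases hpq with ⟨rfl, rfl⟩ | ⟨rfl, rfl⟩
    · exact S.beta_zpow_avoid hρ (Perm.SameCycle.refl _ _) hav1
    · exact S.beta_zpow_avoid hρ (S.sameCycle_e he _) hav1
  · rw [nu0_none]
    rcases hpq with ⟨rfl, rfl⟩ | ⟨rfl, rfl⟩
    · exact S.beta_zpow_avoid hρ (S.sameCycle_e he _) hav2
    · exact S.beta_zpow_avoid hρ (Perm.SameCycle.refl _ _) hav2

theorem adjFar_col (c : C) {x y : V} (hxy : y = S.A c x ∨ x = S.A c y) (hne : ρ x ≠ ρ y) :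
    AdjFar (S.nu0 ρ hρ) none x y := by
  have hε : ∃ ε : ℤ, y = (S.U c ^ ε) x := by
    rcases hxy with h | h
    · obtain ⟨m, -, h'⟩ := S.A_zpow c x 1
      exact ⟨m, by rw [← h', h, zpow_one]⟩
    · obtain ⟨m, -, h'⟩ := S.A_zpow c x (-1)
      refine ⟨m, ?_⟩
      rw [← h', h, zpow_neg_one]
      exact ((S.A c).symm_apply_apply y).symm
  -- a sign `σ` and the perm `e`
  have key : ∃ (e : Perm V) (σ : ℤ), (e = S.b ∨ e = S.b⁻¹) ∧ (σ = 1 ∨ σ = -1) ∧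
      (∀ n : ℕ, (tw S.b ρ hρ ^ (n : ℤ)) x = (e ^ n) x) ∧
      (∀ n : ℕ, (tw S.b ρ hρ ^ (-(n : ℤ))) y = (e ^ n) y) ∧
      (∀ (n : ℕ) (z : V), (e ^ n) z = (S.b ^ (σ * n)) z) := by
    cases hx : ρ x
    · have hy : ρ y = true := by
        rw [hx] at hne
        revert hne
        cases ρ y <;> simp
      refine ⟨S.b⁻¹, -1, Or.inr rfl, Or.inr rfl, fun n => ?_, fun n => ?_, fun n z => ?_⟩
      · rw [tw_zpow_false hx, zpow_neg, zpow_natCast, inv_pow]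
      · rw [tw_zpow_true hy, zpow_neg, zpow_natCast, inv_pow]
      · rw [neg_one_mul, zpow_neg, zpow_natCast, inv_pow]
    · have hy : ρ y = false := by
        rw [hx] at hne
        revert hne
        cases ρ y <;> simp
      refine ⟨S.b, 1, Or.inl rfl, Or.inl rfl, fun n => ?_, fun n => ?_, fun n z => ?_⟩
      · rw [tw_zpow_true hx, zpow_natCast]
      · rw [tw_zpow_false hy, neg_neg, zpow_natCast]
      · rw [one_mul, zpow_natCast]
  obtain ⟨e, σ, he, hσ, hex, hey, heσ⟩ := key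
  intro W hW N
  obtain ⟨N1, hN1⟩ := S.rows_leave c x hW
  set n := 2 * (N + N1) with hn
  refine ⟨n, n + 1, by omega, by omega, some c, by simp, ?_⟩
  rw [nu0_none, hex n, hey (n + 1)]
  have hodd : ∀ z, (e ^ (n + 1)) z = (e ^ n) (e z) := fun z => by
    rw [pow_succ]; rfl
  have hβ1 : tw S.b ρ hρ ((e ^ n) x) = (e ^ (n + 1)) x := by
    rw [← hex, ← hex, apply_zpow]
    push_cast
    rfl
  have hβ2 : tw S.b ρ hρ ((e ^ (n + 1)) y) = (e ^ n) y := by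
    rw [← hey, ← hey, apply_zpow]
    congr 2
    push_cast
    ring
  have h3 : (S.A c ((e ^ n) x) = (e ^ n) y ∧ S.A c ((e ^ (n + 1)) y) = (e ^ (n + 1)) x) ∨
      (S.A c ((e ^ n) y) = (e ^ n) x ∧ S.A c ((e ^ (n + 1)) x) = (e ^ (n + 1)) y) := by
    rcases hxy with h | h
    · left
      rw [hn, S.A_even c he, ← hn, hodd, hodd, hn, S.A_even c he, h, S.A_b_A c he]
      exact ⟨rfl, rfl⟩
    · right
      rw [hn, S.A_even c he, ← hn, hodd, hodd, hn, S.A_even c he, h, S.A_b_A c he]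
      exact ⟨rfl, rfl⟩
  obtain ⟨p', q', hpq, hex'⟩ := exch_square (ν := S.nu0 ρ hρ) (d := none) (d' := some c)
    (P := (e ^ n) x) (P1 := (e ^ (n + 1)) x) (R := (e ^ n) y) (R1 := (e ^ (n + 1)) y) hβ1 hβ2 h3
  obtain ⟨ε, hε⟩ := hε
  have hxrow : ∀ m : ℕ, n ≤ m → ∀ k : ℤ, (S.U c ^ k) ((e ^ m) x) ∉ W := by
    intro m hm k
    rw [heσ]
    apply hN1
    rcases hσ with rfl | rfl <;> omega
  have hyrow : ∀ m : ℕ, (S.U c).SameCycle ((e ^ m) x) ((e ^ m) y) := by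
    intro m
    refine ⟨ε, ?_⟩
    rw [heσ, heσ, hε, grid_comm (S.comm c)]
  have hA : ∀ (m : ℕ), n ≤ m → ∀ k : ℤ, (S.A c ^ k) ((e ^ m) x) ∉ W ∧
      (S.A c ^ k) ((e ^ m) y) ∉ W := fun m hm k =>
    ⟨S.A_zpow_sameCycle c (Perm.SameCycle.refl _ _) (hxrow m hm) k,
      S.A_zpow_sameCycle c (hyrow m) (hxrow m hm) k⟩
  refine ⟨p', q', hex', ?_, ?_, ?_⟩
  · rw [nu0_some, A_sameCycle]
    rcases hpq with ⟨rfl, rfl⟩ | ⟨rfl, rfl⟩
    · intro h
      rw [heσ, heσ] at h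
      have := S.height_eq c ⟨ε, hε⟩ h
      rcases hσ with rfl | rfl <;> omega
    · intro h
      have h := h.symm
      rw [heσ, heσ] at h
      have := S.height_eq c ⟨ε, hε⟩ h
      rcases hσ with rfl | rfl <;> omega
  · rw [nu0_some]
    rcases hpq with ⟨rfl, rfl⟩ | ⟨rfl, rfl⟩
    · exact fun k => (hA n le_rfl k).1
    · exact fun k => (hA n le_rfl k).2
  · rw [nu0_some]
    rcases hpq with ⟨rfl, rfl⟩ | ⟨rfl, rfl⟩
    · exact fun k => (hA (n + 1) (by omega) k).2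
    · exact fun k => (hA (n + 1) (by omega) k).1

end Setup

end Pool.Agent.Helper39.HD
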