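import Pool.Agent.Helper39.HD.Basic

/-!
# Permutations with infinite orbits: switches and tails
-/

namespace Pool.Agent.Helper39.HD

open Equiv

section perm

variable {V : Type*} {f f0 : Perm V}

theorem Aper.ne (hf : Aper f) (x : V) {n : ℤ} (hn : n ≠ 0) : (f ^ n) x ≠ x :=
  fun h => hn (hf x n h)

theorem Aper.pow_ne (hf : Aper f) (x : V) {n : ℕ} (hn : 1 ≤ n) : (f ^ n) x ≠ x := by
  have := hf.ne x (n := (n : ℤ)) (by omega)
  rwa [zpow_natCast] at this

theorem Aper.inv (hf : Aper f) : Aper f⁻¹ := by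
  intro x n h
  have := hf x (-n) (by rwa [zpow_neg, ← inv_zpow])
  omega

theorem Aper.inj (hf : Aper f) (x : V) : Function.Injective fun n : ℤ => (f ^ n) x := by
  intro m n h
  have h : (f ^ m) x = (f ^ n) x := h
  have h2 : (f ^ (m - n)) x = x := by
    rw [sub_eq_neg_add, zpow_add, Perm.mul_apply, h, ← Perm.mul_apply, ← zpow_add]
    simp
  have := hf x (m - n) h2
  omega

/-- the forward orbit finally leaves every finite set -/
theorem Aper.leave (hf : Aper f) (x : V) {W : Set V} (hW : W.Finite) :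
    ∃ N : ℕ, ∀ n : ℕ, N ≤ n → (f ^ (n : ℤ)) x ∉ W := by
  have h1 : {n : ℕ | (f ^ (n : ℤ)) x ∈ W}.Finite := by
    refine Set.Finite.preimage (f := fun n : ℕ => (f ^ (n : ℤ)) x) ?_ hW
    intro m _ n _ h
    have := hf.inj x h
    omega
  obtain ⟨N, hN⟩ := h1.bddAbove
  refine ⟨N + 1, fun n hn h => ?_⟩
  have := hN h
  omega

theorem sameCycle_pow {x : V} (n : ℕ) : f.SameCycle x ((f ^ n) x) := ⟨n, by simp⟩

theorem sameCycle_inv_pow {x : V} (n : ℕ) : f.SameCycle x ((f⁻¹ ^ n) x) :=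
  ⟨-n, by simp⟩

variable [DecidableEq V]

theorem mul_swap_pow_of_avoid {p q : V} (x : V) (n : ℕ)
    (h : ∀ k < n, (f ^ k) x ≠ p ∧ (f ^ k) x ≠ q) : ((f * swap p q) ^ n) x = (f ^ n) x := by
  induction n with
  | zero => rfl
  | succ n ih =>
    rw [pow_succ', Perm.mul_apply, ih fun k hk => h k (by omega), Perm.mul_apply,
      swap_apply_of_ne_of_ne (h n (by omega)).1 (h n (by omega)).2, ← Perm.mul_apply, ← pow_succ']

theorem mul_swap_inv_pow_of_avoid {p q : V} (x : V) (n : ℕ)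
    (h : ∀ k < n, (f⁻¹ ^ (k + 1)) x ≠ p ∧ (f⁻¹ ^ (k + 1)) x ≠ q) :
    ((f * swap p q)⁻¹ ^ n) x = (f⁻¹ ^ n) x := by
  induction n with
  | zero => rfl
  | succ n ih =>
    rw [pow_succ', Perm.mul_apply, ih fun k hk => h k (by omega), mul_inv_rev, swap_inv,
      Perm.mul_apply, ← Perm.mul_apply f⁻¹, ← pow_succ',
      swap_apply_of_ne_of_ne (h n (by omega)).1 (h n (by omega)).2]

/-- forwards: after the switch `p` continues as `q` did -/
theorem swap_fwd (hf : Aper f) {p q : V} (h : ¬ f.SameCycle p q) (n : ℕ) (hn : 1 ≤ n) :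
    ((f * swap p q) ^ n) p = (f ^ n) q := by
  obtain ⟨n, rfl⟩ : ∃ m, n = m + 1 := ⟨n - 1, by omega⟩
  rw [pow_succ, Perm.mul_apply, Perm.mul_apply, swap_apply_left, mul_swap_pow_of_avoid,
    ← Perm.mul_apply, ← pow_succ]
  intro k _
  rw [← Perm.mul_apply, ← pow_succ]
  refine ⟨fun h' => h ?_, hf.pow_ne q (by omega)⟩
  rw [← h']
  exact (sameCycle_pow _).symm

theorem swap_bwd (hf : Aper f) {p q : V} (h : ¬ f.SameCycle p q) (n : ℕ) :
    ((f * swap p q)⁻¹ ^ n) p = (f⁻¹ ^ n) p := by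
  apply mul_swap_inv_pow_of_avoid
  intro k _
  refine ⟨hf.inv.pow_ne p (by omega), fun h' => h ?_⟩
  rw [← h']
  exact sameCycle_inv_pow _

theorem swap_off {p q x : V} (hp : ¬ f.SameCycle x p) (hq : ¬ f.SameCycle x q) (n : ℤ) :
    ((f * swap p q) ^ n) x = (f ^ n) x := by
  obtain ⟨m, rfl | rfl⟩ := n.eq_nat_or_neg
  · rw [zpow_natCast, zpow_natCast]
    apply mul_swap_pow_of_avoid
    intro k _
    refine ⟨fun h => hp ?_, fun h => hq ?_⟩
    · rw [← h]; exact sameCycle_pow _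
    · rw [← h]; exact sameCycle_pow _
  · rw [zpow_neg, zpow_neg, zpow_natCast, zpow_natCast, ← inv_pow, ← inv_pow]
    apply mul_swap_inv_pow_of_avoid
    intro k _
    refine ⟨fun h => hp ?_, fun h => hq ?_⟩
    · rw [← h]; exact sameCycle_inv_pow _
    · rw [← h]; exact sameCycle_inv_pow _

theorem swap_off_sameCycle {p q x y : V} (hp : ¬ f.SameCycle x p) (hq : ¬ f.SameCycle x q) :
    (f * swap p q).SameCycle x y ↔ f.SameCycle x y := by
  constructor
  · rintro ⟨n, hn⟩
    exact ⟨n, by rw [← hn, swap_off hp hq]⟩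
  · rintro ⟨n, hn⟩
    exact ⟨n, by rw [← hn, swap_off hp hq]⟩

theorem aper_swap (hf : Aper f) {p q : V} (h : ¬ f.SameCycle p q) : Aper (f * swap p q) := by
  have key : ∀ (x : V) (n : ℕ), 1 ≤ n → ((f * swap p q) ^ n) x ≠ x := by
    intro x n hn hx
    by_cases hav : ∀ k < n, (f ^ k) x ≠ p ∧ (f ^ k) x ≠ q
    · rw [mul_swap_pow_of_avoid x n hav] at hx
      exact hf.pow_ne x hn hx
    · have hex : ∃ k, k < n ∧ ((f ^ k) x = p ∨ (f ^ k) x = q) := by
        by_contra hc
        apply hav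
        intro k hk
        by_contra hc2
        apply hc
        refine ⟨k, hk, ?_⟩
        by_cases h1 : (f ^ k) x = p
        · exact Or.inl h1
        · right
          by_contra h2
          exact hc2 ⟨h1, h2⟩
      classical
      obtain ⟨hk, hk2⟩ := Nat.find_spec hex
      have hmin := fun m hm => Nat.find_min hex (m := m) hm
      set k := Nat.find hex
      have hk3 : ((f * swap p q) ^ k) x = (f ^ k) x := by
        apply mul_swap_pow_of_avoid
        intro j hj
        have := hmin j hj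
        constructor
        · intro h1
          exact this ⟨by omega, Or.inl h1⟩
        · intro h1
          exact this ⟨by omega, Or.inr h1⟩
      have hsum : n = (n - k) + k := by omega
      rw [hsum, pow_add, Perm.mul_apply, hk3] at hx
      rcases hk2 with hk2 | hk2
      · rw [hk2, swap_fwd hf h _ (by omega)] at hx
        apply h
        rw [← hk2, ← hx]
        exact ((sameCycle_pow (f := f) (n - k)).trans (sameCycle_pow k)).symm
      · rw [hk2, swap_comm, swap_fwd hf (fun h' => h h'.symm) _ (by omega)] at hx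
        apply h
        rw [← hk2, ← hx]
        exact ((sameCycle_pow (f := f) (n - k)).trans (sameCycle_pow k))
  intro x n hn
  by_contra hne
  obtain ⟨m, rfl | rfl⟩ := n.eq_nat_or_neg
  · rw [zpow_natCast] at hn
    exact key x m (by omega) hn
  · rw [zpow_neg, zpow_natCast, Perm.inv_eq_iff_eq] at hn
    exact key x m (by omega) hn.symm

end perm

section tails

variable {V : Type*} {f f0 : Perm V} {u v y z : V}

theorem zpow_apply_add (g : Perm V) (a b : ℤ) (x : V) : (g ^ (a + b)) x = (g ^ a) ((g ^ b) x) := by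
  rw [zpow_add, Perm.mul_apply]

theorem apply_zpow (g : Perm V) (k : ℤ) (x : V) : g ((g ^ k) x) = (g ^ (k + 1)) x := by
  rw [add_comm, zpow_apply_add, zpow_one]

theorem FT.shift (h : FT f f0 u y) (k l : ℤ) : FT f f0 ((f ^ k) u) ((f0 ^ l) y) := by
  obtain ⟨i, j, h⟩ := h
  refine ⟨i - k, j - l, fun n => ?_⟩
  rw [← zpow_apply_add, ← zpow_apply_add]
  convert h n using 3 <;> ring

theorem FT.left (h : FT f f0 u y) (hu : f.SameCycle u v) : FT f f0 v y := by
  obtain ⟨k, rfl⟩ := hu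
  simpa using h.shift k 0

theorem FT.right (h : FT f f0 u y) (hy : f0.SameCycle y z) : FT f f0 u z := by
  obtain ⟨k, rfl⟩ := hy
  simpa using h.shift 0 k

theorem FT.symm (h : FT f f0 u y) : FT f0 f y u := by
  obtain ⟨i, j, h⟩ := h
  exact ⟨j, i, fun n => (h n).symm⟩

/-- large start -/
theorem FT.large (h : FT f f0 u y) (N : ℤ) :
    ∃ i j : ℤ, N ≤ i ∧ ∀ n : ℕ, (f ^ (i + n)) u = (f0 ^ (j + n)) y := by
  obtain ⟨i, j, h⟩ := h
  refine ⟨i + (N - i).toNat, j + (N - i).toNat, by omega, fun n => ?_⟩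
  have := h ((N - i).toNat + n)
  push_cast at this
  rw [add_assoc, add_assoc]
  exact this

theorem FT.unique (h : FT f f0 u y) (h' : FT f f0 u z) : f0.SameCycle y z := by
  obtain ⟨i, j, h⟩ := h
  obtain ⟨i', j', hi', h'⟩ := h'.large i
  have h1 := h (i' - i).toNat
  have h2 := h' 0
  have h3 : i + (i' - i).toNat = i' + (0 : ℕ) := by push_cast; omega
  rw [h3, h2] at h1
  refine ⟨-(j' + (0 : ℕ)) + (j + (i' - i).toNat), ?_⟩
  rw [zpow_apply_add, ← h1, ← zpow_apply_add]
  simp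

theorem FT.unique' (h : FT f f0 u y) (h' : FT f f0 v y) : f.SameCycle u v :=
  h.symm.unique h'.symm

theorem FT.refl_of (h : ∀ n : ℕ, (f ^ (n : ℤ)) u = (f0 ^ (n : ℤ)) u) : FT f f0 u u :=
  ⟨0, 0, fun n => by simpa using h n⟩

theorem sameCycle_inv_iff {x y : V} : (f⁻¹).SameCycle x y ↔ f.SameCycle x y :=
  Perm.sameCycle_inv

theorem FT.exists (hf : Aper f) {W : Set V} (hW : W.Finite) (h : ∀ x ∉ W, f x = f0 x) (u : V) :
    ∃ y, FT f f0 u y := by
  obtain ⟨N, hN⟩ := hf.leave u hW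
  refine ⟨(f ^ (N : ℤ)) u, N, 0, fun n => ?_⟩
  induction n with
  | zero => simp
  | succ n ih =>
    have e1 : (N : ℤ) + ((n + 1 : ℕ) : ℤ) = 1 + (N + n) := by push_cast; ring
    have e2 : (0 : ℤ) + ((n + 1 : ℕ) : ℤ) = 1 + (0 + n) := by push_cast; ring
    rw [e1, e2, zpow_apply_add f 1, zpow_apply_add f0 1, ← ih, zpow_one, zpow_one]
    apply h
    have := hN (N + n) (by omega)
    push_cast at this
    exact this

theorem FT.exists' (hf : Aper f0) {W : Set V} (hW : W.Finite) (h : ∀ x ∉ W, f x = f0 x) (y : V) :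
    ∃ u, FT f f0 u y := by
  obtain ⟨u, hu⟩ := FT.exists (f := f0) (f0 := f) hf hW (fun x hx => (h x hx).symm) y
  exact ⟨u, hu.symm⟩

theorem BT.left (h : BT f f0 u y) (hu : f.SameCycle u v) : BT f f0 v y :=
  FT.left h (sameCycle_inv_iff.2 hu)

theorem BT.right (h : BT f f0 u y) (hy : f0.SameCycle y z) : BT f f0 u z :=
  FT.right h (sameCycle_inv_iff.2 hy)

theorem BT.unique (h : BT f f0 u y) (h' : BT f f0 u z) : f0.SameCycle y z :=
  sameCycle_inv_iff.1 (FT.unique h h')

theorem BT.unique' (h : BT f f0 u y) (h' : BT f f0 v y) : f.SameCycle u v :=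
  sameCycle_inv_iff.1 (FT.unique' h h')

/-- transport of a tail -/
theorem FT.of_eq {g : Perm V} {w : V} (h : FT f f0 u y) (i j : ℤ)
    (hg : ∀ n : ℕ, (g ^ (i + n)) w = (f ^ (j + n)) u) : FT g f0 w y := by
  obtain ⟨i', j', hi', h'⟩ := h.large j
  refine ⟨i + (i' - j), j', fun n => ?_⟩
  have h1 := hg ((i' - j).toNat + n)
  have h2 := h' n
  rw [← h2]
  have e1 : i + ((((i' - j).toNat + n : ℕ)) : ℤ) = i + (i' - j) + n := by push_cast; omega
  have e2 : j + ((((i' - j).toNat + n : ℕ)) : ℤ) = i' + n := by push_cast; omega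
  rw [e1, e2] at h1
  exact h1

end tails

end Pool.Agent.Helper39.HD
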